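import Mathlib
set_option autoImplicit false

/-! Moments of martingales with bounded quadratic variation. -/

namespace Pool.Agent.V5helper63.RH

open MeasureTheory Set ProbabilityTheory Filter Topology
open scoped ENNReal NNReal

/-- Taylor's inequality for even powers -/
lemma taylor_even (r : ℕ) (x d : ℝ) : (x + d) ^ (2 * r + 2) ≤ x ^ (2 * r + 2) +
    (2 * r + 2) * x ^ (2 * r + 1) * d + 2 ^ (2 * r + 2) * (x ^ (2 * r) * d ^ 2 + d ^ (2 * r + 2)) := by
  have hb : ∀ a b : ℕ, a + b = 2 * r → |x| ^ a * |d| ^ b ≤ x ^ (2 * r) + d ^ (2 * r) := by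
    intro a b hab
    have e1 : x ^ (2 * r) = |x| ^ (2 * r) := by rw [pow_mul, pow_mul, sq_abs]
    have e2 : d ^ (2 * r) = |d| ^ (2 * r) := by rw [pow_mul, pow_mul, sq_abs]
    rw [e1, e2]
    have hx := abs_nonneg x
    have hd := abs_nonneg d
    rcases le_total |x| |d| with h | h
    · calc |x| ^ a * |d| ^ b ≤ |d| ^ a * |d| ^ b := by gcongr
        _ = |d| ^ (2 * r) := by rw [← pow_add, hab]
        _ ≤ _ := by have : 0 ≤ |x| ^ (2 * r) := by positivity
                    linarith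
    · calc |x| ^ a * |d| ^ b ≤ |x| ^ a * |x| ^ b := by gcongr
        _ = |x| ^ (2 * r) := by rw [← pow_add, hab]
        _ ≤ _ := by have : 0 ≤ |d| ^ (2 * r) := by positivity
                    linarith
  rw [add_pow]
  -- split off the last two terms
  have hn : 2 * r + 2 + 1 = (2 * r + 1) + 1 + 1 := by ring
  rw [hn, Finset.sum_range_succ, Finset.sum_range_succ]
  have t1 : x ^ (2 * r + 1 + 1) * d ^ (2 * r + 2 - (2 * r + 1 + 1)) *
      ((2 * r + 2).choose (2 * r + 1 + 1) : ℝ) = x ^ (2 * r + 2) := by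
    rw [show 2 * r + 1 + 1 = 2 * r + 2 by ring]
    simp
  have t2 : x ^ (2 * r + 1) * d ^ (2 * r + 2 - (2 * r + 1)) *
      ((2 * r + 2).choose (2 * r + 1) : ℝ) = (2 * r + 2) * x ^ (2 * r + 1) * d := by
    rw [show 2 * r + 2 - (2 * r + 1) = 1 by omega, show 2 * r + 2 = (2 * r + 1) + 1 by ring,
      Nat.choose_succ_self_right]
    push_cast
    ring
  rw [t1, t2]
  have t3 : ∑ m ∈ Finset.range (2 * r + 1), x ^ m * d ^ (2 * r + 2 - m) *
      ((2 * r + 2).choose m : ℝ) ≤ 2 ^ (2 * r + 2) * (x ^ (2 * r) * d ^ 2 + d ^ (2 * r + 2)) := by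
    have t4 : ∀ m ∈ Finset.range (2 * r + 1), x ^ m * d ^ (2 * r + 2 - m) *
        ((2 * r + 2).choose m : ℝ) ≤ (x ^ (2 * r) * d ^ 2 + d ^ (2 * r + 2)) *
          ((2 * r + 2).choose m : ℝ) := by
      intro m hm
      rw [Finset.mem_range] at hm
      gcongr
      have e3 : 2 * r + 2 - m = (2 * r - m) + 2 := by omega
      calc x ^ m * d ^ (2 * r + 2 - m) ≤ |x ^ m * d ^ (2 * r + 2 - m)| := le_abs_self _
        _ = (|x| ^ m * |d| ^ (2 * r - m)) * d ^ 2 := by
            rw [e3, pow_add, abs_mul, abs_mul, abs_pow, abs_pow, abs_pow, sq_abs]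
            ring
        _ ≤ (x ^ (2 * r) + d ^ (2 * r)) * d ^ 2 := by
            gcongr
            exact hb m (2 * r - m) (by omega)
        _ = _ := by ring
    refine (Finset.sum_le_sum t4).trans ?_
    rw [← Finset.mul_sum, mul_comm]
    have t5 : ∑ m ∈ Finset.range (2 * r + 1), ((2 * r + 2).choose m : ℝ) ≤ 2 ^ (2 * r + 2) := by
      have h1 := Nat.sum_range_choose (2 * r + 2)
      have h2 : ∑ m ∈ Finset.range (2 * r + 1), (2 * r + 2).choose m ≤
          ∑ m ∈ Finset.range (2 * r + 2 + 1), (2 * r + 2).choose m :=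
        Finset.sum_le_sum_of_subset (Finset.range_mono (by omega))
      rw [h1] at h2
      exact_mod_cast h2
    have t6 : 0 ≤ x ^ (2 * r) * d ^ 2 + d ^ (2 * r + 2) := by
      have a1 : 0 ≤ x ^ (2 * r) := by rw [pow_mul]; positivity
      have a2 : 0 ≤ d ^ (2 * r + 2) := by
        rw [show 2 * r + 2 = 2 * (r + 1) by ring, pow_mul]; positivity
      positivity
    gcongr
  linarith

/-- convexity of even powers -/
lemma convex_even (r : ℕ) (x y : ℝ) : x ^ (2 * r) + (2 * r) * x ^ (2 * r - 1) * (y - x) ≤ y ^ (2 * r) := by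
  have h1 : ConvexOn ℝ univ fun x : ℝ => x ^ (2 * r) := (even_two_mul r).convexOn_pow
  have h2 : ∀ z : ℝ, HasDerivAt (fun x : ℝ => x ^ (2 * r)) (((2 * r : ℕ) : ℝ) * z ^ (2 * r - 1)) z := fun z =>
    hasDerivAt_pow (2 * r) z
  push_cast at h2
  rcases lt_trichotomy x y with h | h | h
  · have h3 := h1.le_slope_of_hasDerivAt (mem_univ x) (mem_univ y) h (h2 x)
    rw [slope_def_field, le_div_iff₀ (by linarith)] at h3
    linarith
  · subst h
    simp
  · have h3 := h1.slope_le_of_hasDerivAt (mem_univ y) (mem_univ x) h (h2 x)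
    rw [slope_def_field, div_le_iff₀ (by linarith)] at h3
    nlinarith

variable {Ω : Type*}

/-- bounded measurable functions -/
structure BM (m : MeasurableSpace Ω) (f : Ω → ℝ) : Prop where
  meas : Measurable[m] f
  bdd : ∃ C, ∀ ω, |f ω| ≤ C

namespace BM

variable {m m' : MeasurableSpace Ω} {f g : Ω → ℝ}

lemma mono (h : BM m f) (hm : m ≤ m') : BM m' f := ⟨h.meas.mono hm le_rfl, h.bdd⟩

lemma const (c : ℝ) : BM m fun _ => c := ⟨measurable_const, ⟨|c|, fun _ => le_rfl⟩⟩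

lemma add (hf : BM m f) (hg : BM m g) : BM m fun ω => f ω + g ω := by
  obtain ⟨A, hA⟩ := hf.bdd
  obtain ⟨B, hB⟩ := hg.bdd
  exact ⟨hf.meas.add hg.meas, ⟨A + B, fun ω => (abs_add_le _ _).trans (add_le_add (hA ω) (hB ω))⟩⟩

lemma sub (hf : BM m f) (hg : BM m g) : BM m fun ω => f ω - g ω := by
  obtain ⟨A, hA⟩ := hf.bdd
  obtain ⟨B, hB⟩ := hg.bdd
  exact ⟨hf.meas.sub hg.meas, ⟨A + B, fun ω => (abs_sub _ _).trans (add_le_add (hA ω) (hB ω))⟩⟩

lemma mul (hf : BM m f) (hg : BM m g) : BM m fun ω => f ω * g ω := by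
  obtain ⟨A, hA⟩ := hf.bdd
  obtain ⟨B, hB⟩ := hg.bdd
  refine ⟨hf.meas.mul hg.meas, ⟨A * B, fun ω => ?_⟩⟩
  rw [abs_mul]
  exact mul_le_mul (hA ω) (hB ω) (abs_nonneg _) ((abs_nonneg _).trans (hA ω))

lemma pow (hf : BM m f) (n : ℕ) : BM m fun ω => f ω ^ n := by
  obtain ⟨A, hA⟩ := hf.bdd
  refine ⟨hf.meas.pow_const n, ⟨A ^ n, fun ω => ?_⟩⟩
  rw [abs_pow]
  exact pow_le_pow_left₀ (abs_nonneg _) (hA ω) n

lemma sum {ι : Type*} (s : Finset ι) {F : ι → Ω → ℝ} (h : ∀ i ∈ s, BM m (F i)) :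
    BM m fun ω => ∑ i ∈ s, F i ω := by
  classical
  induction s using Finset.induction_on with
  | empty => simpa using const (m := m) 0
  | insert a s ha ih =>
    simp only [Finset.sum_insert ha]
    exact (h a (Finset.mem_insert_self _ _)).add (ih fun i hi => h i (Finset.mem_insert_of_mem hi))

end BM

variable {mΩ : MeasurableSpace Ω} {P : Measure Ω}

lemma BM.int {f : Ω → ℝ} [IsFiniteMeasure P] (h : BM mΩ f) : Integrable f P := by
  obtain ⟨C, hC⟩ := h.bdd
  exact Integrable.of_bound h.meas.aestronglyMeasurable C (Eventually.of_forall hC)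

/-- even moments of a martingale with bounded quadratic variation -/
theorem even_moment (r : ℕ) : ∃ C : ℝ, 0 ≤ C ∧ ∀ {Ω : Type*} {mΩ : MeasurableSpace Ω} (P : Measure Ω)
    [IsProbabilityMeasure P] (F : Filtration ℕ mΩ) (D : ℕ → Ω → ℝ)
    (_ : ∀ n, BM (F (n + 1)) (D n))
    (_ : ∀ n (Z : Ω → ℝ), BM (F n) Z → ∫ ω, Z ω * D n ω ∂P = 0) (N : ℕ) (A : ℝ)
    (_ : ∀ ω, ∑ n ∈ Finset.range N, D n ω ^ 2 ≤ A),
    ∫ ω, (∑ n ∈ Finset.range N, D n ω) ^ (2 * (r + 1)) ∂P ≤
      C * A ^ r * ∫ ω, (∑ n ∈ Finset.range N, D n ω) ^ 2 ∂P := by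
  induction r with
  | zero =>
    refine ⟨1, zero_le_one, fun {Ω} {mΩ} P _ F D _ _ N A _ => ?_⟩
    simp
  | succ r ih =>
    obtain ⟨C, hC, ih⟩ := ih
    refine ⟨2 ^ (2 * (r + 1) + 2) * (2 ^ (2 * (r + 1)) * (C + 1) + 1), by positivity,
      fun {Ω} {mΩ} P _ F D hD horth N A hA => ?_⟩
    set s : ℕ := r + 1 with hs
    set S : ℕ → Ω → ℝ := fun n ω => ∑ i ∈ Finset.range n, D i ω with hSdef
    have hA0 : 0 ≤ A := by
      obtain ⟨ω⟩ : Nonempty Ω := by
        by_contra hc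
        rw [not_nonempty_iff] at hc
        have h1 : P univ = 0 := by rw [univ_eq_empty_iff.mpr hc]; exact measure_empty
        rw [measure_univ] at h1
        exact one_ne_zero h1
      exact (Finset.sum_nonneg fun _ _ => sq_nonneg _).trans (hA ω)
    have hDm : ∀ {i n : ℕ}, i < n → BM (F n) (D i) := fun {i n} h => (hD i).mono (F.mono h)
    have hSm : ∀ n, BM (F n) (S n) := fun n =>
      BM.sum _ fun i hi => hDm (Finset.mem_range.mp hi)
    have hSM : ∀ n, BM mΩ (S n) := fun n => (hSm n).mono (F.le n)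
    have hDM : ∀ n, BM mΩ (D n) := fun n => (hD n).mono (F.le _)
    -- E S_N^2 = sum E D^2
    have hsq : ∀ n, ∫ ω, S n ω ^ 2 ∂P = ∑ i ∈ Finset.range n, ∫ ω, D i ω ^ 2 ∂P := by
      intro n
      induction n with
      | zero => simp [hSdef]
      | succ n ihn =>
        rw [Finset.sum_range_succ, ← ihn]
        have e1 : ∀ ω, S (n + 1) ω ^ 2 = (S n ω ^ 2 + D n ω ^ 2) + 2 * (S n ω * D n ω) := by
          intro ω
          simp only [hSdef]
          rw [Finset.sum_range_succ]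
          ring
        simp only [e1]
        have i1 : Integrable (fun ω => S n ω ^ 2 + D n ω ^ 2) P :=
          (((hSM n).pow 2).add ((hDM n).pow 2)).int
        have i2 : Integrable (fun ω => 2 * (S n ω * D n ω)) P :=
          ((BM.const 2).mul ((hSM n).mul (hDM n))).int
        rw [integral_add i1 i2, integral_add ((hSM n).pow 2).int ((hDM n).pow 2).int,
          integral_const_mul, horth n (S n) (hSm n), mul_zero, add_zero]
    have hD2 : ∀ n < N, ∀ ω, D n ω ^ 2 ≤ A := fun n hn ω =>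
      (Finset.single_le_sum (f := fun n => D n ω ^ 2) (fun _ _ => sq_nonneg _)
        (Finset.mem_range.mpr hn)).trans (hA ω)
    have hDpow : ∀ n < N, ∀ ω, D n ω ^ (2 * s + 2) ≤ A ^ s * D n ω ^ 2 := by
      intro n hn ω
      rw [pow_add, pow_mul]
      gcongr
      exact hD2 n hn ω
    -- conditional convexity
    have hconv : ∀ n < N, ∫ ω, S (n + 1) ω ^ (2 * s) * D n ω ^ 2 ∂P ≤
        ∫ ω, S N ω ^ (2 * s) * D n ω ^ 2 ∂P := by
      intro n hn
      have h0 : ∫ ω, (2 * s) * (S (n + 1) ω ^ (2 * s - 1) * D n ω ^ 2) * (S N ω - S (n + 1) ω) ∂P = 0 := by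
        have e1 : ∀ ω, S N ω - S (n + 1) ω = ∑ i ∈ Finset.Ico (n + 1) N, D i ω := by
          intro ω
          simp only [hSdef]
          rw [Finset.sum_Ico_eq_sub _ hn]
        simp only [e1, Finset.mul_sum]
        rw [integral_finsetSum]
        · refine Finset.sum_eq_zero fun i hi => ?_
          rw [Finset.mem_Ico] at hi
          refine horth i _ ?_
          exact ((BM.const (2 * s : ℝ)).mul (((hSm (n + 1)).pow _).mul ((hD n).pow 2))).mono (F.mono hi.1)
        · intro i _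
          exact (((BM.const (2 * s : ℝ)).mul (((hSM (n + 1)).pow _).mul ((hDM n).pow 2))).mul (hDM i)).int
      have h1 : ∀ ω, S (n + 1) ω ^ (2 * s) * D n ω ^ 2 +
          (2 * s) * (S (n + 1) ω ^ (2 * s - 1) * D n ω ^ 2) * (S N ω - S (n + 1) ω) ≤
          S N ω ^ (2 * s) * D n ω ^ 2 := by
        intro ω
        have h2 := mul_le_mul_of_nonneg_right (convex_even s (S (n + 1) ω) (S N ω)) (sq_nonneg (D n ω))
        refine le_trans (le_of_eq ?_) h2
        ring
      have i1 : Integrable (fun ω => S (n + 1) ω ^ (2 * s) * D n ω ^ 2) P :=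
        (((hSM (n + 1)).pow _).mul ((hDM n).pow 2)).int
      have i2 : Integrable (fun ω => (2 * s) * (S (n + 1) ω ^ (2 * s - 1) * D n ω ^ 2) *
          (S N ω - S (n + 1) ω)) P :=
        (((BM.const (2 * s : ℝ)).mul (((hSM (n + 1)).pow _).mul ((hDM n).pow 2))).mul
          ((hSM N).sub (hSM (n + 1)))).int
      have i3 : Integrable (fun ω => S N ω ^ (2 * s) * D n ω ^ 2) P :=
        (((hSM N).pow _).mul ((hDM n).pow 2)).int
      calc _ = ∫ ω, (S (n + 1) ω ^ (2 * s) * D n ω ^ 2 +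
          (2 * s) * (S (n + 1) ω ^ (2 * s - 1) * D n ω ^ 2) * (S N ω - S (n + 1) ω)) ∂P := by
            rw [integral_add i1 i2, h0, add_zero]
        _ ≤ _ := integral_mono (i1.add i2) i3 h1
    -- one step
    have hstep : ∀ n < N, ∫ ω, S (n + 1) ω ^ (2 * s + 2) ∂P ≤ ∫ ω, S n ω ^ (2 * s + 2) ∂P +
        2 ^ (2 * s + 2) * (2 ^ (2 * s) * (∫ ω, S N ω ^ (2 * s) * D n ω ^ 2 ∂P +
          A ^ s * ∫ ω, D n ω ^ 2 ∂P) + A ^ s * ∫ ω, D n ω ^ 2 ∂P) := by
      intro n hn
      have h1 : ∀ ω, S (n + 1) ω ^ (2 * s + 2) ≤ (S n ω ^ (2 * s + 2) +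
          ((2 * s + 2) * S n ω ^ (2 * s + 1)) * D n ω) + 2 ^ (2 * s + 2) *
          ((2 ^ (2 * s) * (S (n + 1) ω ^ (2 * s) * D n ω ^ 2 + A ^ s * D n ω ^ 2)) +
            A ^ s * D n ω ^ 2) := by
        intro ω
        have e1 : S (n + 1) ω = S n ω + D n ω := by
          simp only [hSdef]
          rw [Finset.sum_range_succ]
        have h2 := taylor_even s (S n ω) (D n ω)
        rw [← e1] at h2
        refine h2.trans ?_
        have h3 : S n ω ^ (2 * s) * D n ω ^ 2 ≤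
            2 ^ (2 * s) * (S (n + 1) ω ^ (2 * s) * D n ω ^ 2 + A ^ s * D n ω ^ 2) := by
          have e2 : S n ω = S (n + 1) ω + (-D n ω) := by rw [e1]; ring
          have h4 : S n ω ^ (2 * s) ≤ 2 ^ (2 * s) * (S (n + 1) ω ^ (2 * s) + D n ω ^ (2 * s)) := by
            rw [e2, pow_mul, pow_mul, pow_mul, pow_mul]
            have h5 : (S (n + 1) ω + -D n ω) ^ 2 ≤ 2 * (S (n + 1) ω ^ 2 + D n ω ^ 2) := by
              nlinarith [sq_nonneg (S (n + 1) ω - -D n ω)]
            calc ((S (n + 1) ω + -D n ω) ^ 2) ^ s ≤ (2 * (S (n + 1) ω ^ 2 + D n ω ^ 2)) ^ s := by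
                  gcongr
              _ = 2 ^ s * (S (n + 1) ω ^ 2 + D n ω ^ 2) ^ s := mul_pow _ _ _
              _ ≤ 2 ^ s * (2 ^ (s - 1) * ((S (n + 1) ω ^ 2) ^ s + (D n ω ^ 2) ^ s)) := by
                  gcongr
                  exact add_pow_le (by positivity) (by positivity) s
              _ ≤ 2 ^ s * (2 ^ s * ((S (n + 1) ω ^ 2) ^ s + (D n ω ^ 2) ^ s)) := by
                  gcongr
                  · norm_num
                  · omega
              _ = (2 ^ 2) ^ s * ((S (n + 1) ω ^ 2) ^ s + (D n ω ^ 2) ^ s) := by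
                  rw [← mul_assoc, ← mul_pow]
                  norm_num
          calc S n ω ^ (2 * s) * D n ω ^ 2 ≤
                2 ^ (2 * s) * (S (n + 1) ω ^ (2 * s) + D n ω ^ (2 * s)) * D n ω ^ 2 := by gcongr
            _ = 2 ^ (2 * s) * (S (n + 1) ω ^ (2 * s) * D n ω ^ 2 + D n ω ^ (2 * s + 2)) := by ring
            _ ≤ _ := by
                gcongr
                exact hDpow n hn ω
        have h4 := hDpow n hn ω
        have h5 : (0:ℝ) < 2 ^ (2 * s + 2) := by positivity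
        nlinarith [mul_le_mul_of_nonneg_left (add_le_add h3 h4) h5.le]
      have b1 : BM mΩ fun ω => S (n + 1) ω ^ (2 * s + 2) := (hSM (n + 1)).pow _
      have b2 : BM mΩ fun ω => S n ω ^ (2 * s + 2) := (hSM n).pow _
      have b3 : BM mΩ fun ω => ((2 * s + 2) * S n ω ^ (2 * s + 1)) * D n ω :=
        ((BM.const (2 * s + 2 : ℝ)).mul ((hSM n).pow _)).mul (hDM n)
      have b4 : BM mΩ fun ω => S (n + 1) ω ^ (2 * s) * D n ω ^ 2 :=
        ((hSM (n + 1)).pow _).mul ((hDM n).pow 2)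
      have b5 : BM mΩ fun ω => A ^ s * D n ω ^ 2 := (BM.const (A ^ s)).mul ((hDM n).pow 2)
      have b6 : BM mΩ fun ω => 2 ^ (2 * s) * (S (n + 1) ω ^ (2 * s) * D n ω ^ 2 + A ^ s * D n ω ^ 2) :=
        (BM.const (2 ^ (2 * s) : ℝ)).mul (b4.add b5)
      have b7 := (BM.const (m := mΩ) (2 ^ (2 * s + 2) : ℝ)).mul (b6.add b5)
      have h0 : ∫ ω, ((2 * s + 2) * S n ω ^ (2 * s + 1)) * D n ω ∂P = 0 :=
        horth n _ ((BM.const (2 * s + 2 : ℝ)).mul ((hSm n).pow _))
      calc ∫ ω, S (n + 1) ω ^ (2 * s + 2) ∂P ≤ ∫ ω, ((S n ω ^ (2 * s + 2) +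
          ((2 * s + 2) * S n ω ^ (2 * s + 1)) * D n ω) + 2 ^ (2 * s + 2) *
          ((2 ^ (2 * s) * (S (n + 1) ω ^ (2 * s) * D n ω ^ 2 + A ^ s * D n ω ^ 2)) +
            A ^ s * D n ω ^ 2)) ∂P := integral_mono b1.int ((b2.add b3).add b7).int h1
        _ = ∫ ω, S n ω ^ (2 * s + 2) ∂P + 2 ^ (2 * s + 2) * (2 ^ (2 * s) *
            (∫ ω, S (n + 1) ω ^ (2 * s) * D n ω ^ 2 ∂P + A ^ s * ∫ ω, D n ω ^ 2 ∂P) +
              A ^ s * ∫ ω, D n ω ^ 2 ∂P) := by
            rw [integral_add (b2.add b3).int b7.int, integral_add b2.int b3.int, h0, add_zero,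
              integral_const_mul, integral_add b6.int b5.int, integral_const_mul,
              integral_add b4.int b5.int, integral_const_mul]
        _ ≤ _ := by
            have h7 := hconv n hn
            have h8 : (0:ℝ) ≤ 2 ^ (2 * s + 2) * 2 ^ (2 * s) := by positivity
            have h9 := mul_le_mul_of_nonneg_left h7 h8
            linarith
    -- telescoping
    have htel : ∀ n ≤ N, ∫ ω, S n ω ^ (2 * s + 2) ∂P ≤ ∑ i ∈ Finset.range n,
        2 ^ (2 * s + 2) * (2 ^ (2 * s) * (∫ ω, S N ω ^ (2 * s) * D i ω ^ 2 ∂P +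
          A ^ s * ∫ ω, D i ω ^ 2 ∂P) + A ^ s * ∫ ω, D i ω ^ 2 ∂P) := by
      intro n hn
      induction n with
      | zero => simp [hSdef]
      | succ n ihn =>
        rw [Finset.sum_range_succ]
        have := hstep n (by omega)
        have := ihn (by omega)
        linarith
    have hlast := htel N le_rfl
    have hsumN : ∑ i ∈ Finset.range N, ∫ ω, S N ω ^ (2 * s) * D i ω ^ 2 ∂P ≤
        A * (C * A ^ r * ∫ ω, S N ω ^ 2 ∂P) := by
      rw [← integral_finsetSum _ fun i _ => (((hSM N).pow _).mul ((hDM i).pow 2)).int]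
      calc ∫ ω, ∑ i ∈ Finset.range N, S N ω ^ (2 * s) * D i ω ^ 2 ∂P ≤ ∫ ω, A * S N ω ^ (2 * s) ∂P := by
            refine integral_mono (BM.sum _ fun i _ => ((hSM N).pow _).mul ((hDM i).pow 2)).int
              ((BM.const A).mul ((hSM N).pow _)).int fun ω => ?_
            simp only
            rw [← Finset.mul_sum, mul_comm]
            have : 0 ≤ S N ω ^ (2 * s) := by rw [pow_mul]; positivity
            exact mul_le_mul_of_nonneg_right (hA ω) this
        _ = A * ∫ ω, S N ω ^ (2 * s) ∂P := integral_const_mul _ _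
        _ ≤ _ := by
            gcongr
            exact ih P F D hD horth N A hA
    have e9 : 2 * (s + 1) = 2 * s + 2 := by ring
    rw [e9]
    have hfin : ∑ i ∈ Finset.range N, 2 ^ (2 * s + 2) * (2 ^ (2 * s) *
        (∫ ω, S N ω ^ (2 * s) * D i ω ^ 2 ∂P + A ^ s * ∫ ω, D i ω ^ 2 ∂P) +
          A ^ s * ∫ ω, D i ω ^ 2 ∂P) = 2 ^ (2 * s + 2) * (2 ^ (2 * s) *
        (∑ i ∈ Finset.range N, ∫ ω, S N ω ^ (2 * s) * D i ω ^ 2 ∂P + A ^ s * ∫ ω, S N ω ^ 2 ∂P) +
          A ^ s * ∫ ω, S N ω ^ 2 ∂P) := by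
      rw [hsq N]
      simp only [Finset.mul_sum, Finset.sum_add_distrib, mul_add]
    rw [hfin] at hlast
    refine hlast.trans ?_
    have hAs : A ^ s = A * A ^ r := by rw [hs, pow_succ]; ring
    have hI0 : 0 ≤ ∫ ω, S N ω ^ 2 ∂P := integral_nonneg fun _ => sq_nonneg _
    calc _ ≤ 2 ^ (2 * s + 2) * (2 ^ (2 * s) * (A * (C * A ^ r * ∫ ω, S N ω ^ 2 ∂P) +
          A ^ s * ∫ ω, S N ω ^ 2 ∂P) + A ^ s * ∫ ω, S N ω ^ 2 ∂P) := by gcongr
      _ = _ := by
          rw [hAs]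
          ring

end Pool.Agent.V5helper63.RH
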