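import Mathlib
import Pool.Agent.V5helper63.RH.R3
set_option autoImplicit false

/-! Moments of real order at least two. -/

namespace Pool.Agent.V5helper63.RH

open MeasureTheory Set ProbabilityTheory Filter Topology
open scoped ENNReal NNReal

lemma orth_of_condExp {Ω : Type*} {m mΩ : MeasurableSpace Ω} (hm : m ≤ mΩ) {P : Measure Ω}
    [IsProbabilityMeasure P] {D Z : Ω → ℝ} (hD : BM mΩ D) (h0 : P[D | m] =ᵐ[P] 0) (hZ : BM m Z) :
    ∫ ω, Z ω * D ω ∂P = 0 := by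
  have hprod : Integrable (fun ω => Z ω * D ω) P := ((hZ.mono hm).mul hD).int
  rw [← integral_condExp hm]
  have h1 := condExp_mul_of_stronglyMeasurable_left (μ := P) hZ.meas.stronglyMeasurable hprod hD.int
  have h2 : P[fun ω => Z ω * D ω | m] =ᵐ[P] 0 := by
    filter_upwards [h1, h0] with ω h3 h4
    have h5 : P[fun ω => Z ω * D ω | m] ω = (Z * P[D | m]) ω := h3
    rw [h5, Pi.mul_apply, h4]
    simp
  rw [integral_congr_ae h2]
  simp

theorem moment_q (q : ℝ) (hq : 2 ≤ q) : ∃ C : ℝ≥0∞, C ≠ ∞ ∧ ∀ {Ω : Type*} {mΩ : MeasurableSpace Ω}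
    (P : Measure Ω) [IsProbabilityMeasure P] (F : Filtration ℕ mΩ) (D : ℕ → Ω → ℝ)
    (_ : ∀ n, BM (F (n + 1)) (D n))
    (_ : ∀ n (Z : Ω → ℝ), BM (F n) Z → ∫ ω, Z ω * D n ω ∂P = 0) (N : ℕ) (A : ℝ) (_ : 0 < A)
    (_ : ∀ ω, ∑ n ∈ Finset.range N, D n ω ^ 2 ≤ A),
    ∫⁻ ω, ‖∑ n ∈ Finset.range N, D n ω‖ₑ ^ q ∂P ≤
      C * ENNReal.ofReal (A ^ ((q - 2) / 2)) * ∫⁻ ω, ‖∑ n ∈ Finset.range N, D n ω‖ₑ ^ 2 ∂P := by
  obtain ⟨r, hr⟩ := exists_nat_ge ((q - 2) / 2)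
  obtain ⟨C, hC, hmom⟩ := even_moment r
  refine ⟨ENNReal.ofReal (1 + C), ENNReal.ofReal_ne_top,
    fun {Ω} {mΩ} P _ F D hD horth N A hA0 hA => ?_⟩
  have hm := hmom P F D hD horth N A hA
  have hDM : ∀ n, BM mΩ (D n) := fun n => (hD n).mono (F.le _)
  set S : Ω → ℝ := fun ω => ∑ n ∈ Finset.range N, D n ω with hS
  have hSM : BM mΩ S := BM.sum _ fun i _ => hDM i
  have hpt : ∀ x : ℝ, |x| ^ q ≤ A ^ ((q - 2) / 2) * (x ^ 2 + (A ^ r)⁻¹ * x ^ (2 * (r + 1))) := by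
    intro x
    rcases eq_or_ne x 0 with hx | hx
    · subst hx
      rw [abs_zero, Real.zero_rpow (by linarith)]
      positivity
    have hx0 : 0 < |x| := abs_pos.mpr hx
    have hsA : 0 < Real.sqrt A := Real.sqrt_pos.mpr hA0
    set y : ℝ := |x| / Real.sqrt A with hy
    have hy0 : 0 < y := by positivity
    have h1 : y ^ (q - 2) ≤ 1 + y ^ (2 * r) := by
      rcases le_or_gt y 1 with h | h
      · have : y ^ (q - 2) ≤ 1 := Real.rpow_le_one hy0.le h (by linarith)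
        have h2 : 0 ≤ y ^ (2 * r) := by positivity
        linarith
      · have h2 : y ^ (q - 2) ≤ y ^ ((2 * r : ℕ) : ℝ) := by
          apply Real.rpow_le_rpow_of_exponent_le h.le
          push_cast
          linarith
        rw [Real.rpow_natCast] at h2
        linarith
    have e1 : |x| ^ (q - 2) = A ^ ((q - 2) / 2) * y ^ (q - 2) := by
      have e2 : A ^ ((q - 2) / 2) = Real.sqrt A ^ (q - 2) := by
        rw [Real.sqrt_eq_rpow, ← Real.rpow_mul hA0.le]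
        congr 1
        ring
      rw [e2, ← Real.mul_rpow hsA.le hy0.le, hy, mul_div_cancel₀ _ hsA.ne']
    have e3 : y ^ (2 * r) = (A ^ r)⁻¹ * x ^ (2 * r) := by
      rw [hy, div_pow, pow_mul (Real.sqrt A), Real.sq_sqrt hA0.le, pow_mul, sq_abs, ← pow_mul]
      field_simp
    have e4 : |x| ^ q = |x| ^ (q - 2) * x ^ 2 := by
      rw [← sq_abs x, ← Real.rpow_natCast |x| 2, ← Real.rpow_add hx0]
      congr 1
      push_cast
      ring
    rw [e4, e1]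
    calc A ^ ((q - 2) / 2) * y ^ (q - 2) * x ^ 2 ≤ A ^ ((q - 2) / 2) * (1 + y ^ (2 * r)) * x ^ 2 := by
          gcongr
      _ = _ := by
          rw [e3]
          ring
  have i1 : Integrable (fun ω => S ω ^ 2) P := (hSM.pow 2).int
  have i2 : Integrable (fun ω => (A ^ r)⁻¹ * S ω ^ (2 * (r + 1))) P :=
    ((BM.const ((A ^ r)⁻¹)).mul (hSM.pow _)).int
  have i3 : Integrable (fun ω => S ω ^ 2 + (A ^ r)⁻¹ * S ω ^ (2 * (r + 1))) P := i1.add i2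
  have hle : ∫ ω, (S ω ^ 2 + (A ^ r)⁻¹ * S ω ^ (2 * (r + 1))) ∂P ≤ (1 + C) * ∫ ω, S ω ^ 2 ∂P := by
    rw [integral_add i1 i2, integral_const_mul]
    have h2 : (A ^ r)⁻¹ * ∫ ω, S ω ^ (2 * (r + 1)) ∂P ≤ C * ∫ ω, S ω ^ 2 ∂P := by
      rw [inv_mul_le_iff₀ (by positivity)]
      calc _ ≤ C * A ^ r * ∫ ω, S ω ^ 2 ∂P := hm
        _ = _ := by ring
    linarith
  have hnn : ∀ ω, 0 ≤ S ω ^ 2 + (A ^ r)⁻¹ * S ω ^ (2 * (r + 1)) := by
    intro ω
    have : 0 ≤ S ω ^ (2 * (r + 1)) := by rw [pow_mul]; positivity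
    positivity
  calc ∫⁻ ω, ‖S ω‖ₑ ^ q ∂P ≤ ∫⁻ ω, ENNReal.ofReal (A ^ ((q - 2) / 2)) *
        ENNReal.ofReal (S ω ^ 2 + (A ^ r)⁻¹ * S ω ^ (2 * (r + 1))) ∂P := by
        refine lintegral_mono fun ω => ?_
        rw [← ofReal_norm, ENNReal.ofReal_rpow_of_nonneg (norm_nonneg _) (by linarith),
          ← ENNReal.ofReal_mul (by positivity), Real.norm_eq_abs]
        exact ENNReal.ofReal_le_ofReal (hpt (S ω))
    _ = ENNReal.ofReal (A ^ ((q - 2) / 2)) *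
        ENNReal.ofReal (∫ ω, (S ω ^ 2 + (A ^ r)⁻¹ * S ω ^ (2 * (r + 1))) ∂P) := by
        rw [lintegral_const_mul' _ _ ENNReal.ofReal_ne_top,
          ofReal_integral_eq_lintegral_ofReal i3 (Eventually.of_forall hnn)]
    _ ≤ ENNReal.ofReal (A ^ ((q - 2) / 2)) * ENNReal.ofReal ((1 + C) * ∫ ω, S ω ^ 2 ∂P) := by
        gcongr
    _ = ENNReal.ofReal (1 + C) * ENNReal.ofReal (A ^ ((q - 2) / 2)) * ∫⁻ ω, ‖S ω‖ₑ ^ 2 ∂P := by
        rw [ENNReal.ofReal_mul (by positivity), ofReal_integral_eq_lintegral_ofReal i1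
          (Eventually.of_forall fun ω => sq_nonneg _)]
        have e5 : ∀ ω, ENNReal.ofReal (S ω ^ 2) = ‖S ω‖ₑ ^ 2 := by
          intro ω
          rw [← ofReal_norm, ← ENNReal.ofReal_pow (norm_nonneg _), Real.norm_eq_abs, sq_abs]
        rw [lintegral_congr e5]
        ring

/-- complex martingale differences -/
theorem moment_c (q : ℝ) (hq : 2 ≤ q) : ∃ C : ℝ≥0∞, C ≠ ∞ ∧ ∀ {Ω : Type*} {mΩ : MeasurableSpace Ω}
    (P : Measure Ω) [IsProbabilityMeasure P] (F : Filtration ℕ mΩ) (D : ℕ → Ω → ℂ)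
    (_ : ∀ n, Measurable[F (n + 1)] (D n)) (_ : ∀ n, ∃ c : ℝ, ∀ ω, ‖D n ω‖ ≤ c)
    (_ : ∀ n, P[D n | F n] =ᵐ[P] 0) (N : ℕ) (A : ℝ) (_ : 0 < A)
    (_ : ∀ ω, ∑ n ∈ Finset.range N, ‖D n ω‖ ^ 2 ≤ A),
    ∫⁻ ω, ‖∑ n ∈ Finset.range N, D n ω‖ₑ ^ q ∂P ≤
      C * ENNReal.ofReal (A ^ ((q - 2) / 2)) * ∫⁻ ω, ‖∑ n ∈ Finset.range N, D n ω‖ₑ ^ 2 ∂P := by
  obtain ⟨C, hC, hmom⟩ := moment_q q hq
  refine ⟨2 ^ (q - 1) * (2 * C), ?_, fun {Ω} {mΩ} P _ F D hDm hDb hD N A hA0 hA => ?_⟩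
  · refine ENNReal.mul_ne_top (ENNReal.rpow_ne_top_of_nonneg (by linarith) (by norm_num))
      (ENNReal.mul_ne_top (by norm_num) hC)
  have key : ∀ L : ℂ →L[ℝ] ℝ, (∀ z, |L z| ≤ ‖z‖) →
      ∫⁻ ω, ‖L (∑ n ∈ Finset.range N, D n ω)‖ₑ ^ q ∂P ≤
      C * ENNReal.ofReal (A ^ ((q - 2) / 2)) * ∫⁻ ω, ‖∑ n ∈ Finset.range N, D n ω‖ₑ ^ 2 ∂P := by
    intro L hL
    have hBM : ∀ n, BM (F (n + 1)) fun ω => L (D n ω) := by
      intro n
      obtain ⟨c, hc⟩ := hDb n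
      exact ⟨L.continuous.measurable.comp (hDm n), ⟨c, fun ω => (hL _).trans (hc ω)⟩⟩
    have h1 := hmom P F (fun n ω => L (D n ω)) hBM (fun n Z hZ => ?_) N A hA0 (fun ω => ?_)
    · have e1 : ∀ ω, L (∑ n ∈ Finset.range N, D n ω) = ∑ n ∈ Finset.range N, L (D n ω) := fun ω =>
        map_sum L _ _
      simp only [e1]
      refine h1.trans ?_
      gcongr with ω
      rw [← map_sum, ← ofReal_norm, ← ofReal_norm]
      exact ENNReal.ofReal_le_ofReal (hL _)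
    · refine orth_of_condExp (F.le n) ((hBM n).mono (F.le _)) ?_ hZ
      obtain ⟨c, hc⟩ := hDb n
      have hi : Integrable (D n) P := Integrable.of_bound
        (((hDm n).mono (F.le _) le_rfl).aestronglyMeasurable) c (Eventually.of_forall hc)
      have h2 : P[fun ω => L (D n ω) | F n] =ᵐ[P] fun ω => L (P[D n | F n] ω) :=
        (L.comp_condExp_comm (m := F n) hi).symm
      filter_upwards [h2, hD n] with ω h3 h4
      rw [h3, h4]
      simp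
    · refine le_trans (Finset.sum_le_sum fun n _ => ?_) (hA ω)
      rw [← sq_abs]
      exact pow_le_pow_left₀ (abs_nonneg _) (hL _) 2
  have hq1 : 1 ≤ q := by linarith
  have hq0 : 0 < q := by linarith
  have hSm : Measurable fun ω => ∑ n ∈ Finset.range N, D n ω :=
    Finset.measurable_fun_sum _ fun n _ => (hDm n).mono (F.le _) le_rfl
  set S : Ω → ℂ := fun ω => ∑ n ∈ Finset.range N, D n ω with hS
  calc ∫⁻ ω, ‖S ω‖ₑ ^ q ∂P ≤ ∫⁻ ω, 2 ^ (q - 1) * (‖(S ω).re‖ₑ ^ q + ‖(S ω).im‖ₑ ^ q) ∂P := by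
        refine lintegral_mono fun ω => ?_
        have e1 : ‖S ω‖ₑ ≤ ‖(S ω).re‖ₑ + ‖(S ω).im‖ₑ := by
          rw [← ofReal_norm, ← ofReal_norm, ← ofReal_norm,
            ← ENNReal.ofReal_add (norm_nonneg _) (norm_nonneg _)]
          exact ENNReal.ofReal_le_ofReal (Complex.norm_le_abs_re_add_abs_im _)
        exact (ENNReal.rpow_le_rpow e1 hq0.le).trans (ENNReal.rpow_add_le_mul_rpow_add_rpow _ _ hq1)
    _ = 2 ^ (q - 1) * (∫⁻ ω, ‖(S ω).re‖ₑ ^ q ∂P + ∫⁻ ω, ‖(S ω).im‖ₑ ^ q ∂P) := by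
        have m1 : Measurable fun ω => ‖(S ω).re‖ₑ ^ q :=
          (Complex.measurable_re.comp hSm).enorm.pow_const q
        have m2 : Measurable fun ω => ‖(S ω).im‖ₑ ^ q :=
          (Complex.measurable_im.comp hSm).enorm.pow_const q
        have m3 : Measurable fun ω => ‖(S ω).re‖ₑ ^ q + ‖(S ω).im‖ₑ ^ q := m1.add m2
        rw [lintegral_const_mul _ m3, lintegral_add_left m1]
    _ ≤ 2 ^ (q - 1) * (C * ENNReal.ofReal (A ^ ((q - 2) / 2)) * ∫⁻ ω, ‖S ω‖ₑ ^ 2 ∂P +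
          C * ENNReal.ofReal (A ^ ((q - 2) / 2)) * ∫⁻ ω, ‖S ω‖ₑ ^ 2 ∂P) := by
        gcongr
        · exact key Complex.reCLM fun z => Complex.abs_re_le_norm z
        · exact key Complex.imCLM fun z => Complex.abs_im_le_norm z
    _ = _ := by
        rw [← two_mul]
        ring

end Pool.Agent.V5helper63.RH
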