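import Mathlib
set_option autoImplicit false

/-! Functions on the unit cube with absolutely summable monomial expansions, and the decay of their
Fourier transforms. -/

namespace Pool.Agent.V5helper63.RH

open MeasureTheory Set Complex
open scoped ENNReal NNReal

/-- the weight `1/(1+|θ|)` -/
noncomputable def w (θ : ℝ) : ℝ := (1 + |θ|)⁻¹

lemma w_pos (θ : ℝ) : 0 < w θ := by unfold w; positivity

lemma w_le (θ : ℝ) : w θ ≤ 1 := by
  unfold w
  exact inv_le_one_of_one_le₀ (by linarith [abs_nonneg θ])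

lemma mono_aux (θ : ℝ) (hθ : θ ≠ 0) (a : ℕ) :
    ‖∫ u in (0:ℝ)..1, ((u : ℂ) ^ a) * cexp (-(I * (θ * u)))‖ ≤ 2 / |θ| := by
  have hI : (-(I * θ) : ℂ) ≠ 0 := by
    simp [hθ]
  have h1 : ∀ u : ℝ, HasDerivAt (fun u : ℝ => cexp (-(I * (θ * u))) / (-(I * θ)))
      (cexp (-(I * (θ * u)))) u := by
    intro u
    have h2 : HasDerivAt (fun u : ℝ => -(I * ((θ : ℂ) * (u : ℂ)))) (-(I * θ)) u := by
      have h3 := (((Complex.ofRealCLM.hasDerivAt (x := u)).const_mul (θ : ℂ)).const_mul I).neg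
      have h4 : -(I * ((θ : ℂ) * Complex.ofRealCLM 1)) = -(I * θ) := by simp
      rw [h4] at h3
      exact h3
    have h4 := (h2.cexp).div_const (-(I * θ))
    rw [mul_div_assoc, div_self hI, mul_one] at h4
    exact h4
  have hn : ∀ u : ℝ, ‖cexp (-(I * (θ * u)))‖ = 1 := by
    intro u
    have : (-(I * ((θ : ℂ) * u)) : ℂ) = ((-(θ * u) : ℝ) : ℂ) * I := by push_cast; ring
    rw [this, Complex.norm_exp_ofReal_mul_I]
  have hn2 : ‖(-(I * θ) : ℂ)‖ = |θ| := by simp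
  have hθ' : 0 < |θ| := abs_pos.mpr hθ
  rcases Nat.eq_zero_or_pos a with rfl | ha
  · simp only [pow_zero, one_mul]
    rw [intervalIntegral.integral_eq_sub_of_hasDerivAt (fun u _ => h1 u)
      (Continuous.intervalIntegrable (by fun_prop) _ _)]
    refine (norm_sub_le _ _).trans ?_
    rw [norm_div, norm_div, hn, hn, hn2]
    apply le_of_eq
    ring
  · have hp : ∀ u : ℝ, HasDerivAt (fun u : ℝ => (u : ℂ) ^ a) (a * (u : ℂ) ^ (a - 1)) u := by
      intro u
      have := (hasDerivAt_pow a (u : ℂ)).comp_ofReal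
      exact this
    rw [intervalIntegral.integral_mul_deriv_eq_deriv_mul (fun u _ => hp u) (fun u _ => h1 u)
      (Continuous.intervalIntegrable (by fun_prop) _ _)
      (Continuous.intervalIntegrable (by fun_prop) _ _)]
    have e0 : (((0 : ℝ) : ℂ)) ^ a = 0 := by
      simp [ha.ne']
    rw [e0]
    have b1 : ‖(((1 : ℝ) : ℂ)) ^ a * (cexp (-(I * (θ * (1 : ℝ)))) / (-(I * θ))) -
        0 * (cexp (-(I * (θ * (0 : ℝ)))) / (-(I * θ)))‖ = 1 / |θ| := by
      rw [zero_mul, sub_zero, norm_mul, norm_div, hn, hn2]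
      simp
    have b2 : ‖∫ u in (0:ℝ)..1, (a * (u : ℂ) ^ (a - 1)) * (cexp (-(I * (θ * u))) / (-(I * θ)))‖ ≤
        1 / |θ| := by
      have b3 : ∫ u in (0:ℝ)..1, (a * u ^ (a - 1)) / |θ| = 1 / |θ| := by
        rw [intervalIntegral.integral_div, intervalIntegral.integral_const_mul, integral_pow]
        have : (a - 1 + 1 : ℕ) = a := by omega
        rw [this]
        have ha' : (a : ℝ) ≠ 0 := by positivity
        have : ((a - 1 : ℕ) : ℝ) + 1 = a := by
          rw [Nat.cast_sub ha]; simp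
        rw [this, one_pow, zero_pow ha.ne']
        field_simp
        simp
      rw [← b3]
      refine intervalIntegral.norm_integral_le_of_norm_le zero_le_one ?_
        (Continuous.intervalIntegrable (by fun_prop) _ _)
      refine Filter.Eventually.of_forall fun u hu => ?_
      rw [norm_mul, norm_mul, norm_div, hn, hn2, norm_pow, Complex.norm_natCast,
        Complex.norm_of_nonneg hu.1.le]
      apply le_of_eq
      ring
    refine (norm_sub_le _ _).trans ?_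
    rw [b1]
    calc 1 / |θ| + _ ≤ 1 / |θ| + 1 / |θ| := by gcongr
      _ = 2 / |θ| := by ring

/-- 1D bound -/
lemma mono (θ : ℝ) (a : ℕ) :
    ‖∫ u in Ico (0:ℝ) 1, ((u : ℂ) ^ a) * cexp (-(I * (θ * u)))‖ ≤ 3 * w θ := by
  rw [← MeasureTheory.integral_Icc_eq_integral_Ico, MeasureTheory.integral_Icc_eq_integral_Ioc,
    ← intervalIntegral.integral_of_le zero_le_one]
  have hn : ∀ u : ℝ, ‖cexp (-(I * (θ * u)))‖ = 1 := by
    intro u
    have : (-(I * ((θ : ℂ) * u)) : ℂ) = ((-(θ * u) : ℝ) : ℂ) * I := by push_cast; ring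
    rw [this, Complex.norm_exp_ofReal_mul_I]
  have h1 : ‖∫ u in (0:ℝ)..1, ((u : ℂ) ^ a) * cexp (-(I * (θ * u)))‖ ≤ 1 := by
    have := intervalIntegral.norm_integral_le_of_norm_le_const (a := 0) (b := 1) (C := 1)
      (f := fun u : ℝ => ((u : ℂ) ^ a) * cexp (-(I * (θ * u)))) (fun u hu => ?_)
    · simpa using this
    · rw [uIoc_of_le zero_le_one] at hu
      rw [norm_mul, hn, norm_pow, Complex.norm_of_nonneg hu.1.le, mul_one]
      exact pow_le_one₀ hu.1.le hu.2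
  unfold w
  rcases le_or_gt |θ| 2 with h | h
  · refine h1.trans ?_
    rw [← div_eq_mul_inv, le_div_iff₀ (by positivity)]
    linarith
  · have hθ : θ ≠ 0 := by
      intro h0
      rw [h0] at h
      simp at h
      linarith
    refine (mono_aux θ hθ a).trans ?_
    rw [← div_eq_mul_inv, div_le_div_iff₀ (by linarith) (by positivity)]
    linarith

/-- Lebesgue measure on the unit cube -/
noncomputable def U (k : ℕ) : Measure (Fin k → ℝ) :=
  Measure.pi fun _ => volume.restrict (Ico (0:ℝ) 1)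

instance (k : ℕ) : IsProbabilityMeasure (U k) := by
  unfold U
  have : IsProbabilityMeasure (volume.restrict (Ico (0:ℝ) 1)) := ⟨by simp⟩
  infer_instance

lemma U_eq (k : ℕ) : U k = volume.restrict (Set.pi univ fun _ : Fin k => Ico (0:ℝ) 1) := by
  unfold U
  rw [volume_pi, Measure.restrict_pi_pi]

lemma U_ae (k : ℕ) : ∀ᵐ u ∂(U k), ∀ i, u i ∈ Ico (0:ℝ) 1 := by
  rw [U_eq]
  filter_upwards [ae_restrict_mem (MeasurableSet.univ_pi fun _ => measurableSet_Ico)] with u hu i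
  exact hu i (mem_univ i)

lemma monoK {k : ℕ} (θ : Fin k → ℝ) (a : Fin k → ℕ) :
    ‖∫ u, (∏ i, (u i : ℂ) ^ a i) * cexp (-(I * (∑ i, θ i * u i : ℝ))) ∂(U k)‖ ≤
      3 ^ k * ∏ i, w (θ i) := by
  have e1 : ∀ u : Fin k → ℝ, (∏ i, (u i : ℂ) ^ a i) * cexp (-(I * (∑ i, θ i * u i : ℝ))) =
      ∏ i, (((u i : ℂ) ^ a i) * cexp (-(I * (θ i * u i)))) := by
    intro u
    rw [Finset.prod_mul_distrib, ← Complex.exp_sum]
    congr 2
    push_cast
    rw [Finset.mul_sum, Finset.sum_neg_distrib]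
  rw [integral_congr_ae (Filter.Eventually.of_forall e1)]
  unfold U
  rw [integral_fintype_prod_eq_prod
    (f := fun i (u : ℝ) => ((u : ℂ) ^ a i) * cexp (-(I * (θ i * u)))), norm_prod]
  calc ∏ i, ‖∫ u in Ico (0:ℝ) 1, ((u : ℂ) ^ a i) * cexp (-(I * (θ i * u)))‖
      ≤ ∏ i, (3 * w (θ i)) := Finset.prod_le_prod (fun i _ => norm_nonneg _) fun i _ => mono _ _
    _ = 3 ^ k * ∏ i, w (θ i) := by
      rw [Finset.prod_mul_distrib, Finset.prod_const, Finset.card_univ, Fintype.card_fin]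

/-- `F` has an absolutely summable monomial expansion on the unit cube, of total mass at most `B` -/
def Rep (k : ℕ) (B : ℝ) (F : (Fin k → ℝ) → ℂ) : Prop :=
  ∃ (ι : Type) (_ : Countable ι) (b : ι → ℂ) (a : ι → Fin k → ℕ),
    Summable (fun n => ‖b n‖) ∧ ∑' n, ‖b n‖ ≤ B ∧
    ∀ u : Fin k → ℝ, (∀ i, u i ∈ Ico (0:ℝ) 1) → F u = ∑' n, b n * ∏ i, (u i : ℂ) ^ a n i

lemma prod_le {k : ℕ} {u : Fin k → ℝ} (hu : ∀ i, u i ∈ Ico (0:ℝ) 1) (a : Fin k → ℕ) :
    ‖∏ i, (u i : ℂ) ^ a i‖ ≤ 1 := by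
  rw [norm_prod]
  refine Finset.prod_le_one (fun i _ => norm_nonneg _) fun i _ => ?_
  rw [norm_pow, Complex.norm_of_nonneg (hu i).1]
  exact pow_le_one₀ (hu i).1 (hu i).2.le

variable {k : ℕ}

lemma Rep.mono {B B' : ℝ} {F : (Fin k → ℝ) → ℂ} (h : Rep k B F) (hB : B ≤ B') : Rep k B' F := by
  obtain ⟨ι, hι, b, a, h1, h2, h3⟩ := h
  exact ⟨ι, hι, b, a, h1, h2.trans hB, h3⟩

lemma Rep.congr {B : ℝ} {F G : (Fin k → ℝ) → ℂ} (h : Rep k B F)
    (hFG : ∀ u : Fin k → ℝ, (∀ i, u i ∈ Ico (0:ℝ) 1) → G u = F u) : Rep k B G := by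
  obtain ⟨ι, hι, b, a, h1, h2, h3⟩ := h
  exact ⟨ι, hι, b, a, h1, h2, fun u hu => (hFG u hu).trans (h3 u hu)⟩

lemma Rep.nonneg {B : ℝ} {F : (Fin k → ℝ) → ℂ} (h : Rep k B F) : 0 ≤ B := by
  obtain ⟨ι, hι, b, a, h1, h2, h3⟩ := h
  exact (tsum_nonneg fun _ => norm_nonneg _).trans h2

/-- decay -/
theorem Rep.decay {B : ℝ} {F : (Fin k → ℝ) → ℂ} (h : Rep k B F) (θ : Fin k → ℝ) :
    ‖∫ u, F u * cexp (-(I * (∑ i, θ i * u i : ℝ))) ∂(U k)‖ ≤ B * (3 ^ k * ∏ i, w (θ i)) := by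
  obtain ⟨ι, hι, b, a, h1, h2, h3⟩ := h
  have hn : ∀ u : Fin k → ℝ, ‖cexp (-(I * (∑ i, θ i * u i : ℝ)))‖ = 1 := by
    intro u
    have : (-(I * ((∑ i, θ i * u i : ℝ) : ℂ)) : ℂ) = ((-(∑ i, θ i * u i) : ℝ) : ℂ) * I := by
      push_cast; ring
    rw [this, Complex.norm_exp_ofReal_mul_I]
  have e1 : ∫ u, F u * cexp (-(I * (∑ i, θ i * u i : ℝ))) ∂(U k) =
      ∫ u, ∑' n, (b n * ((∏ i, (u i : ℂ) ^ a n i) * cexp (-(I * (∑ i, θ i * u i : ℝ)))))
        ∂(U k) := by
    refine integral_congr_ae ?_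
    filter_upwards [U_ae k] with u hu
    rw [h3 u hu, ← tsum_mul_right]
    simp only [mul_assoc]
  rw [e1]
  have hterm : ∀ n, Integrable (fun u : Fin k → ℝ =>
      b n * ((∏ i, (u i : ℂ) ^ a n i) * cexp (-(I * (∑ i, θ i * u i : ℝ))))) (U k) := by
    intro n
    refine Integrable.of_bound (C := ‖b n‖) (Continuous.aestronglyMeasurable (by fun_prop)) ?_
    filter_upwards [U_ae k] with u hu
    rw [norm_mul, norm_mul, hn, mul_one]
    calc ‖b n‖ * ‖∏ i, (u i : ℂ) ^ a n i‖ ≤ ‖b n‖ * 1 := by gcongr; exact prod_le hu _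
      _ = ‖b n‖ := mul_one _
  have hb : ∀ n, ∫ u, ‖b n * ((∏ i, (u i : ℂ) ^ a n i) * cexp (-(I * (∑ i, θ i * u i : ℝ))))‖
      ∂(U k) ≤ ‖b n‖ := by
    intro n
    calc _ ≤ ∫ _, ‖b n‖ ∂(U k) := by
          refine integral_mono_ae (hterm n).norm (integrable_const _) ?_
          filter_upwards [U_ae k] with u hu
          rw [norm_mul, norm_mul, hn, mul_one]
          calc ‖b n‖ * ‖∏ i, (u i : ℂ) ^ a n i‖ ≤ ‖b n‖ * 1 := by gcongr; exact prod_le hu _
            _ = ‖b n‖ := mul_one _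
      _ = ‖b n‖ := by simp
  have hs := hasSum_integral_of_summable_integral_norm hterm
    (Summable.of_nonneg_of_le (fun n => integral_nonneg fun _ => norm_nonneg _) hb h1)
  rw [← hs.tsum_eq]
  have hle : ∀ n, ‖∫ u, b n * ((∏ i, (u i : ℂ) ^ a n i) * cexp (-(I * (∑ i, θ i * u i : ℝ))))
      ∂(U k)‖ ≤ ‖b n‖ * (3 ^ k * ∏ i, w (θ i)) := by
    intro n
    rw [integral_const_mul, norm_mul]
    gcongr
    exact monoK θ (a n)
  have hw : 0 ≤ ∏ i, w (θ i) := Finset.prod_nonneg fun i _ => (w_pos _).le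
  calc _ ≤ ∑' n, ‖b n‖ * (3 ^ k * ∏ i, w (θ i)) :=
        tsum_of_norm_bounded (h1.mul_right _).hasSum hle
    _ = (∑' n, ‖b n‖) * (3 ^ k * ∏ i, w (θ i)) := tsum_mul_right
    _ ≤ B * (3 ^ k * ∏ i, w (θ i)) := by gcongr

lemma Rep.const (c : ℂ) : Rep k ‖c‖ fun _ => c := by
  refine ⟨Unit, inferInstance, fun _ => c, fun _ _ => 0, ?_, ?_, fun u _ => ?_⟩
  · exact (hasSum_fintype _).summable
  · rw [tsum_fintype]
    simp
  · rw [tsum_fintype]
    simp

lemma Rep.coord (i : Fin k) : Rep k 1 fun u => (u i : ℂ) := by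
  refine ⟨Unit, inferInstance, fun _ => 1, fun _ => Pi.single i 1, ?_, ?_, fun u _ => ?_⟩
  · exact (hasSum_fintype _).summable
  · rw [tsum_fintype]
    simp
  · rw [tsum_fintype]
    simp only [Finset.univ_unique, Finset.sum_const, Finset.card_singleton, one_smul, one_mul]
    rw [Finset.prod_eq_single i]
    · simp
    · intro j _ hj
      rw [Pi.single_eq_of_ne hj, pow_zero]
    · intro h
      exact absurd (Finset.mem_univ i) h

lemma Rep.mul {B B' : ℝ} {F G : (Fin k → ℝ) → ℂ} (hF : Rep k B F) (hG : Rep k B' G) :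
    Rep k (B * B') fun u => F u * G u := by
  have hB := hF.nonneg
  have hB' := hG.nonneg
  obtain ⟨ι, hι, b, a, h1, h2, h3⟩ := hF
  obtain ⟨κ, hκ, c, d, g1, g2, g3⟩ := hG
  have hs : Summable fun p : ι × κ => ‖b p.1 * c p.2‖ := by
    simp only [norm_mul]
    exact h1.mul_of_nonneg g1 (fun _ => norm_nonneg _) (fun _ => norm_nonneg _)
  refine ⟨ι × κ, inferInstance, fun p => b p.1 * c p.2, fun p i => a p.1 i + d p.2 i, hs, ?_, ?_⟩
  · simp only [norm_mul] at hs ⊢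
    rw [← h1.tsum_mul_tsum g1 hs]
    exact mul_le_mul h2 g2 (tsum_nonneg fun _ => norm_nonneg _) hB
  · intro u hu
    simp only
    rw [h3 u hu, g3 u hu]
    have s1 : Summable fun n => ‖b n * ∏ i, (u i : ℂ) ^ a n i‖ := by
      refine Summable.of_nonneg_of_le (fun _ => norm_nonneg _) (fun n => ?_) h1
      rw [norm_mul]
      calc ‖b n‖ * ‖∏ i, (u i : ℂ) ^ a n i‖ ≤ ‖b n‖ * 1 := by gcongr; exact prod_le hu _
        _ = ‖b n‖ := mul_one _
    have s2 : Summable fun n => ‖c n * ∏ i, (u i : ℂ) ^ d n i‖ := by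
      refine Summable.of_nonneg_of_le (fun _ => norm_nonneg _) (fun n => ?_) g1
      rw [norm_mul]
      calc ‖c n‖ * ‖∏ i, (u i : ℂ) ^ d n i‖ ≤ ‖c n‖ * 1 := by gcongr; exact prod_le hu _
        _ = ‖c n‖ := mul_one _
    rw [tsum_mul_tsum_of_summable_norm s1 s2]
    refine tsum_congr fun p => ?_
    simp only [pow_add, Finset.prod_mul_distrib]
    ring

lemma Rep.tsum {τ : Type} [Countable τ] {B : τ → ℝ} {F : τ → (Fin k → ℝ) → ℂ}
    (h : ∀ n, Rep k (B n) (F n))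
    (hB : Summable B) : Rep k (∑' n, B n) fun u => ∑' n, F n u := by
  choose ι hι b a h1 h2 h3 using h
  have hs : Summable fun p : Σ n, ι n => ‖b p.1 p.2‖ := by
    rw [summable_sigma_of_nonneg fun _ => norm_nonneg _]
    refine ⟨h1, Summable.of_nonneg_of_le (fun n => tsum_nonneg fun _ => norm_nonneg _)
      (fun n => h2 n) hB⟩
  refine ⟨Σ n, ι n, inferInstance, fun p => b p.1 p.2, fun p => a p.1 p.2, hs, ?_, ?_⟩
  · rw [hs.tsum_sigma' h1]
    refine Summable.tsum_le_tsum h2 ?_ hB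
    exact Summable.of_nonneg_of_le (fun n => tsum_nonneg fun _ => norm_nonneg _)
      (fun n => h2 n) hB
  · intro u hu
    have s1 : Summable fun p : Σ n, ι n => b p.1 p.2 * ∏ i, (u i : ℂ) ^ a p.1 p.2 i := by
      refine Summable.of_norm_bounded hs fun p => ?_
      rw [norm_mul]
      calc ‖b p.1 p.2‖ * ‖∏ i, (u i : ℂ) ^ a p.1 p.2 i‖ ≤ ‖b p.1 p.2‖ * 1 := by
            gcongr; exact prod_le hu _
        _ = ‖b p.1 p.2‖ := mul_one _
    rw [s1.tsum_sigma]
    exact tsum_congr fun n => h3 n u hu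

lemma Rep.add {B B' : ℝ} {F G : (Fin k → ℝ) → ℂ} (hF : Rep k B F) (hG : Rep k B' G) :
    Rep k (B + B') fun u => F u + G u := by
  have h := Rep.tsum (τ := Bool) (B := fun c => if c then B' else B)
    (F := fun c => if c then G else F) (fun c => by cases c <;> simpa)
    (hasSum_fintype _).summable
  have h1 : ∑' c : Bool, (if c then B' else B) = B + B' := by
    rw [tsum_bool]; simp
  rw [h1] at h
  refine h.congr fun u hu => ?_
  rw [tsum_bool]
  simp

lemma Rep.smul {B : ℝ} {F : (Fin k → ℝ) → ℂ} (hF : Rep k B F) (c : ℂ) :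
    Rep k (‖c‖ * B) fun u => c * F u := (Rep.const c).mul hF

lemma Rep.pow {B : ℝ} {F : (Fin k → ℝ) → ℂ} (hF : Rep k B F) (n : ℕ) :
    Rep k (B ^ n) fun u => F u ^ n := by
  induction n with
  | zero =>
    have := Rep.const (k := k) 1
    simpa using this
  | succ n ih =>
    have := ih.mul hF
    simpa only [pow_succ] using this

lemma Rep.series {B : ℝ} {F : (Fin k → ℝ) → ℂ} (hF : Rep k B F) (c : ℕ → ℂ)
    (hc : Summable fun n => ‖c n‖ * B ^ n) :
    Rep k (∑' n, ‖c n‖ * B ^ n) fun u => ∑' n, c n * F u ^ n :=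
  Rep.tsum (fun n => (hF.pow n).smul (c n)) hc

lemma Rep.sum {τ : Type} (s : Finset τ) {B : τ → ℝ} {F : τ → (Fin k → ℝ) → ℂ}
    (h : ∀ n ∈ s, Rep k (B n) (F n)) : Rep k (∑ n ∈ s, B n) fun u => ∑ n ∈ s, F n u := by
  classical
  induction s using Finset.induction_on with
  | empty =>
    have := Rep.const (k := k) 0
    simpa using this
  | insert a s ha ih =>
    have := (h a (Finset.mem_insert_self _ _)).add
      (ih fun n hn => h n (Finset.mem_insert_of_mem hn))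
    simpa only [Finset.sum_insert ha] using this

/-- exponentials -/
lemma Rep.cexp {B : ℝ} {F : (Fin k → ℝ) → ℂ} (hF : Rep k B F) :
    Rep k (Real.exp B) fun u => cexp (F u) := by
  have hs : ∀ n : ℕ, ‖((n.factorial : ℂ)⁻¹)‖ * B ^ n = B ^ n / n.factorial := by
    intro n
    rw [norm_inv, Complex.norm_natCast]
    field_simp
  have h := hF.series (fun n => (n.factorial : ℂ)⁻¹) (by
    simp only [hs]
    exact Real.summable_pow_div_factorial B)
  simp only [hs] at h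
  have e1 : ∑' n : ℕ, B ^ n / n.factorial = Real.exp B := by
    rw [Real.exp_eq_exp_ℝ, NormedSpace.exp_eq_tsum_div]
  rw [e1] at h
  refine h.congr fun u _ => ?_
  rw [Complex.exp_eq_exp_ℂ, NormedSpace.exp_eq_tsum_div]
  refine tsum_congr fun n => ?_
  field_simp

end Pool.Agent.V5helper63.RH
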