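import Mathlib
import Pool.Agent.V5helper63.RH.A
set_option autoImplicit false

/-! The phase of the sphere on a small cube. -/

namespace Pool.Agent.V5helper63.RH

open MeasureTheory Set Complex
open scoped ENNReal NNReal

/-- expansion of the square root -/
lemma sqrt_series : ∃ (d : ℕ → ℝ) (K : ℝ), (Summable fun n => |d n| * (1 / 2 : ℝ) ^ n) ∧
    (∑' n, |d n| * (1 / 2 : ℝ) ^ n ≤ K) ∧
    ∀ x : ℝ, |x| ≤ 1 / 2 → HasSum (fun n => d n * x ^ n * x ^ 2) (Real.sqrt (1 - x) - 1 + x / 2) := by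
  have hp := Real.one_add_rpow_hasFPowerSeriesOnBall_zero (a := 1 / 2)
  set p := binomialSeries ℝ (1 / 2 : ℝ) with hpdef
  have hcoef : ∀ n, p.coeff n = Ring.choose (1 / 2 : ℝ) n := by
    intro n
    rw [hpdef]
    unfold binomialSeries
    rw [FormalMultilinearSeries.coeff_ofScalars]
  have hsum0 : Summable fun n => |p.coeff n| * (1 / 2 : ℝ) ^ n := by
    have h1 : ((1 / 2 : ℝ≥0) : ℝ≥0∞) < p.radius := by
      refine lt_of_lt_of_le ?_ hp.r_le
      rw [ENNReal.coe_lt_one_iff]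
      norm_num
    have h2 := p.summable_norm_mul_pow h1
    refine h2.congr fun n => ?_
    rw [FormalMultilinearSeries.norm_apply_eq_norm_coef, Real.norm_eq_abs]
    norm_num
  refine ⟨fun n => (-1) ^ n * p.coeff (n + 2), ∑' n, |(-1) ^ n * p.coeff (n + 2)| * (1 / 2 : ℝ) ^ n,
    ?_, le_rfl, ?_⟩
  · have h3 := ((summable_nat_add_iff 2).mpr hsum0).mul_left 4
    refine h3.congr fun n => ?_
    rw [abs_mul, abs_pow, abs_neg, abs_one, one_pow, one_mul, pow_add]
    ring
  · intro x hx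
    have hy : (-x) ∈ Metric.eball (0 : ℝ) 1 := by
      rw [Metric.mem_eball, edist_zero_right, enorm_neg, ← ofReal_norm, Real.norm_eq_abs]
      rw [ENNReal.ofReal_lt_one]
      linarith
    have h1 := hp.hasSum_sub (y := -x) (by simpa using hy)
    simp only [FormalMultilinearSeries.apply_eq_pow_smul_coeff, sub_zero, smul_eq_mul] at h1
    have h2 := (hasSum_nat_add_iff' 2).mpr h1
    rw [Finset.sum_range_succ, Finset.sum_range_one, hcoef 0, hcoef 1] at h2
    rw [Ring.choose_zero_right, Ring.choose_one_right] at h2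
    have e2 : (1 + -x) ^ (1 / 2 : ℝ) = Real.sqrt (1 - x) := by
      rw [Real.sqrt_eq_rpow, sub_eq_add_neg]
    rw [e2] at h2
    have e3 : (fun n : ℕ => (-1 : ℝ) ^ n * p.coeff (n + 2) * x ^ n * x ^ 2) =
        fun n => (-x) ^ (n + 2) * p.coeff (n + 2) := by
      funext n
      rw [pow_add (-x) n 2, neg_pow x n]
      ring
    have e4 : Real.sqrt (1 - x) - 1 + x / 2 =
        Real.sqrt (1 - x) - ((-x) ^ 0 * 1 + (-x) ^ 1 * (1 / 2)) := by ring
    rw [e4]
    simp only
    rw [e3]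
    exact h2


/-- `√(1 - |z|²)` -/
noncomputable def psi {k : ℕ} (z : Fin k → ℝ) : ℝ := Real.sqrt (1 - ∑ i, z i ^ 2)

/-- The second order remainder of the phase on a cube of side `ℓ` has a small representation. -/
lemma rem_rep : ∃ K2 : ℝ, ∀ (k : ℕ), 1 ≤ k → ∀ (y : Fin k → ℝ) (l : ℝ), 0 ≤ l → l ≤ 1 / (4 * k) →
    (∀ i, 0 ≤ y i ∧ y i ≤ 1 / (4 * k)) →
    Rep k (K2 * l ^ 2 * k) fun u => ((psi (y + l • u) - psi y + l * (∑ i, y i * u i) / psi y : ℝ) : ℂ) := by
  obtain ⟨d, K, hd, hK, hs⟩ := sqrt_series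
  have hK0 : 0 ≤ K := (tsum_nonneg fun n => by positivity).trans hK
  refine ⟨1 + 4 * K, fun k hk y l hl0 hl hy => ?_⟩
  have hk0 : (0 : ℝ) < k := by exact_mod_cast hk
  have hk1 : (1 : ℝ) ≤ k := by exact_mod_cast hk
  set c : ℝ := 1 / (4 * k) with hc
  have hc0 : 0 < c := by positivity
  have hkc : k * c = 1 / 4 := by rw [hc]; field_simp
  have hc4 : c ≤ 1 / 4 := by
    rw [hc]
    apply div_le_div_of_nonneg_left zero_le_one (by norm_num)
    linarith
  set P : ℝ := 1 - ∑ i, y i ^ 2 with hP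
  have hyy : ∑ i, y i ^ 2 ≤ 1 / 16 := by
    calc ∑ i, y i ^ 2 ≤ ∑ _i : Fin k, c ^ 2 :=
          Finset.sum_le_sum fun i _ => pow_le_pow_left₀ (hy i).1 (hy i).2 2
      _ = k * c ^ 2 := by simp
      _ = (k * c) * c := by ring
      _ ≤ 1 / 16 := by rw [hkc]; linarith
  have hyy0 : 0 ≤ ∑ i, y i ^ 2 := Finset.sum_nonneg fun i _ => sq_nonneg _
  have hP1 : 15 / 16 ≤ P := by linarith
  have hP2 : P ≤ 1 := by linarith
  have hP0 : 0 < P := by linarith
  -- the function h
  set h : (Fin k → ℝ) → ℝ := fun u => ∑ i, (2 * l * y i / P * u i + l ^ 2 / P * u i ^ 2) with hh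
  have hrep : Rep k (2 * l) fun u => ((h u : ℝ) : ℂ) := by
    have h1 : ∀ i ∈ (Finset.univ : Finset (Fin k)), Rep k (‖((2 * l * y i / P : ℝ) : ℂ)‖ * 1 +
        ‖((l ^ 2 / P : ℝ) : ℂ)‖ * 1 ^ 2)
        fun u => ((2 * l * y i / P : ℝ) : ℂ) * (u i : ℂ) + ((l ^ 2 / P : ℝ) : ℂ) * (u i : ℂ) ^ 2 :=
      fun i _ => ((Rep.coord i).smul _).add (((Rep.coord i).pow 2).smul _)
    have h2 := Rep.sum Finset.univ h1
    refine (h2.mono ?_).congr fun u _ => ?_
    · have h3 : ∀ i : Fin k, ‖((2 * l * y i / P : ℝ) : ℂ)‖ * 1 +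
          ‖((l ^ 2 / P : ℝ) : ℂ)‖ * 1 ^ 2 ≤ 2 * l / k := by
        intro i
        have hyi := hy i
        have hyi0 := hyi.1
        rw [Complex.norm_of_nonneg (by positivity), Complex.norm_of_nonneg (by positivity), one_pow,
          mul_one, mul_one, ← add_div, div_le_div_iff₀ hP0 hk0]
        have a1 : y i * k ≤ 1 / 4 := by
          calc y i * k ≤ c * k := by gcongr; exact hyi.2
            _ = 1 / 4 := by rw [mul_comm]; exact hkc
        have a2 : l * k ≤ 1 / 4 := by
          calc l * k ≤ c * k := by gcongr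
            _ = 1 / 4 := by rw [mul_comm]; exact hkc
        nlinarith
      calc _ ≤ ∑ _i : Fin k, 2 * l / k := Finset.sum_le_sum fun i _ => h3 i
        _ = 2 * l := by
          simp
          field_simp
    · rw [hh]
      push_cast
      rfl
  have hh1 : ∀ u : Fin k → ℝ, (∀ i, u i ∈ Ico (0:ℝ) 1) → |h u| ≤ 1 / 2 := by
    intro u hu
    have h0 : 0 ≤ h u := by
      rw [hh]
      refine Finset.sum_nonneg fun i _ => ?_
      have := (hu i).1
      have := (hy i).1
      positivity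
    rw [abs_of_nonneg h0]
    calc h u ≤ ∑ _i : Fin k, 2 * l / k := by
          refine Finset.sum_le_sum fun i _ => ?_
          have hyi := hy i
          have hui := hu i
          have a1 : y i * k ≤ 1 / 4 := by
            calc y i * k ≤ c * k := by gcongr; exact hyi.2
              _ = 1 / 4 := by rw [mul_comm]; exact hkc
          have a2 : l * k ≤ 1 / 4 := by
            calc l * k ≤ c * k := by gcongr
              _ = 1 / 4 := by rw [mul_comm]; exact hkc
          calc 2 * l * y i / P * u i + l ^ 2 / P * u i ^ 2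
              ≤ 2 * l * y i / P * 1 + l ^ 2 / P * 1 := by
                gcongr
                · have := hyi.1; positivity
                · exact hui.2.le
                · exact pow_le_one₀ hui.1 hui.2.le
            _ = (2 * l * y i + l ^ 2) / P := by ring
            _ ≤ 2 * l / k := by
                rw [div_le_div_iff₀ hP0 hk0]
                nlinarith
      _ = 2 * l := by
        simp
        field_simp
      _ ≤ 1 / 2 := by linarith
  have hD : Rep k K fun u => ∑' n, (d n : ℂ) * ((h u : ℝ) : ℂ) ^ n := by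
    have h4 : ∀ n, ‖(d n : ℂ)‖ * (2 * l) ^ n ≤ |d n| * (1 / 2 : ℝ) ^ n := by
      intro n
      rw [Complex.norm_real, Real.norm_eq_abs]
      gcongr
      linarith
    have h5 : Summable fun n => ‖(d n : ℂ)‖ * (2 * l) ^ n :=
      Summable.of_nonneg_of_le (fun n => by positivity) h4 hd
    exact (hrep.series (fun n => (d n : ℂ)) h5).mono ((h5.tsum_le_tsum h4 hd).trans hK)
  have hsq : Rep k (1 * k) fun u => ∑ i, (u i : ℂ) ^ 2 := by
    have h6 : ∀ i ∈ (Finset.univ : Finset (Fin k)), Rep k 1 fun u : Fin k → ℝ => (u i : ℂ) ^ 2 := by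
      intro i _
      have := (Rep.coord i).pow 2
      rw [one_pow] at this
      exact this
    have h7 := Rep.sum Finset.univ h6
    refine h7.mono ?_
    simp
  have htot := (((hrep.pow 2).mul hD).add (hsq.smul ((-(l ^ 2 / (2 * P)) : ℝ) : ℂ))).smul
    ((Real.sqrt P : ℝ) : ℂ)
  refine (htot.mono ?_).congr fun u hu => ?_
  · rw [Complex.norm_of_nonneg (Real.sqrt_nonneg _), Complex.norm_real, Real.norm_eq_abs, abs_neg,
      abs_of_nonneg (by positivity)]
    have b1 : Real.sqrt P ≤ 1 := Real.sqrt_le_one.mpr hP2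
    have b2 : l ^ 2 / (2 * P) ≤ l ^ 2 := by
      rw [div_le_iff₀ (by positivity)]
      nlinarith [sq_nonneg l]
    calc Real.sqrt P * ((2 * l) ^ 2 * K + l ^ 2 / (2 * P) * (1 * k))
        ≤ 1 * ((2 * l) ^ 2 * K + l ^ 2 * (1 * k)) := by gcongr
      _ = l ^ 2 * k + 4 * K * l ^ 2 * 1 := by ring
      _ ≤ l ^ 2 * k + 4 * K * l ^ 2 * k := by gcongr
      _ = (1 + 4 * K) * l ^ 2 * k := by ring
  · have e1 : (1 : ℝ) - ∑ i, (y + l • u) i ^ 2 = P * (1 - h u) := by
      have e2 : P * h u = 2 * l * (∑ i, y i * u i) + l ^ 2 * ∑ i, u i ^ 2 := by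
        rw [hh, Finset.mul_sum, Finset.mul_sum, Finset.mul_sum, ← Finset.sum_add_distrib]
        refine Finset.sum_congr rfl fun i _ => ?_
        field_simp
      have e3 : ∑ i, (y + l • u) i ^ 2 = ∑ i, y i ^ 2 + 2 * l * (∑ i, y i * u i) +
          l ^ 2 * ∑ i, u i ^ 2 := by
        rw [Finset.mul_sum, Finset.mul_sum, ← Finset.sum_add_distrib, ← Finset.sum_add_distrib]
        refine Finset.sum_congr rfl fun i _ => ?_
        simp only [Pi.add_apply, Pi.smul_apply, smul_eq_mul]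
        ring
      rw [e3, mul_sub, e2, hP]
      ring
    have e4 : psi (y + l • u) = Real.sqrt P * Real.sqrt (1 - h u) := by
      unfold psi
      rw [e1, Real.sqrt_mul hP0.le]
    have e5 : psi y = Real.sqrt P := rfl
    have e6 := (hs (h u) (hh1 u hu)).tsum_eq
    have e7 : (∑' n, (d n : ℂ) * ((h u : ℝ) : ℂ) ^ n) = ((∑' n, d n * h u ^ n : ℝ) : ℂ) := by
      push_cast
      rfl
    rw [e7]
    have e8 : ∑' n, d n * h u ^ n * h u ^ 2 = (∑' n, d n * h u ^ n) * h u ^ 2 := tsum_mul_right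
    rw [e8] at e6
    have e9 : (∑ i, (u i : ℂ) ^ 2) = ((∑ i, u i ^ 2 : ℝ) : ℂ) := by push_cast; rfl
    rw [e9, ← Complex.ofReal_pow, ← Complex.ofReal_mul, ← Complex.ofReal_mul, ← Complex.ofReal_add,
      ← Complex.ofReal_mul]
    congr 1
    have hsP : Real.sqrt P ≠ 0 := (Real.sqrt_pos.mpr hP0).ne'
    have hPP : Real.sqrt P ^ 2 = P := Real.sq_sqrt hP0.le
    have e2 : h u = (2 * l * (∑ i, y i * u i) + l ^ 2 * ∑ i, u i ^ 2) / P := by
      rw [hh, Finset.mul_sum, Finset.mul_sum, ← Finset.sum_add_distrib, Finset.sum_div]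
      refine Finset.sum_congr rfl fun i _ => ?_
      field_simp
    have e10 : h u ^ 2 * ∑' n, d n * h u ^ n = Real.sqrt (1 - h u) - 1 + h u / 2 := by
      rw [mul_comm]; exact e6
    rw [e4, e5, e10]
    have e11 : l * (∑ i, y i * u i) / Real.sqrt P = Real.sqrt P * (h u / 2 -
        l ^ 2 / (2 * P) * ∑ i, u i ^ 2) := by
      rw [e2]
      have : Real.sqrt P * Real.sqrt P = P := Real.mul_self_sqrt hP0.le
      field_simp
      rw [hPP]
      ring
    rw [e11]
    ring

end Pool.Agent.V5helper63.RH
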