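import Mathlib
import Pool.Agent.V5helper63.RH.B
import Pool.Agent.H153R4.Pl
set_option autoImplicit false

/-! Dyadic cubes, the Fourier transforms of their images on the sphere. -/

namespace Pool.Agent.V5helper63.RH

open MeasureTheory Set Complex
open scoped ENNReal NNReal FourierTransform RealInnerProductSpace Pointwise

/-- side length of the dyadic cubes of generation `j` -/
noncomputable def side (k j : ℕ) : ℝ := 1 / (4 * k * 2 ^ j)

/-- dyadic cube -/
def cube (k j : ℕ) (m : Fin k → ℕ) : Set (Fin k → ℝ) :=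
  {z | ∀ i, m i * side k j ≤ z i ∧ z i < (m i + 1) * side k j}

/-- the character -/
noncomputable def ee {k : ℕ} (ξ : (Fin k → ℝ) × ℝ) (z : Fin k → ℝ) : ℂ :=
  cexp (-(2 * Real.pi * I) * ((∑ i, z i * ξ.1 i + Real.sqrt (1 - ∑ i, z i ^ 2) * ξ.2 : ℝ) : ℂ))

/-- the Fourier transform of a dyadic cube on the sphere -/
noncomputable def F1 (k j : ℕ) (m : Fin k → ℕ) (ξ : (Fin k → ℝ) × ℝ) : ℂ :=
  ∫ z in cube k j m, ee ξ z

lemma side_pos {k : ℕ} (hk : 1 ≤ k) (j : ℕ) : 0 < side k j := by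
  unfold side
  have : (0:ℝ) < k := by exact_mod_cast hk
  positivity

lemma side_zero (k : ℕ) : side k 0 = 1 / (4 * k) := by
  unfold side; rw [pow_zero, mul_one]

lemma side_succ (k j : ℕ) : side k (j + 1) = side k j / 2 := by
  unfold side
  rw [pow_succ]
  rcases Nat.eq_zero_or_pos k with rfl | hk
  · simp
  · have : (0:ℝ) < k := by exact_mod_cast hk
    field_simp

lemma side_eq (k j : ℕ) : side k j = side k 0 / 2 ^ j := by
  unfold side
  rw [pow_zero, mul_one, div_div]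

lemma side_le {k : ℕ} (hk : 1 ≤ k) (j : ℕ) : side k j ≤ 1 / (4 * k) := by
  rw [side_eq, side_zero]
  have : (0:ℝ) < k := by exact_mod_cast hk
  apply div_le_self (by positivity)
  exact one_le_pow₀ (by norm_num)

lemma ee_cont {k : ℕ} : Continuous fun p : ((Fin k → ℝ) × ℝ) × (Fin k → ℝ) => ee p.1 p.2 := by
  unfold ee
  fun_prop

lemma ee_cont' {k : ℕ} (ξ : (Fin k → ℝ) × ℝ) : Continuous (ee ξ) := by
  unfold ee
  fun_prop

lemma ee_norm {k : ℕ} (ξ : (Fin k → ℝ) × ℝ) (z : Fin k → ℝ) : ‖ee ξ z‖ = 1 := by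
  unfold ee
  rw [show (-(2 * Real.pi * I) * ((∑ i, z i * ξ.1 i + Real.sqrt (1 - ∑ i, z i ^ 2) * ξ.2 : ℝ) : ℂ)) =
    ((-(2 * Real.pi) * (∑ i, z i * ξ.1 i + Real.sqrt (1 - ∑ i, z i ^ 2) * ξ.2) : ℝ) : ℂ) * I by
      push_cast; ring]
  exact Complex.norm_exp_ofReal_mul_I _

/-- box -/
def box {k : ℕ} (y : Fin k → ℝ) (l : ℝ) : Set (Fin k → ℝ) := {z | ∀ i, y i ≤ z i ∧ z i < y i + l}

lemma box_eq {k : ℕ} (y : Fin k → ℝ) (l : ℝ) : box y l = Set.pi univ fun i => Ico (y i) (y i + l) := by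
  ext z
  simp [box]

lemma box_meas {k : ℕ} (y : Fin k → ℝ) (l : ℝ) : MeasurableSet (box y l) := by
  rw [box_eq]
  exact MeasurableSet.univ_pi fun _ => measurableSet_Ico

lemma box_vol {k : ℕ} (y : Fin k → ℝ) {l : ℝ} (hl : 0 ≤ l) :
    volume (box y l) = ENNReal.ofReal (l ^ k) := by
  rw [box_eq, volume_pi_pi]
  simp only [Real.volume_Ico, add_sub_cancel_left]
  rw [Finset.prod_const, Finset.card_univ, Fintype.card_fin, ENNReal.ofReal_pow hl]

lemma cube_eq (k j : ℕ) (m : Fin k → ℕ) :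
    cube k j m = box (fun i => m i * side k j) (side k j) := by
  ext z
  simp only [cube, box, mem_ofPred_eq]
  refine forall_congr' fun i => ?_
  rw [add_mul, one_mul]

lemma cube_meas (k j : ℕ) (m : Fin k → ℕ) : MeasurableSet (cube k j m) := by
  rw [cube_eq]
  exact box_meas _ _

lemma cube_vol {k : ℕ} (hk : 1 ≤ k) (j : ℕ) (m : Fin k → ℕ) :
    volume (cube k j m) = ENNReal.ofReal (side k j ^ k) := by
  rw [cube_eq, box_vol _ (side_pos hk j).le]

lemma cube_fin {k : ℕ} (hk : 1 ≤ k) (j : ℕ) (m : Fin k → ℕ) : volume (cube k j m) < ∞ := by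
  rw [cube_vol hk]
  exact ENNReal.ofReal_lt_top

lemma box_int {k : ℕ} (y : Fin k → ℝ) {l : ℝ} (hl : 0 < l) (f : (Fin k → ℝ) → ℂ) :
    ∫ z in box y l, f z = (l ^ k : ℝ) * ∫ u, f (y + l • u) ∂(U k) := by
  rw [U_eq]
  set S : Set (Fin k → ℝ) := Set.pi univ fun _ : Fin k => Ico (0:ℝ) 1 with hS
  have h1 := Measure.setIntegral_comp_smul_of_pos (volume : Measure (Fin k → ℝ))
    (fun v => f (y + v)) S hl
  have h2 := (measurePreserving_add_left (volume : Measure (Fin k → ℝ)) y).setIntegral_preimage_emb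
    (measurableEmbedding_addLeft y) f (box y l)
  have h3 : (fun v => y + v) ⁻¹' box y l = l • S := by
    ext v
    rw [mem_smul_set_iff_inv_smul_mem₀ hl.ne']
    simp only [box, hS, mem_preimage, mem_ofPred_eq, Set.mem_pi, mem_univ, true_implies, mem_Ico,
      Pi.add_apply, Pi.smul_apply, smul_eq_mul]
    refine forall_congr' fun i => ?_
    rw [inv_mul_eq_div, div_nonneg_iff, div_lt_one hl]
    constructor
    · rintro ⟨a, b⟩
      exact ⟨Or.inl ⟨by linarith, hl.le⟩, by linarith⟩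
    · rintro ⟨a, b⟩
      refine ⟨?_, by linarith⟩
      rcases a with a | a
      · linarith [a.1]
      · linarith [a.2]
  rw [h3] at h2
  rw [h1, h2, Module.finrank_fintype_fun_eq_card, Fintype.card_fin]
  rw [Complex.real_smul]
  push_cast
  rw [← mul_assoc, mul_inv_cancel₀, one_mul]
  exact pow_ne_zero _ (by exact_mod_cast hl.ne')

/-- corner of a cube -/
noncomputable def cor (k j : ℕ) (m : Fin k → ℕ) : Fin k → ℝ := fun i => m i * side k j

lemma F1_eq {k : ℕ} (hk : 1 ≤ k) (j : ℕ) (m : Fin k → ℕ) (ξ : (Fin k → ℝ) × ℝ) :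
    F1 k j m ξ = (side k j ^ k : ℝ) * ∫ u, ee ξ (cor k j m + side k j • u) ∂(U k) := by
  unfold F1
  rw [cube_eq, box_int _ (side_pos hk j)]
  rfl

lemma cor_bd {k : ℕ} (hk : 1 ≤ k) {j : ℕ} {m : Fin k → ℕ} (hm : ∀ i, m i < 2 ^ j) (i : Fin k) :
    0 ≤ cor k j m i ∧ cor k j m i ≤ 1 / (4 * k) := by
  have hs := side_pos hk j
  unfold cor
  refine ⟨by positivity, ?_⟩
  have h1 : (m i : ℝ) ≤ 2 ^ j := by exact_mod_cast (hm i).le
  calc (m i : ℝ) * side k j ≤ 2 ^ j * side k j := by gcongr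
    _ = 1 / (4 * k) := by
      rw [side_eq, side_zero]
      field_simp

/-- the frequencies -/
noncomputable def th (k j : ℕ) (m : Fin k → ℕ) (x : Fin k → ℝ) (t : ℝ) (i : Fin k) : ℝ :=
  2 * Real.pi * side k j * (x i - t * cor k j m i / psi (cor k j m))

theorem F1_decay (k : ℕ) (hk : 1 ≤ k) : ∃ C : ℝ, 0 < C ∧ ∀ (j : ℕ) (m : Fin k → ℕ),
    (∀ i, m i < 2 ^ j) → ∀ (x : Fin k → ℝ) (t : ℝ), |t| * side k j ^ 2 ≤ 1 →
    ‖F1 k j m (x, t)‖ ≤ C * side k j ^ k * ∏ i, w (th k j m x t i) := by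
  obtain ⟨K2, hK2⟩ := rem_rep
  refine ⟨Real.exp (2 * Real.pi * (|K2| * k)) * 3 ^ k, by positivity, fun j m hm x t ht => ?_⟩
  have hs := side_pos hk j
  set l := side k j with hl
  set y := cor k j m with hy
  have hrep := hK2 k hk y l hs.le (side_le hk j) (cor_bd hk hm)
  have hrep2 := ((hrep.smul (-(2 * Real.pi * t) * I)).cexp)
  have hB : Real.exp (‖(-(2 * Real.pi * t) * I : ℂ)‖ * (K2 * l ^ 2 * k)) ≤
      Real.exp (2 * Real.pi * (|K2| * k)) := by
    apply Real.exp_le_exp.mpr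
    have : ‖(-(2 * Real.pi * t) * I : ℂ)‖ = 2 * Real.pi * |t| := by
      simp [abs_of_pos Real.pi_pos]
    rw [this]
    calc 2 * Real.pi * |t| * (K2 * l ^ 2 * k) = 2 * Real.pi * ((|t| * l ^ 2) * (K2 * k)) := by ring
      _ ≤ 2 * Real.pi * ((|t| * l ^ 2) * (|K2| * k)) := by
          gcongr
          exact le_abs_self _
      _ ≤ 2 * Real.pi * (1 * (|K2| * k)) := by gcongr
      _ = 2 * Real.pi * (|K2| * k) := by ring
  have hrep3 := (hrep2.mono hB).decay (th k j m x t)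
  rw [F1_eq hk, norm_mul, Complex.norm_of_nonneg (by positivity)]
  have key : ∀ u : Fin k → ℝ, ee (x, t) (y + l • u) =
      cexp (-(2 * Real.pi * I) * ((∑ i, y i * x i + psi y * t : ℝ) : ℂ)) *
      (cexp (-(2 * Real.pi * t) * I * ((psi (y + l • u) - psi y + l * (∑ i, y i * u i) / psi y : ℝ) : ℂ)) *
        cexp (-(I * (∑ i, th k j m x t i * u i : ℝ)))) := by
    intro u
    unfold ee
    rw [← Complex.exp_add, ← Complex.exp_add]
    congr 1
    have e1 : (∑ i, th k j m x t i * u i) = 2 * Real.pi * (l * (∑ i, u i * x i) -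
        t * (l * (∑ i, y i * u i) / psi y)) := by
      unfold th
      rw [← hl, ← hy, Finset.mul_sum, Finset.mul_sum, Finset.sum_div, Finset.mul_sum,
        ← Finset.sum_sub_distrib, Finset.mul_sum]
      refine Finset.sum_congr rfl fun i _ => ?_
      ring
    have e2 : (∑ i, (y + l • u) i * (x, t).1 i) = ∑ i, y i * x i + l * ∑ i, u i * x i := by
      rw [Finset.mul_sum, ← Finset.sum_add_distrib]
      refine Finset.sum_congr rfl fun i _ => ?_
      simp only [Pi.add_apply, Pi.smul_apply, smul_eq_mul]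
      ring
    rw [e1, e2]
    have e3 : Real.sqrt (1 - ∑ i, (y + l • u) i ^ 2) = psi (y + l • u) := rfl
    rw [e3]
    push_cast
    ring
  have e4 : ∫ u, ee (x, t) (y + l • u) ∂(U k) =
      cexp (-(2 * Real.pi * I) * ((∑ i, y i * x i + psi y * t : ℝ) : ℂ)) * ∫ u,
      (cexp (-(2 * Real.pi * t) * I * ((psi (y + l • u) - psi y + l * (∑ i, y i * u i) / psi y : ℝ) : ℂ)) *
        cexp (-(I * (∑ i, th k j m x t i * u i : ℝ)))) ∂(U k) := by
    rw [← integral_const_mul]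
    exact integral_congr_ae (Filter.Eventually.of_forall key)
  have e5 : ‖cexp (-(2 * Real.pi * I) * ((∑ i, y i * x i + psi y * t : ℝ) : ℂ))‖ = 1 := by
    rw [show (-(2 * Real.pi * I) * ((∑ i, y i * x i + psi y * t : ℝ) : ℂ)) =
      ((-(2 * Real.pi) * (∑ i, y i * x i + psi y * t) : ℝ) : ℂ) * I by push_cast; ring]
    exact Complex.norm_exp_ofReal_mul_I _
  rw [e4, norm_mul, e5, one_mul]
  calc l ^ k * _ ≤ l ^ k * (Real.exp (2 * Real.pi * (|K2| * k)) *
        (3 ^ k * ∏ i, w (th k j m x t i))) := by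
        gcongr
    _ = _ := by ring

end Pool.Agent.V5helper63.RH
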