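import Mathlib
import Pool.Agent.V5helper63.RH.C
set_option autoImplicit false

/-! Counting the cubes by their frequencies. -/

namespace Pool.Agent.V5helper63.RH

open MeasureTheory Set Complex
open scoped ENNReal NNReal

lemma psi_pos_of {k : ℕ} (y : Fin k → ℝ) (hy : ∑ i, y i ^ 2 < 1) : 0 < psi y := by
  unfold psi
  exact Real.sqrt_pos.mpr (by linarith)

/-- the gradient map expands distances -/
lemma expand {k : ℕ} (y y' : Fin k → ℝ) (hy : ∑ i, y i ^ 2 < 1) (hy' : ∑ i, y' i ^ 2 < 1) :
    ∑ i, (y i - y' i) ^ 2 ≤ ∑ i, (y i / psi y - y' i / psi y') ^ 2 := by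
  have hS := psi_pos_of y hy
  have hS' := psi_pos_of y' hy'
  set A := ∑ i, y i ^ 2 with hA
  set B := ∑ i, y' i ^ 2 with hB
  set D := ∑ i, y i * y' i with hD
  have hA0 : 0 ≤ A := Finset.sum_nonneg fun _ _ => sq_nonneg _
  have hB0 : 0 ≤ B := Finset.sum_nonneg fun _ _ => sq_nonneg _
  have hp : psi y ^ 2 = 1 - A := Real.sq_sqrt (by linarith)
  have hp' : psi y' ^ 2 = 1 - B := Real.sq_sqrt (by linarith)
  set a := 1 / psi y with ha
  set b := 1 / psi y' with hb
  have ha0 : 0 < a := by positivity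
  have hb0 : 0 < b := by positivity
  have h1 : ∑ i, (y i - y' i) ^ 2 = A + B - 2 * D := by
    rw [hA, hB, hD, Finset.mul_sum, ← Finset.sum_add_distrib, ← Finset.sum_sub_distrib]
    exact Finset.sum_congr rfl fun i _ => by ring
  have h2 : ∑ i, (y i / psi y - y' i / psi y') ^ 2 = a ^ 2 * A + b ^ 2 * B - 2 * (a * b) * D := by
    rw [hA, hB, hD, Finset.mul_sum, Finset.mul_sum, Finset.mul_sum, ← Finset.sum_add_distrib,
      ← Finset.sum_sub_distrib]
    exact Finset.sum_congr rfl fun i _ => by rw [ha, hb]; ring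
  rw [h1, h2]
  have hcs : D ^ 2 ≤ A * B := Finset.sum_mul_sq_le_sq_mul_sq _ _ _
  set r := Real.sqrt A with hr
  set s := Real.sqrt B with hs
  have hr0 : 0 ≤ r := Real.sqrt_nonneg _
  have hs0 : 0 ≤ s := Real.sqrt_nonneg _
  have hr2 : r ^ 2 = A := Real.sq_sqrt hA0
  have hs2 : s ^ 2 = B := Real.sq_sqrt hB0
  have hDrs : D ≤ r * s := by
    have : D ^ 2 ≤ (r * s) ^ 2 := by rw [mul_pow, hr2, hs2]; exact hcs
    exact abs_le_of_sq_le_sq' this (by positivity) |>.2
  have hpy1 : psi y ≤ 1 := by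
    unfold psi; exact Real.sqrt_le_one.mpr (by linarith)
  have hpy1' : psi y' ≤ 1 := by
    unfold psi; exact Real.sqrt_le_one.mpr (by linarith)
  have ha1 : 1 ≤ a := by rw [ha]; exact one_le_one_div hS hpy1
  have hb1 : 1 ≤ b := by rw [hb]; exact one_le_one_div hS' hpy1'
  have hab : 1 ≤ a * b := by nlinarith
  -- radial monotonicity
  have hrad : (r - s) ^ 2 ≤ (a * r - b * s) ^ 2 := by
    rcases le_total s r with h | h
    · have hAB : B ≤ A := by rw [← hr2, ← hs2]; exact pow_le_pow_left₀ hs0 h 2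
      have hpp : psi y ≤ psi y' := by
        unfold psi
        exact Real.sqrt_le_sqrt (by linarith)
      have hba : b ≤ a := by rw [ha, hb]; exact one_div_le_one_div_of_le hS hpp
      apply pow_le_pow_left₀ (by linarith)
      nlinarith
    · have hAB : A ≤ B := by rw [← hr2, ← hs2]; exact pow_le_pow_left₀ hr0 h 2
      have hpp : psi y' ≤ psi y := by
        unfold psi
        exact Real.sqrt_le_sqrt (by linarith)
      have hba : a ≤ b := by rw [ha, hb]; exact one_div_le_one_div_of_le hS' hpp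
      rw [← neg_sq (r - s), ← neg_sq (a * r - b * s)]
      apply pow_le_pow_left₀ (by linarith)
      nlinarith
  nlinarith [mul_nonneg (sub_nonneg.mpr hab) (sub_nonneg.mpr hDrs)]

/-- bound for w through the floor -/
noncomputable def W (p : ℝ) (n : ℤ) : ℝ := (2 * (1 + |(n : ℝ)|)⁻¹) ^ p

lemma W_nonneg (p : ℝ) (n : ℤ) : 0 ≤ W p n := by unfold W; positivity

lemma w_le_W {p : ℝ} (hp : 0 ≤ p) (θ : ℝ) : w θ ^ p ≤ W p ⌊θ⌋ := by
  unfold w W
  apply Real.rpow_le_rpow (by positivity) _ hp
  rw [← div_eq_mul_inv, inv_eq_one_div, div_le_div_iff₀ (by positivity) (by positivity)]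
  have h1 := Int.floor_le θ
  have h2 := Int.lt_floor_add_one θ
  have h3 : |(⌊θ⌋ : ℝ)| ≤ |θ| + 1 := by
    rw [abs_le]
    constructor
    · have := neg_abs_le θ
      linarith
    · have := le_abs_self θ
      linarith
  have := abs_nonneg θ
  linarith

lemma W_summable {p : ℝ} (hp : 1 < p) : Summable (W p) := by
  have h1 : Summable fun n : ℤ => (2 : ℝ) ^ p * (|(n : ℝ)| ^ p)⁻¹ := by
    have := (Real.summable_one_div_int_pow (p := 2)).mpr (by norm_num)
    refine Summable.mul_left _ ?_
    have h2 := Real.summable_abs_int_rpow (b := p) hp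
    refine h2.congr fun n => ?_
    rw [Real.rpow_neg (abs_nonneg _)]
  have h3 : ∀ n : ℤ, n ∉ ({0} : Set ℤ) → W p n ≤ (2 : ℝ) ^ p * (|(n : ℝ)| ^ p)⁻¹ := by
    intro n hn
    unfold W
    rw [Real.mul_rpow (by norm_num) (by positivity), Real.inv_rpow (by positivity)]
    have hn' : 0 < |(n : ℝ)| := by
      rw [abs_pos]
      exact_mod_cast hn
    gcongr
    linarith
  have h4 : Summable fun n : ℤ => (2 : ℝ) ^ p * (|(n : ℝ)| ^ p)⁻¹ + if n = 0 then W p 0 else 0 :=
    h1.add (summable_of_ne_finset_zero (s := {0}) fun n hn => if_neg (by simpa using hn))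
  refine Summable.of_nonneg_of_le (W_nonneg p) (fun n => ?_) h4
  by_cases hn : n = 0
  · subst hn
    simp only [if_true]
    have : 0 ≤ (2 : ℝ) ^ p * (|((0 : ℤ) : ℝ)| ^ p)⁻¹ := by positivity
    linarith
  · rw [if_neg hn, add_zero]
    exact h3 n hn

lemma card_near (N : ℕ) (b D : ℝ) (hD : 0 ≤ D) :
    ((Finset.univ.filter fun a : Fin N => |((a : ℕ) : ℝ) - b| ≤ D).card : ℝ) ≤ 2 * D + 1 := by
  have h1 : (Finset.univ.filter fun a : Fin N => |((a : ℕ) : ℝ) - b| ≤ D).card ≤
      (Finset.Icc ⌈b - D⌉ ⌊b + D⌋).card := by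
    apply Finset.card_le_card_of_injOn (fun a : Fin N => ((a : ℕ) : ℤ))
    · intro a ha
      simp only [Finset.coe_filter, Finset.mem_univ, true_and, mem_ofPred_eq] at ha
      rw [abs_le] at ha
      simp only [Finset.coe_Icc, mem_Icc]
      constructor
      · rw [Int.ceil_le]
        push_cast
        linarith [ha.1]
      · rw [Int.le_floor]
        push_cast
        linarith [ha.2]
    · intro a _ a' _ h
      simp only [Nat.cast_inj] at h
      exact Fin.ext h
  have h2 : ((Finset.Icc ⌈b - D⌉ ⌊b + D⌋).card : ℝ) ≤ 2 * D + 1 := by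
    rw [Int.card_Icc]
    have h3 := Int.floor_le (b + D)
    have h4 := Int.le_ceil (b - D)
    rcases le_or_gt 0 (⌊b + D⌋ + 1 - ⌈b - D⌉) with h | h
    · have : (((⌊b + D⌋ + 1 - ⌈b - D⌉).toNat : ℤ) : ℝ) = ((⌊b + D⌋ + 1 - ⌈b - D⌉ : ℤ) : ℝ) := by
        rw [Int.toNat_of_nonneg h]
      have h5 : (((⌊b + D⌋ + 1 - ⌈b - D⌉).toNat : ℝ)) = ((⌊b + D⌋ + 1 - ⌈b - D⌉ : ℤ) : ℝ) := by
        rw [← this]
        push_cast
        rfl
      rw [h5]
      push_cast
      linarith
    · rw [Int.toNat_of_nonpos h.le]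
      simp
      linarith
  calc _ ≤ ((Finset.Icc ⌈b - D⌉ ⌊b + D⌋).card : ℝ) := by exact_mod_cast h1
    _ ≤ _ := h2

/-- corners for `Fin` indices -/
lemma sum_sq_lt {k : ℕ} (hk : 1 ≤ k) {j : ℕ} {m : Fin k → ℕ} (hm : ∀ i, m i < 2 ^ j) :
    ∑ i, cor k j m i ^ 2 < 1 := by
  have hk1 : (1 : ℝ) ≤ k := by exact_mod_cast hk
  calc ∑ i, cor k j m i ^ 2 ≤ ∑ _i : Fin k, (1 / (4 * k : ℝ)) ^ 2 :=
        Finset.sum_le_sum fun i _ => pow_le_pow_left₀ (cor_bd hk hm i).1 (cor_bd hk hm i).2 2
    _ = k * (1 / (4 * k : ℝ)) ^ 2 := by simp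
    _ = 1 / (16 * k) := by field_simp; norm_num
    _ < 1 := by
      rw [div_lt_one (by positivity)]
      linarith

theorem count (k : ℕ) (hk : 1 ≤ k) (p : ℝ) (hp : 1 < p) : ∃ C : ℝ, 0 < C ∧ ∀ (j : ℕ)
    (x : Fin k → ℝ) (t : ℝ), 0 < |t| → |t| * side k j ^ 2 ≤ 1 →
    ∑ m : Fin k → Fin (2 ^ j), ∏ i, w (th k j (fun i => m i) x t i) ^ p ≤
      C * (|t| * side k j ^ 2)⁻¹ ^ k := by
  classical
  set Sp : ℝ := ∑' n, W p n with hSp
  have hSp0 : 0 < Sp := (W_summable hp).tsum_pos (W_nonneg p) 0 (by unfold W; positivity)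
  refine ⟨((2 * Real.sqrt k + 1) ^ k) * Sp ^ k, by positivity, fun j x t ht0 ht => ?_⟩
  have hs := side_pos hk j
  set τ : ℝ := |t| * side k j ^ 2 with hτ
  have hτ0 : 0 < τ := by positivity
  set D : ℝ := Real.sqrt k / τ with hD
  have hD0 : 0 ≤ D := by positivity
  set g : (Fin k → Fin (2 ^ j)) → (Fin k → ℤ) := fun m i => ⌊th k j (fun i => m i) x t i⌋ with hg
  have hfib : ∀ n : Fin k → ℤ,
      ((Finset.univ.filter fun m : Fin k → Fin (2 ^ j) => g m = n).card : ℝ) ≤ (2 * D + 1) ^ k := by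
    intro n
    rcases (Finset.univ.filter fun m : Fin k → Fin (2 ^ j) => g m = n).eq_empty_or_nonempty with h | h
    · rw [h]
      simp only [Finset.card_empty, Nat.cast_zero]
      positivity
    · obtain ⟨m', hm'⟩ := h
      rw [Finset.mem_filter] at hm'
      have hsub : (Finset.univ.filter fun m : Fin k → Fin (2 ^ j) => g m = n) ⊆
          Fintype.piFinset fun i => Finset.univ.filter fun a : Fin (2 ^ j) =>
            |((a : ℕ) : ℝ) - ((m' i : ℕ) : ℝ)| ≤ D := by
        intro m hm
        rw [Finset.mem_filter] at hm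
        rw [Fintype.mem_piFinset]
        intro i
        rw [Finset.mem_filter]
        refine ⟨Finset.mem_univ _, ?_⟩
        have hclose : ∀ i, |th k j (fun i => m i) x t i - th k j (fun i => m' i) x t i| ≤ 1 := by
          intro i
          have e := congrFun (hm.2.trans hm'.2.symm) i
          simp only [hg] at e
          exact (Int.abs_sub_lt_one_of_floor_eq_floor e).le
        set y := cor k j (fun i => m i) with hy
        set y' := cor k j (fun i => m' i) with hy'
        have hexp := expand y y' (sum_sq_lt hk fun i => (m i).2) (sum_sq_lt hk fun i => (m' i).2)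
        have hdiff : ∀ i, th k j (fun i => m i) x t i - th k j (fun i => m' i) x t i =
            -(2 * Real.pi * side k j * t) * (y i / psi y - y' i / psi y') := by
          intro i
          unfold th
          ring
        have hsum : (2 * Real.pi * side k j * |t|) ^ 2 * ∑ i, (y i / psi y - y' i / psi y') ^ 2 ≤ k := by
          rw [Finset.mul_sum]
          calc ∑ i, (2 * Real.pi * side k j * |t|) ^ 2 * (y i / psi y - y' i / psi y') ^ 2
              ≤ ∑ _i : Fin k, (1 : ℝ) := by
                refine Finset.sum_le_sum fun i _ => ?_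
                have h3 := hclose i
                rw [hdiff] at h3
                have h4 := (sq_le_one_iff_abs_le_one _).mpr h3
                calc _ = (-(2 * Real.pi * side k j * t) * (y i / psi y - y' i / psi y')) ^ 2 := by
                      rw [mul_pow _ |t|, sq_abs]
                      ring
                  _ ≤ 1 := h4
            _ = k := by simp
        have hone : (y i - y' i) ^ 2 ≤ ∑ i, (y i - y' i) ^ 2 :=
          Finset.single_le_sum (f := fun i => (y i - y' i) ^ 2) (fun _ _ => sq_nonneg _)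
            (Finset.mem_univ i)
        have hyy : y i - y' i = side k j * (((m i : ℕ) : ℝ) - ((m' i : ℕ) : ℝ)) := by
          rw [hy, hy']
          unfold cor
          ring
        have hfin : (((m i : ℕ) : ℝ) - ((m' i : ℕ) : ℝ)) ^ 2 ≤ D ^ 2 := by
          rw [hD, div_pow, Real.sq_sqrt (Nat.cast_nonneg k), le_div_iff₀ (by positivity), hτ]
          have h6 : (side k j * |t|) ^ 2 * (side k j * (((m i : ℕ) : ℝ) - ((m' i : ℕ) : ℝ))) ^ 2 ≤
              (k : ℝ) := by
            rw [← hyy]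
            calc (side k j * |t|) ^ 2 * (y i - y' i) ^ 2
                ≤ (2 * Real.pi * side k j * |t|) ^ 2 * ∑ i, (y i / psi y - y' i / psi y') ^ 2 := by
                  gcongr
                  · have : 1 ≤ 2 * Real.pi := by linarith [Real.pi_gt_three]
                    calc side k j = 1 * side k j := (one_mul _).symm
                      _ ≤ 2 * Real.pi * side k j := by gcongr
                  · exact hone.trans hexp
              _ ≤ (k : ℝ) := hsum
          calc _ = (side k j * |t|) ^ 2 * (side k j * (((m i : ℕ) : ℝ) - ((m' i : ℕ) : ℝ))) ^ 2 := by ring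
            _ ≤ (k : ℝ) := h6
        exact abs_le_of_sq_le_sq hfin hD0
      calc ((Finset.univ.filter fun m : Fin k → Fin (2 ^ j) => g m = n).card : ℝ)
          ≤ ((Fintype.piFinset fun i => Finset.univ.filter fun a : Fin (2 ^ j) =>
            |((a : ℕ) : ℝ) - ((m' i : ℕ) : ℝ)| ≤ D).card : ℝ) := by
              exact_mod_cast Finset.card_le_card hsub
        _ = ∏ i, ((Finset.univ.filter fun a : Fin (2 ^ j) =>
            |((a : ℕ) : ℝ) - ((m' i : ℕ) : ℝ)| ≤ D).card : ℝ) := by
              rw [Fintype.card_piFinset]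
              push_cast
              rfl
        _ ≤ ∏ _i : Fin k, (2 * D + 1) :=
              Finset.prod_le_prod (fun _ _ => by positivity) fun i _ => card_near _ _ _ hD0
        _ = (2 * D + 1) ^ k := by simp
  have hA : ∑ m : Fin k → Fin (2 ^ j), ∏ i, w (th k j (fun i => m i) x t i) ^ p ≤
      ∑ m : Fin k → Fin (2 ^ j), (fun n : Fin k → ℤ => ∏ i, W p (n i)) (g m) := by
    refine Finset.sum_le_sum fun m _ => ?_
    refine Finset.prod_le_prod (fun i _ => Real.rpow_nonneg (w_pos _).le _) fun i _ => ?_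
    exact w_le_W (by linarith) _
  rw [Finset.sum_comp (fun n : Fin k → ℤ => ∏ i, W p (n i)) g] at hA
  refine hA.trans ?_
  set T : Finset ℤ := Finset.univ.biUnion fun i : Fin k =>
    (Finset.univ : Finset (Fin k → Fin (2 ^ j))).image fun m => g m i with hT
  have hB : ∑ n ∈ Finset.univ.image g, ∏ i, W p (n i) ≤ Sp ^ k := by
    calc ∑ n ∈ Finset.univ.image g, ∏ i, W p (n i)
        ≤ ∑ n ∈ Fintype.piFinset (fun _ : Fin k => T), ∏ i, W p (n i) := by
          refine Finset.sum_le_sum_of_subset_of_nonneg ?_ fun _ _ _ =>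
            Finset.prod_nonneg fun _ _ => W_nonneg _ _
          intro n hn
          rw [Finset.mem_image] at hn
          obtain ⟨m, _, rfl⟩ := hn
          rw [Fintype.mem_piFinset]
          intro i
          rw [hT, Finset.mem_biUnion]
          exact ⟨i, Finset.mem_univ _, Finset.mem_image_of_mem _ (Finset.mem_univ m)⟩
      _ = ∏ _i : Fin k, ∑ n ∈ T, W p n := (Finset.prod_univ_sum _ _).symm
      _ ≤ ∏ _i : Fin k, Sp := Finset.prod_le_prod
          (fun _ _ => Finset.sum_nonneg fun _ _ => W_nonneg _ _)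
          fun _ _ => (W_summable hp).sum_le_tsum _ fun _ _ => W_nonneg _ _
      _ = Sp ^ k := by simp
  calc ∑ n ∈ Finset.univ.image g, (Finset.univ.filter fun m => g m = n).card •
        ∏ i, W p (n i)
      ≤ ∑ n ∈ Finset.univ.image g, (2 * D + 1) ^ k * ∏ i, W p (n i) := by
        refine Finset.sum_le_sum fun n _ => ?_
        rw [nsmul_eq_mul]
        exact mul_le_mul_of_nonneg_right (hfib n) (Finset.prod_nonneg fun _ _ => W_nonneg _ _)
    _ = (2 * D + 1) ^ k * ∑ n ∈ Finset.univ.image g, ∏ i, W p (n i) := by rw [Finset.mul_sum]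
    _ ≤ ((2 * Real.sqrt k + 1) * τ⁻¹) ^ k * Sp ^ k := by
        have hle : 2 * D + 1 ≤ (2 * Real.sqrt k + 1) * τ⁻¹ := by
          rw [hD]
          have : 1 ≤ τ⁻¹ := (one_le_inv₀ hτ0).mpr ht
          calc 2 * (Real.sqrt k / τ) + 1 ≤ 2 * (Real.sqrt k / τ) + τ⁻¹ := by linarith
            _ = (2 * Real.sqrt k + 1) * τ⁻¹ := by field_simp
        exact mul_le_mul (pow_le_pow_left₀ (by positivity) hle k) hB
          (Finset.sum_nonneg fun _ _ => Finset.prod_nonneg fun _ _ => W_nonneg _ _) (by positivity)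
    _ = _ := by rw [mul_pow]; ring

end Pool.Agent.V5helper63.RH
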