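import Mathlib
import Pool.Agent.V5helper63.RH.C
set_option autoImplicit false

/-! Plancherel on slices, and refinement of dyadic cubes. -/

namespace Pool.Agent.V5helper63.RH

open MeasureTheory Set Complex
open scoped ENNReal NNReal FourierTransform RealInnerProductSpace

abbrev EE (k : ℕ) := EuclideanSpace ℝ (Fin k)

lemma emb_ofLp (n : ℕ) : MeasurableEmbedding (@WithLp.ofLp 2 (Fin n → ℝ)) :=
  (MeasurableEquiv.toLp 2 (Fin n → ℝ)).symm.measurableEmbedding

lemma emb_toLp (n : ℕ) : MeasurableEmbedding (@WithLp.toLp 2 (Fin n → ℝ)) :=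
  (MeasurableEquiv.toLp 2 (Fin n → ℝ)).measurableEmbedding

/-- Plancherel for the slices of the Fourier transform of a measurable set of finite measure -/
lemma slice {k : ℕ} {S : Set (Fin k → ℝ)} (hS : MeasurableSet S) (hf : volume S < ∞) (t : ℝ) :
    ∫⁻ x : Fin k → ℝ, ‖∫ z in S, ee (x, t) z‖ₑ ^ 2 = volume S := by
  set g : EE k → ℂ := fun z => (WithLp.ofLp ⁻¹' S).indicator
    (fun z => cexp (-(2 * Real.pi * I) * ((psi z.ofLp * t : ℝ) : ℂ))) z with hg
  have hSm : MeasurableSet (WithLp.ofLp ⁻¹' S : Set (EE k)) := (emb_ofLp k).measurable hS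
  have hvol : volume (WithLp.ofLp ⁻¹' S : Set (EE k)) = volume S :=
    (PiLp.volume_preserving_ofLp (Fin k)).measure_preimage_emb (emb_ofLp k) S
  have hnorm : ∀ z, ‖g z‖ = (WithLp.ofLp ⁻¹' S : Set (EE k)).indicator (fun _ => (1 : ℝ)) z := by
    intro z
    rw [hg]
    by_cases hz : z ∈ (WithLp.ofLp ⁻¹' S : Set (EE k))
    · simp only [indicator_of_mem hz]
      rw [show (-(2 * Real.pi * I) * ((psi z.ofLp * t : ℝ) : ℂ)) =
        ((-(2 * Real.pi) * (psi z.ofLp * t) : ℝ) : ℂ) * I by push_cast; ring]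
      exact Complex.norm_exp_ofReal_mul_I _
    · simp only [indicator_of_notMem hz, norm_zero]
  have hgm : Measurable g := by
    refine Measurable.indicator ?_ hSm
    unfold psi
    fun_prop
  have hle : ∀ z, ‖g z‖ ≤ 1 := by
    intro z
    rw [hnorm]
    exact indicator_le_self' (fun _ _ => zero_le_one) z |>.trans le_rfl
  have h1 : Integrable g := by
    have : Integrable ((WithLp.ofLp ⁻¹' S : Set (EE k)).indicator fun _ => (1 : ℝ)) :=
      (integrable_indicator_iff hSm).mpr (integrableOn_const (by rw [hvol]; exact hf.ne))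
    refine this.mono' hgm.aestronglyMeasurable (Filter.Eventually.of_forall fun z => ?_)
    rw [hnorm]
  have h2 : MemLp g 2 := by
    refine (memLp_two_iff_integrable_sq_norm hgm.aestronglyMeasurable).mpr ?_
    refine h1.norm.mono' (by fun_prop) (Filter.Eventually.of_forall fun z => ?_)
    rw [norm_pow, norm_norm, sq]
    calc ‖g z‖ * ‖g z‖ ≤ ‖g z‖ * 1 := by gcongr; exact hle z
      _ = ‖g z‖ := mul_one _
  have hpl := Pool.Agent.H153R4.plancherel g h1 h2
  have e1 : ∀ x : Fin k → ℝ, ∫ z in S, ee (x, t) z = 𝓕 g (WithLp.toLp 2 x) := by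
    intro x
    rw [Real.fourier_eq', ← integral_indicator hS,
      ← (PiLp.volume_preserving_ofLp (Fin k)).integral_comp (emb_ofLp k)]
    refine integral_congr_ae (Filter.Eventually.of_forall fun z => ?_)
    by_cases hz : z.ofLp ∈ S
    · have hz' : z ∈ (WithLp.ofLp ⁻¹' S : Set (EE k)) := hz
      simp only [hg, indicator_of_mem hz, indicator_of_mem hz', smul_eq_mul]
      unfold ee
      rw [← Complex.exp_add]
      congr 1
      have : ⟪z, (WithLp.toLp 2 x : EE k)⟫ = ∑ i, z.ofLp i * x i := by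
        rw [PiLp.inner_apply]
        refine Finset.sum_congr rfl fun i _ => ?_
        simp [mul_comm]
      rw [this]
      unfold psi
      push_cast
      ring
    · have hz' : z ∉ (WithLp.ofLp ⁻¹' S : Set (EE k)) := hz
      simp only [hg, indicator_of_notMem hz, indicator_of_notMem hz', smul_eq_mul, mul_zero]
  simp only [e1]
  rw [(PiLp.volume_preserving_toLp (Fin k)).lintegral_comp_emb (emb_toLp k)
    (fun ξ => ‖𝓕 g ξ‖ₑ ^ 2), hpl]
  have e2 : ∀ z, ‖g z‖ₑ ^ 2 = (WithLp.ofLp ⁻¹' S : Set (EE k)).indicator 1 z := by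
    intro z
    rw [← ofReal_norm, hnorm]
    by_cases hz : z ∈ (WithLp.ofLp ⁻¹' S : Set (EE k))
    · simp [indicator_of_mem hz]
    · simp [indicator_of_notMem hz]
  rw [lintegral_congr e2, lintegral_indicator_one hSm, hvol]

/-! ### refinement -/

/-- parent index -/
def par {k j : ℕ} (m : Fin k → Fin (2 ^ (j + 1))) : Fin k → Fin (2 ^ j) :=
  fun i => ⟨(m i : ℕ) / 2, by
    have h1 := (m i).2
    have h2 : 2 ^ (j + 1) = 2 ^ j * 2 := pow_succ 2 j
    omega⟩

/-- children -/
def ch {k j : ℕ} (m : Fin k → Fin (2 ^ j)) : Finset (Fin k → Fin (2 ^ (j + 1))) :=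
  Finset.univ.filter fun m' => par m' = m

/-- the cube with `Fin` indices -/
def cu {k j : ℕ} (m : Fin k → Fin (2 ^ j)) : Set (Fin k → ℝ) := cube k j fun i => m i

lemma cu_disj {k : ℕ} (hk : 1 ≤ k) {j : ℕ} {m m' : Fin k → Fin (2 ^ j)} (h : m ≠ m') :
    Disjoint (cu m) (cu m') := by
  rw [Set.disjoint_left]
  intro z hz hz'
  apply h
  funext i
  have h1 := hz i
  have h2 := hz' i
  have hs := side_pos hk j
  have h3 : ((m i : ℕ) : ℝ) < ((m' i : ℕ) : ℝ) + 1 := by
    by_contra hc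
    push Not at hc
    have := mul_le_mul_of_nonneg_right hc hs.le
    linarith [h1.1, h2.2]
  have h4 : ((m' i : ℕ) : ℝ) < ((m i : ℕ) : ℝ) + 1 := by
    by_contra hc
    push Not at hc
    have := mul_le_mul_of_nonneg_right hc hs.le
    linarith [h2.1, h1.2]
  have h5 : (m i : ℕ) < (m' i : ℕ) + 1 := by exact_mod_cast h3
  have h6 : (m' i : ℕ) < (m i : ℕ) + 1 := by exact_mod_cast h4
  apply Fin.ext
  omega

lemma cu_union {k : ℕ} (hk : 1 ≤ k) {j : ℕ} (m : Fin k → Fin (2 ^ j)) :
    cu m = ⋃ m' ∈ ch m, cu m' := by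
  have hs := side_pos hk (j + 1)
  have hs2 := side_succ k j
  ext z
  simp only [mem_iUnion, exists_prop]
  constructor
  · intro hz
    have hb : ∀ i, 2 * (m i : ℕ) ≤ ⌊z i / side k (j + 1)⌋₊ ∧
        ⌊z i / side k (j + 1)⌋₊ < 2 * (m i : ℕ) + 2 := by
      intro i
      have h1 := hz i
      constructor
      · apply Nat.le_floor
        rw [le_div_iff₀ hs, hs2]
        push_cast
        linarith [h1.1]
      · have : z i / side k (j + 1) < ((2 * (m i : ℕ) + 2 : ℕ) : ℝ) := by
          rw [div_lt_iff₀ hs, hs2]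
          push_cast
          linarith [h1.2]
        have h0 : 0 ≤ z i / side k (j + 1) := by
          apply div_nonneg _ hs.le
          have := side_pos hk j
          exact le_trans (by positivity) h1.1
        exact (Nat.floor_lt h0).mpr this
    refine ⟨fun i => ⟨⌊z i / side k (j + 1)⌋₊, ?_⟩, ?_, ?_⟩
    · have h1 := (hb i).2
      have h2 := (m i).2
      rw [pow_succ]
      omega
    · rw [ch, Finset.mem_filter]
      refine ⟨Finset.mem_univ _, ?_⟩
      funext i
      apply Fin.ext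
      simp only [par]
      have := hb i
      omega
    · intro i
      simp only
      have h0 : 0 ≤ z i / side k (j + 1) := by
        apply div_nonneg _ hs.le
        have := side_pos hk j
        exact le_trans (by positivity) (hz i).1
      constructor
      · rw [← le_div_iff₀ hs]
        exact Nat.floor_le h0
      · rw [← div_lt_iff₀ hs]
        exact Nat.lt_floor_add_one _
  · rintro ⟨m', hm', hz⟩ i
    rw [ch, Finset.mem_filter] at hm'
    have h1 := hz i
    have h2 : ((m' i : ℕ) / 2) = (m i : ℕ) := by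
      have := congrFun hm'.2 i
      have := congrArg Fin.val this
      exact this
    have h3 : 2 * (m i : ℕ) ≤ (m' i : ℕ) := by omega
    have h4 : (m' i : ℕ) + 1 ≤ 2 * (m i : ℕ) + 2 := by omega
    have h3' : 2 * ((m i : ℕ) : ℝ) ≤ ((m' i : ℕ) : ℝ) := by exact_mod_cast h3
    have h4' : ((m' i : ℕ) : ℝ) + 1 ≤ 2 * ((m i : ℕ) : ℝ) + 2 := by exact_mod_cast h4
    have h5 := mul_le_mul_of_nonneg_right h3' hs.le
    have h6 := mul_le_mul_of_nonneg_right h4' hs.le
    rw [hs2] at h1 h5 h6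
    constructor
    · linarith [h1.1]
    · linarith [h1.2]

lemma cu_meas {k j : ℕ} (m : Fin k → Fin (2 ^ j)) : MeasurableSet (cu m) := cube_meas _ _ _

lemma int_ch {k : ℕ} (hk : 1 ≤ k) {j : ℕ} (m : Fin k → Fin (2 ^ j)) {f : (Fin k → ℝ) → ℂ}
    (hf : IntegrableOn f (cu m)) : ∫ z in cu m, f z = ∑ m' ∈ ch m, ∫ z in cu m', f z := by
  have hsub : ∀ m' ∈ ch m, cu m' ⊆ cu m := by
    intro m' hm'
    rw [cu_union hk m]
    exact subset_biUnion_of_mem (u := fun m' => cu m') hm'
  have h := integral_biUnion_finset (μ := volume) (f := f) (ch m) (s := fun m' => cu m')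
    (fun m' _ => cu_meas m') (fun m' _ m'' _ h => cu_disj hk h)
    (fun m' hm' => hf.mono_set (hsub m' hm'))
  rw [← cu_union hk m] at h
  exact h

/-- the Fourier transform of a cube, `Fin` indices -/
noncomputable def G1 {k j : ℕ} (m : Fin k → Fin (2 ^ j)) (ξ : (Fin k → ℝ) × ℝ) : ℂ :=
  ∫ z in cu m, ee ξ z

lemma G1_eq {k j : ℕ} (m : Fin k → Fin (2 ^ j)) (ξ : (Fin k → ℝ) × ℝ) :
    G1 m ξ = F1 k j (fun i => m i) ξ := rfl

lemma ee_int {k : ℕ} (hk : 1 ≤ k) (j : ℕ) (m : Fin k → ℕ) (ξ : (Fin k → ℝ) × ℝ) :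
    IntegrableOn (ee ξ) (cube k j m) := by
  refine Measure.integrableOn_of_bounded (M := 1) (cube_fin hk j m).ne
    (ee_cont' ξ).aestronglyMeasurable ?_
  exact Filter.Eventually.of_forall fun z => (ee_norm ξ z).le

lemma G1_ch {k : ℕ} (hk : 1 ≤ k) {j : ℕ} (m : Fin k → Fin (2 ^ j)) (ξ : (Fin k → ℝ) × ℝ) :
    G1 m ξ = ∑ m' ∈ ch m, G1 m' ξ := int_ch hk m (ee_int hk _ _ ξ)

lemma G1_norm_le {k : ℕ} (hk : 1 ≤ k) {j : ℕ} (m : Fin k → Fin (2 ^ j)) (ξ : (Fin k → ℝ) × ℝ) :
    ‖G1 m ξ‖ ≤ side k j ^ k := by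
  have h := norm_setIntegral_le_of_norm_le_const (f := ee ξ) (C := 1) (s := cu m) (μ := volume)
    (cube_fin hk j _) (fun z _ => (ee_norm ξ z).le)
  rw [one_mul] at h
  refine h.trans (le_of_eq ?_)
  unfold cu Measure.real
  rw [cube_vol hk, ENNReal.toReal_ofReal (pow_nonneg (side_pos hk j).le _)]

lemma G1_cont {k : ℕ} (hk : 1 ≤ k) {j : ℕ} (m : Fin k → Fin (2 ^ j)) : Continuous (G1 m) := by
  unfold G1
  have hfin : IsFiniteMeasure (volume.restrict (cu m)) :=
    ⟨by rw [Measure.restrict_apply_univ]; exact cube_fin hk j _⟩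
  refine continuous_of_dominated (bound := fun _ => 1) (fun ξ => ?_) (fun ξ => ?_)
    (integrable_const _) ?_
  · exact (ee_cont' ξ).aestronglyMeasurable
  · exact Filter.Eventually.of_forall fun z => (ee_norm ξ z).le
  · refine Filter.Eventually.of_forall fun z => ?_
    have := ee_cont (k := k)
    exact this.comp (by fun_prop : Continuous fun ξ : (Fin k → ℝ) × ℝ => (ξ, z))

end Pool.Agent.V5helper63.RH
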