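import Mathlib
import Pool.Agent.V5helper63.RH.D
import Pool.Agent.V5helper63.RH.E1
set_option autoImplicit false

/-! Bounds for the square functions of one generation. -/

namespace Pool.Agent.V5helper63.RH

open MeasureTheory Set Complex
open scoped ENNReal NNReal

/-- square function of generation `j` -/
noncomputable def NN (k j : ℕ) (ξ : (Fin k → ℝ) × ℝ) : ℝ :=
  ∑ m : Fin k → Fin (2 ^ j), ‖G1 m ξ‖ ^ 2

lemma NN_nonneg (k j : ℕ) (ξ : (Fin k → ℝ) × ℝ) : 0 ≤ NN k j ξ :=
  Finset.sum_nonneg fun _ _ => by positivity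

lemma NN_cont {k : ℕ} (hk : 1 ≤ k) (j : ℕ) : Continuous (NN k j) := by
  unfold NN
  exact continuous_finsetSum _ fun m _ => ((G1_cont hk m).norm.pow 2)

lemma side_le_one {k : ℕ} (hk : 1 ≤ k) (j : ℕ) : side k j ≤ 1 := by
  refine (side_le hk j).trans ?_
  have : (1:ℝ) ≤ k := by exact_mod_cast hk
  rw [div_le_one (by positivity)]
  linarith

lemma side_two_pow {k : ℕ} (hk : 1 ≤ k) (j : ℕ) : 2 ^ j * side k j ≤ 1 := by
  rw [side_eq, mul_div_cancel₀ _ (by positivity)]
  exact side_le_one hk 0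

lemma NN_small {k : ℕ} (hk : 1 ≤ k) (j : ℕ) (ξ : (Fin k → ℝ) × ℝ) :
    NN k j ξ ≤ ((1 / 2 : ℝ) ^ j) ^ k := by
  have hs := side_pos hk j
  calc NN k j ξ ≤ ∑ _m : Fin k → Fin (2 ^ j), (side k j ^ k) ^ 2 :=
        Finset.sum_le_sum fun m _ => pow_le_pow_left₀ (norm_nonneg _) (G1_norm_le hk m ξ) 2
    _ = (2 ^ j) ^ k * (side k j ^ k) ^ 2 := by simp
    _ = (2 ^ j * side k j) ^ k * side k j ^ k := by ring
    _ ≤ 1 ^ k * ((1 / 2 : ℝ) ^ j) ^ k := by
        gcongr
        · exact side_two_pow hk j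
        · rw [side_eq, one_div, inv_pow, ← one_div]
          gcongr
          exact side_le_one hk 0
    _ = _ := by rw [one_pow, one_mul]

/-- l1 sums -/
noncomputable def SN (k j : ℕ) (ξ : (Fin k → ℝ) × ℝ) : ℝ :=
  ∑ m : Fin k → Fin (2 ^ j), ‖G1 m ξ‖

lemma SN_nonneg (k j : ℕ) (ξ : (Fin k → ℝ) × ℝ) : 0 ≤ SN k j ξ :=
  Finset.sum_nonneg fun _ _ => by positivity

lemma SN_succ {k : ℕ} (hk : 1 ≤ k) (j : ℕ) (ξ : (Fin k → ℝ) × ℝ) :
    SN k j ξ ≤ SN k (j + 1) ξ := by
  unfold SN
  calc ∑ m : Fin k → Fin (2 ^ j), ‖G1 m ξ‖ ≤ ∑ m : Fin k → Fin (2 ^ j), ∑ m' ∈ ch m, ‖G1 m' ξ‖ := by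
        refine Finset.sum_le_sum fun m _ => ?_
        rw [G1_ch hk m ξ]
        exact norm_sum_le _ _
    _ = ∑ m' : Fin k → Fin (2 ^ (j + 1)), ‖G1 m' ξ‖ := by
        unfold ch
        exact Finset.sum_fiberwise _ _ _

lemma SN_mono {k : ℕ} (hk : 1 ≤ k) (ξ : (Fin k → ℝ) × ℝ) : Monotone fun j => SN k j ξ :=
  monotone_nat_of_le_succ fun j => SN_succ hk j ξ

lemma NN_le_SN {k : ℕ} (j : ℕ) (ξ : (Fin k → ℝ) × ℝ) : NN k j ξ ≤ SN k j ξ ^ 2 := by
  unfold NN SN
  exact Finset.sum_sq_le_sq_sum_of_nonneg fun _ _ => norm_nonneg _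

lemma NN_decay (k : ℕ) (hk : 1 ≤ k) (p : ℝ) (hp : 1 < p) : ∃ C : ℝ, 0 < C ∧ ∀ (j : ℕ)
    (x : Fin k → ℝ) (t : ℝ), 1 ≤ |t| → NN k j (x, t) ≤ C * |t| ^ (-(k / p : ℝ)) := by
  obtain ⟨C0, hC0, h0⟩ := F1_decay k hk
  obtain ⟨C2, hC2, h2⟩ := count k hk 2 (by norm_num)
  obtain ⟨Cp, hCp, hcp⟩ := count k hk p hp
  have hk1 : (1:ℝ) ≤ k := by exact_mod_cast hk
  have hp0 : 0 < p := by linarith
  refine ⟨C0 ^ 2 * C2 + (C0 * (Cp * 4 ^ k) ^ (1 / p)) ^ 2, by positivity, fun j x t ht => ?_⟩
  have ht0 : 0 < |t| := by linarith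
  have hdec : ∀ (j : ℕ) (m : Fin k → Fin (2 ^ j)), |t| * side k j ^ 2 ≤ 1 →
      ‖G1 m (x, t)‖ ≤ C0 * side k j ^ k * ∏ i, w (th k j (fun i => m i) x t i) := fun j m h =>
    h0 j (fun i => m i) (fun i => (m i).2) x t h
  have hw : ∀ (j : ℕ) (m : Fin k → Fin (2 ^ j)), 0 ≤ ∏ i, w (th k j (fun i => m i) x t i) :=
    fun j m => Finset.prod_nonneg fun i _ => (w_pos _).le
  rcases le_or_gt (|t| * side k j ^ 2) 1 with hcase | hcase
  · have hs := side_pos hk j
    have e1 : NN k j (x, t) ≤ C0 ^ 2 * C2 * |t| ^ (-(k : ℝ)) := by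
      calc NN k j (x, t) ≤ ∑ m : Fin k → Fin (2 ^ j),
            (C0 * side k j ^ k) ^ 2 * ∏ i, w (th k j (fun i => m i) x t i) ^ (2 : ℝ) := by
            refine Finset.sum_le_sum fun m _ => ?_
            calc ‖G1 m (x, t)‖ ^ 2 ≤ (C0 * side k j ^ k * ∏ i, w (th k j (fun i => m i) x t i)) ^ 2 :=
                  pow_le_pow_left₀ (norm_nonneg _) (hdec j m hcase) 2
              _ = _ := by
                rw [mul_pow, ← Finset.prod_pow]
                congr 1
                refine Finset.prod_congr rfl fun i _ => ?_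
                rw [Real.rpow_two]
        _ = (C0 * side k j ^ k) ^ 2 * ∑ m : Fin k → Fin (2 ^ j),
            ∏ i, w (th k j (fun i => m i) x t i) ^ (2 : ℝ) := by rw [Finset.mul_sum]
        _ ≤ (C0 * side k j ^ k) ^ 2 * (C2 * (|t| * side k j ^ 2)⁻¹ ^ k) := by
            gcongr
            exact h2 j x t ht0 hcase
        _ = C0 ^ 2 * C2 * |t| ^ (-(k : ℝ)) := by
            rw [Real.rpow_neg ht0.le, Real.rpow_natCast, inv_pow, mul_pow |t|, ← pow_mul, mul_pow C0,
              ← pow_mul, mul_comm 2 k]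
            field_simp
    refine e1.trans ?_
    have e2 : |t| ^ (-(k : ℝ)) ≤ |t| ^ (-(k / p : ℝ)) := by
      apply Real.rpow_le_rpow_of_exponent_le ht
      apply neg_le_neg
      exact div_le_self (by positivity) hp.le
    calc C0 ^ 2 * C2 * |t| ^ (-(k : ℝ)) ≤ C0 ^ 2 * C2 * |t| ^ (-(k / p : ℝ)) := by gcongr
      _ ≤ _ := by
        have : 0 ≤ (C0 * (Cp * 4 ^ k) ^ (1 / p)) ^ 2 * |t| ^ (-(k / p : ℝ)) := by positivity
        rw [add_mul]
        linarith
  · -- choose the finer generation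
    have hex : ∃ i, |t| * side k i ^ 2 ≤ 1 := by
      obtain ⟨i, hi⟩ := pow_unbounded_of_one_lt |t| (show (1:ℝ) < 4 by norm_num)
      refine ⟨i, ?_⟩
      rw [side_eq, div_pow, ← pow_mul, mul_comm i 2, pow_mul]
      norm_num
      rw [← mul_div_assoc, div_le_one (by positivity)]
      have h3 : side k 0 ^ 2 ≤ 1 := pow_le_one₀ (side_pos hk 0).le (side_le_one hk 0)
      calc |t| * side k 0 ^ 2 ≤ |t| * 1 := by gcongr
        _ ≤ 4 ^ i := by linarith
    classical
    set i := Nat.find hex with hi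
    have hi1 : |t| * side k i ^ 2 ≤ 1 := Nat.find_spec hex
    have hji : j ≤ i := by
      by_contra hc
      push Not at hc
      have h3 : side k j ≤ side k i := by
        rw [side_eq k j, side_eq k i]
        have := side_pos hk 0
        gcongr
        norm_num
      have : |t| * side k j ^ 2 ≤ |t| * side k i ^ 2 := by
        have := side_pos hk j
        gcongr
      linarith
    have hi0 : i ≠ 0 := by
      intro h
      rw [h] at hi1 hji
      have : j = 0 := by omega
      rw [this] at hcase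
      linarith
    obtain ⟨r, hr⟩ := Nat.exists_eq_succ_of_ne_zero hi0
    have hi2 : 1 < |t| * side k r ^ 2 := by
      have := Nat.find_min hex (m := r) (by omega)
      exact not_le.mp this
    have hi3 : (|t| * side k i ^ 2)⁻¹ ≤ 4 := by
      have e := side_succ k r
      have h4 : side k i = side k r / 2 := by rw [hr]; exact e
      rw [inv_le_comm₀ (by have := side_pos hk i; positivity) (by norm_num), h4]
      norm_num
      linarith
    have hs := side_pos hk i
    have hSN : SN k i (x, t) ≤ C0 * (Cp * 4 ^ k) ^ (1 / p) * |t| ^ (-(k / (2 * p)) : ℝ) := by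
      have e1 : SN k i (x, t) ≤ C0 * side k i ^ k * ∑ m : Fin k → Fin (2 ^ i),
          ∏ l, w (th k i (fun l => m l) x t l) := by
        rw [Finset.mul_sum]
        exact Finset.sum_le_sum fun m _ => hdec i m hi1
      have e2 : (∑ m : Fin k → Fin (2 ^ i), ∏ l, w (th k i (fun l => m l) x t l)) ^ p ≤
          ((2 : ℝ) ^ i) ^ (k * (p - 1)) * (Cp * 4 ^ k) := by
        have h5 := Real.rpow_sum_le_const_mul_sum_rpow (s := Finset.univ)
          (f := fun m : Fin k → Fin (2 ^ i) => ∏ l, w (th k i (fun l => m l) x t l)) hp.le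
        have h6 : ∀ m : Fin k → Fin (2 ^ i), |∏ l, w (th k i (fun l => m l) x t l)| =
            ∏ l, w (th k i (fun l => m l) x t l) := fun m => abs_of_nonneg (hw i m)
        simp only [h6] at h5
        refine h5.trans ?_
        have h7 : ((Finset.univ : Finset (Fin k → Fin (2 ^ i))).card : ℝ) ^ (p - 1) =
            ((2 : ℝ) ^ i) ^ (k * (p - 1)) := by
          rw [Finset.card_univ, Fintype.card_fun, Fintype.card_fin, Fintype.card_fin]
          push_cast
          rw [← Real.rpow_natCast (2 ^ i) k, ← Real.rpow_mul (by positivity)]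
        rw [h7]
        gcongr
        have h8 : ∀ m : Fin k → Fin (2 ^ i), (∏ l, w (th k i (fun l => m l) x t l)) ^ p =
            ∏ l, w (th k i (fun l => m l) x t l) ^ p := fun m =>
          (Real.finsetProd_rpow _ _ (fun l _ => (w_pos _).le) _).symm
        simp only [h8]
        refine (hcp i x t ht0 hi1).trans ?_
        gcongr
      have e3 : ∑ m : Fin k → Fin (2 ^ i), ∏ l, w (th k i (fun l => m l) x t l) ≤
          ((2 : ℝ) ^ i) ^ (k * (p - 1) / p) * (Cp * 4 ^ k) ^ (1 / p) := by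
        have h9 : 0 ≤ ∑ m : Fin k → Fin (2 ^ i), ∏ l, w (th k i (fun l => m l) x t l) :=
          Finset.sum_nonneg fun m _ => hw i m
        have h10 := Real.rpow_le_rpow (by positivity) e2 (z := 1 / p) (by positivity)
        rw [← Real.rpow_mul h9, mul_one_div_cancel hp0.ne', Real.rpow_one,
          Real.mul_rpow (by positivity) (by positivity), ← Real.rpow_mul (by positivity)] at h10
        refine h10.trans (le_of_eq ?_)
        congr 2
        ring
      have e4 : side k i ^ k * ((2 : ℝ) ^ i) ^ (k * (p - 1) / p) ≤ |t| ^ (-(k / (2 * p)) : ℝ) := by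
        have h11 : (2 : ℝ) ^ i ≤ (side k i)⁻¹ := by
          rw [le_inv_comm₀ (by positivity) hs, ← one_div, le_div_iff₀ (by positivity), mul_comm]
          exact side_two_pow hk i
        calc side k i ^ k * ((2 : ℝ) ^ i) ^ (k * (p - 1) / p)
            ≤ side k i ^ k * ((side k i)⁻¹) ^ (k * (p - 1) / p) := by
              gcongr
          _ = side k i ^ (k / p : ℝ) := by
              rw [← Real.rpow_natCast, Real.inv_rpow hs.le, ← Real.rpow_neg hs.le,
                ← Real.rpow_add hs]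
              congr 1
              field_simp
              ring
          _ = (side k i ^ 2) ^ (k / (2 * p) : ℝ) := by
              rw [← Real.rpow_natCast (side k i) 2, ← Real.rpow_mul hs.le]
              congr 1
              push_cast
              field_simp
          _ ≤ (|t|⁻¹) ^ (k / (2 * p) : ℝ) := by
              apply Real.rpow_le_rpow (by positivity) _ (by positivity)
              rw [← one_div, le_div_iff₀ ht0, mul_comm]
              exact hi1
          _ = |t| ^ (-(k / (2 * p)) : ℝ) := by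
              rw [Real.inv_rpow ht0.le, ← Real.rpow_neg ht0.le]
      calc SN k i (x, t) ≤ C0 * side k i ^ k * (((2 : ℝ) ^ i) ^ (k * (p - 1) / p) *
            (Cp * 4 ^ k) ^ (1 / p)) := e1.trans (by gcongr)
        _ = C0 * (Cp * 4 ^ k) ^ (1 / p) * (side k i ^ k * ((2 : ℝ) ^ i) ^ (k * (p - 1) / p)) := by ring
        _ ≤ _ := by gcongr
    have hfin : NN k j (x, t) ≤ (C0 * (Cp * 4 ^ k) ^ (1 / p)) ^ 2 * |t| ^ (-(k / p : ℝ)) := by
      calc NN k j (x, t) ≤ SN k j (x, t) ^ 2 := NN_le_SN j _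
        _ ≤ SN k i (x, t) ^ 2 := by
            apply pow_le_pow_left₀ (SN_nonneg _ _ _)
            exact SN_mono hk (x, t) hji
        _ ≤ (C0 * (Cp * 4 ^ k) ^ (1 / p) * |t| ^ (-(k / (2 * p)) : ℝ)) ^ 2 :=
            pow_le_pow_left₀ (SN_nonneg _ _ _) hSN 2
        _ = _ := by
            rw [mul_pow, ← Real.rpow_natCast (|t| ^ _) 2, ← Real.rpow_mul ht0.le]
            congr 2
            push_cast
            field_simp
    refine hfin.trans ?_
    have : 0 ≤ C0 ^ 2 * C2 * |t| ^ (-(k / p : ℝ)) := by positivity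
    rw [add_mul]
    linarith

lemma NN_slice {k : ℕ} (hk : 1 ≤ k) (j : ℕ) (t : ℝ) :
    ∫⁻ x : Fin k → ℝ, ENNReal.ofReal (NN k j (x, t)) ≤ 1 := by
  have e1 : ∀ x : Fin k → ℝ, ENNReal.ofReal (NN k j (x, t)) =
      ∑ m : Fin k → Fin (2 ^ j), ‖G1 m (x, t)‖ₑ ^ 2 := by
    intro x
    unfold NN
    rw [ENNReal.ofReal_sum_of_nonneg fun _ _ => by positivity]
    refine Finset.sum_congr rfl fun m _ => ?_
    rw [ENNReal.ofReal_pow (norm_nonneg _), ofReal_norm]
  simp only [e1]
  rw [lintegral_finsetSum]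
  · have e2 : ∀ m : Fin k → Fin (2 ^ j), ∫⁻ x : Fin k → ℝ, ‖G1 m (x, t)‖ₑ ^ 2 =
        ENNReal.ofReal (side k j ^ k) := by
      intro m
      unfold G1
      rw [slice (cu_meas m) (cube_fin hk j _)]
      exact cube_vol hk j _
    rw [Finset.sum_congr rfl fun m _ => e2 m, Finset.sum_const, nsmul_eq_mul, Finset.card_univ,
      Fintype.card_fun, Fintype.card_fin, Fintype.card_fin]
    have hs := side_pos hk j
    have e3 : (((2 ^ j) ^ k : ℕ) : ℝ≥0∞) = ENNReal.ofReal ((2 ^ j) ^ k) := by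
      rw [ENNReal.ofReal_pow (by positivity), ENNReal.ofReal_pow (by norm_num)]
      push_cast
      norm_num
    rw [e3, ← ENNReal.ofReal_mul (by positivity), ENNReal.ofReal_le_one, ← mul_pow]
    exact pow_le_one₀ (by positivity) (side_two_pow hk j)
  · intro m _
    have := (G1_cont hk m).comp (by fun_prop : Continuous fun x : Fin k → ℝ => (x, t))
    exact (this.measurable.enorm.pow_const 2)

end Pool.Agent.V5helper63.RH
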