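import Mathlib
import Pool.Agent.V5helper63.RH.E2
set_option autoImplicit false

/-! The square function of all the dyadic cubes. -/

namespace Pool.Agent.V5helper63.RH

open MeasureTheory Set Complex
open scoped ENNReal NNReal

lemma NN_decay' (k : ℕ) (hk : 1 ≤ k) (p : ℝ) (hp : 1 < p) : ∃ C : ℝ, 0 < C ∧ ∀ (j : ℕ)
    (x : Fin k → ℝ) (t : ℝ), NN k j (x, t) ≤ C * (1 + |t|) ^ (-(k / p : ℝ)) := by
  obtain ⟨C, hC, h⟩ := NN_decay k hk p hp
  have hp0 : 0 < p := by linarith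
  refine ⟨(C + 1) * 2 ^ (k / p : ℝ), by positivity, fun j x t => ?_⟩
  have h2 : 0 < 1 + |t| := by positivity
  have key : ∀ T : ℝ, 0 < T → (1 + |t|) / 2 ≤ T →
      T ^ (-(k / p : ℝ)) ≤ 2 ^ (k / p : ℝ) * (1 + |t|) ^ (-(k / p : ℝ)) := by
    intro T hT hle
    calc T ^ (-(k / p : ℝ)) ≤ ((1 + |t|) / 2) ^ (-(k / p : ℝ)) := by
          apply Real.rpow_le_rpow_of_nonpos (by positivity) hle
          rw [neg_nonpos]
          positivity
      _ = _ := by
          rw [Real.div_rpow h2.le (by norm_num), Real.rpow_neg (by norm_num : (0:ℝ) ≤ 2), div_inv_eq_mul,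
            mul_comm]
  rcases le_or_gt 1 |t| with ht | ht
  · calc NN k j (x, t) ≤ C * |t| ^ (-(k / p : ℝ)) := h j x t ht
      _ ≤ C * (2 ^ (k / p : ℝ) * (1 + |t|) ^ (-(k / p : ℝ))) := by
          gcongr
          exact key |t| (by linarith) (by linarith)
      _ ≤ (C + 1) * (2 ^ (k / p : ℝ) * (1 + |t|) ^ (-(k / p : ℝ))) := by
          gcongr
          linarith
      _ = _ := by ring
  · calc NN k j (x, t) ≤ ((1 / 2 : ℝ) ^ j) ^ k := NN_small hk j _
      _ ≤ 1 := pow_le_one₀ (by positivity) (pow_le_one₀ (by norm_num) (by norm_num))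
      _ = 1 * (1 : ℝ) ^ (-(k / p : ℝ)) := by rw [Real.one_rpow, one_mul]
      _ ≤ 1 * (2 ^ (k / p : ℝ) * (1 + |t|) ^ (-(k / p : ℝ))) := by
          gcongr
          exact key 1 one_pos (by linarith)
      _ ≤ (C + 1) * (2 ^ (k / p : ℝ) * (1 + |t|) ^ (-(k / p : ℝ))) := by
          gcongr
          linarith
      _ = _ := by ring

lemma NN_pow (k : ℕ) (hk : 1 ≤ k) (s : ℝ) (hs : ((k : ℝ) + 1) / k < s) :
    ∃ (C : ℝ≥0∞) (ρ : ℝ), C ≠ ∞ ∧ 0 < ρ ∧ ρ < 1 ∧
      ∀ j, ∫⁻ ξ : (Fin k → ℝ) × ℝ, ENNReal.ofReal (NN k j ξ) ^ s ≤ C * ENNReal.ofReal ρ ^ j := by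
  have hk0 : (0:ℝ) < k := by exact_mod_cast hk
  set A : ℝ := k * (s - 1) with hA
  have hA1 : 1 < A := by
    rw [div_lt_iff₀ hk0] at hs
    rw [hA]
    linarith
  have hs1 : 0 < s - 1 := by
    by_contra hc
    push Not at hc
    have : A ≤ 0 := mul_nonpos_of_nonneg_of_nonpos hk0.le hc
    linarith
  set δ : ℝ := (A - 1) / (2 * (A + 1)) with hδ
  have hδ0 : 0 < δ := by
    apply div_pos <;> linarith
  have hδ1 : δ < 1 := by
    rw [hδ, div_lt_one (by linarith)]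
    linarith
  set p : ℝ := 1 + δ with hp
  have hp1 : 1 < p := by linarith
  obtain ⟨C, hC, hdec⟩ := NN_decay' k hk p hp1
  set κ : ℝ := (k / p) * ((1 - δ) * (s - 1)) with hκ
  have hκ1 : 1 < κ := by
    have e1 : κ = A * (1 - δ) / p := by rw [hκ, hA]; ring
    rw [e1, lt_div_iff₀ (by linarith), one_mul]
    have e2 : δ * (A + 1) = (A - 1) / 2 := by
      rw [hδ]
      field_simp
    nlinarith
  set ρ : ℝ := (1 / 2 : ℝ) ^ (k * (δ * (s - 1))) with hρ
  have hρ0 : 0 < ρ := by positivity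
  have hρ1 : ρ < 1 := Real.rpow_lt_one (by norm_num) (by norm_num) (by positivity)
  set I : ℝ≥0∞ := ∫⁻ t : ℝ, ENNReal.ofReal ((1 + |t|) ^ (-κ)) with hI
  have hIfin : I ≠ ∞ := by
    have h1 : Integrable (fun t : ℝ => (1 + ‖t‖) ^ (-κ)) := integrable_one_add_norm (by simpa using hκ1)
    have h2 := h1.hasFiniteIntegral
    rw [hasFiniteIntegral_iff_ofReal (Filter.Eventually.of_forall fun t => by positivity)] at h2
    simp only [Real.norm_eq_abs] at h2
    exact h2.ne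
  refine ⟨ENNReal.ofReal (C ^ ((1 - δ) * (s - 1))) * I, ρ, ENNReal.mul_ne_top ENNReal.ofReal_ne_top hIfin,
    hρ0, hρ1, fun j => ?_⟩
  have hm : Measurable (NN k j) := (NN_cont hk j).measurable
  have hpt : ∀ (x : Fin k → ℝ) (t : ℝ), ENNReal.ofReal (NN k j (x, t)) ^ s ≤
      ENNReal.ofReal (ρ ^ j * (C ^ ((1 - δ) * (s - 1)) * (1 + |t|) ^ (-κ))) *
        ENNReal.ofReal (NN k j (x, t)) := by
    intro x t
    have hN := NN_nonneg k j (x, t)
    have hreal : NN k j (x, t) ^ s ≤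
        (ρ ^ j * (C ^ ((1 - δ) * (s - 1)) * (1 + |t|) ^ (-κ))) * NN k j (x, t) := by
      rcases hN.eq_or_lt with h0 | h0
      · rw [← h0, mul_zero, Real.zero_rpow (by linarith)]
      · have e1 : NN k j (x, t) ^ s = NN k j (x, t) ^ (δ * (s - 1)) *
            NN k j (x, t) ^ ((1 - δ) * (s - 1)) * NN k j (x, t) := by
          rw [← Real.rpow_add h0, ← Real.rpow_add_one h0.ne']
          congr 1
          ring
        rw [e1]
        gcongr
        · calc NN k j (x, t) ^ (δ * (s - 1)) ≤ (((1 / 2 : ℝ) ^ j) ^ k) ^ (δ * (s - 1)) := by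
                apply Real.rpow_le_rpow hN (NN_small hk j _) (by positivity)
            _ = ρ ^ j := by
                rw [hρ, ← Real.rpow_natCast _ j, ← Real.rpow_natCast _ j, ← Real.rpow_natCast _ k,
                  ← Real.rpow_mul (by norm_num), ← Real.rpow_mul (by norm_num),
                  ← Real.rpow_mul (by norm_num)]
                congr 1
                ring
        · calc NN k j (x, t) ^ ((1 - δ) * (s - 1)) ≤
                (C * (1 + |t|) ^ (-(k / p : ℝ))) ^ ((1 - δ) * (s - 1)) := by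
                apply Real.rpow_le_rpow hN (hdec j x t)
                exact mul_nonneg (by linarith) hs1.le
            _ = _ := by
                rw [Real.mul_rpow hC.le (by positivity), ← Real.rpow_mul (by positivity)]
                congr 2
                rw [hκ]
                ring
    rw [ENNReal.ofReal_rpow_of_nonneg hN (by linarith), ← ENNReal.ofReal_mul (by positivity)]
    exact ENNReal.ofReal_le_ofReal hreal
  rw [Measure.volume_eq_prod, lintegral_prod_symm _ (by fun_prop)]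
  calc ∫⁻ t : ℝ, ∫⁻ x : Fin k → ℝ, ENNReal.ofReal (NN k j (x, t)) ^ s
      ≤ ∫⁻ t : ℝ, ENNReal.ofReal (ρ ^ j * (C ^ ((1 - δ) * (s - 1)) * (1 + |t|) ^ (-κ))) := by
        refine lintegral_mono fun t => ?_
        calc ∫⁻ x : Fin k → ℝ, ENNReal.ofReal (NN k j (x, t)) ^ s
            ≤ ∫⁻ x : Fin k → ℝ, ENNReal.ofReal (ρ ^ j * (C ^ ((1 - δ) * (s - 1)) * (1 + |t|) ^ (-κ))) *
              ENNReal.ofReal (NN k j (x, t)) := lintegral_mono fun x => hpt x t
          _ = ENNReal.ofReal (ρ ^ j * (C ^ ((1 - δ) * (s - 1)) * (1 + |t|) ^ (-κ))) *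
              ∫⁻ x : Fin k → ℝ, ENNReal.ofReal (NN k j (x, t)) :=
              lintegral_const_mul' _ _ ENNReal.ofReal_ne_top
          _ ≤ ENNReal.ofReal (ρ ^ j * (C ^ ((1 - δ) * (s - 1)) * (1 + |t|) ^ (-κ))) * 1 := by
              gcongr
              exact NN_slice hk j t
          _ = _ := mul_one _
    _ = ∫⁻ t : ℝ, ENNReal.ofReal (ρ ^ j * C ^ ((1 - δ) * (s - 1))) *
          ENNReal.ofReal ((1 + |t|) ^ (-κ)) := by
        refine lintegral_congr fun t => ?_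
        rw [← ENNReal.ofReal_mul (by positivity)]
        congr 1
        ring
    _ = ENNReal.ofReal (ρ ^ j * C ^ ((1 - δ) * (s - 1))) * I :=
        lintegral_const_mul' _ _ ENNReal.ofReal_ne_top
    _ = _ := by
        rw [ENNReal.ofReal_mul (by positivity), ENNReal.ofReal_pow hρ0.le]
        ring

lemma tsum_rpow_le (a : ℕ → ℝ≥0∞) (r : ℝ≥0∞) (hr0 : r ≠ 0) (hr : r ≠ ∞) (s : ℝ) (hs : 0 < s) :
    (∑' j, a j) ^ s ≤ (∑' j, r ^ j) ^ s * ∑' j, (r⁻¹ ^ j * a j) ^ s := by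
  set B : ℝ≥0∞ := (∑' j, (r⁻¹ ^ j * a j) ^ s) ^ (1 / s) with hB
  have h1 : ∀ j, a j ≤ r ^ j * B := by
    intro j
    have h2 : (r⁻¹ ^ j * a j) ^ s ≤ ∑' j, (r⁻¹ ^ j * a j) ^ s := ENNReal.le_tsum j
    have h3 : r⁻¹ ^ j * a j ≤ B := by
      have := ENNReal.rpow_le_rpow h2 (z := 1 / s) (by positivity)
      rwa [← ENNReal.rpow_mul, mul_one_div_cancel hs.ne', ENNReal.rpow_one] at this
    calc a j = r ^ j * (r⁻¹ ^ j * a j) := by
          rw [← mul_assoc, ← mul_pow, ENNReal.mul_inv_cancel hr0 hr, one_pow, one_mul]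
      _ ≤ r ^ j * B := by gcongr
  calc (∑' j, a j) ^ s ≤ (∑' j, r ^ j * B) ^ s := by
        gcongr with j
        exact h1 j
    _ = ((∑' j, r ^ j) * B) ^ s := by rw [ENNReal.tsum_mul_right]
    _ = (∑' j, r ^ j) ^ s * B ^ s := ENNReal.mul_rpow_of_nonneg _ _ hs.le
    _ = _ := by
        rw [hB, ← ENNReal.rpow_mul, one_div_mul_cancel hs.ne', ENNReal.rpow_one]

/-- **The square function of all dyadic cubes is in the full range.** -/
theorem square (k : ℕ) (hk : 1 ≤ k) (s : ℝ) (hs : ((k : ℝ) + 1) / k < s) :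
    ∫⁻ ξ : (Fin k → ℝ) × ℝ, (∑' j, ENNReal.ofReal (NN k j ξ)) ^ s < ∞ := by
  have hk0 : (0:ℝ) < k := by exact_mod_cast hk
  have hs0 : 0 < s := lt_trans (by positivity) hs
  obtain ⟨C, ρ, hC, hρ0, hρ1, h⟩ := NN_pow k hk s hs
  set r : ℝ := ρ ^ (1 / (2 * s)) with hr
  have hr0 : 0 < r := by positivity
  have hr1 : r < 1 := Real.rpow_lt_one hρ0.le hρ1 (by positivity)
  set R : ℝ≥0∞ := ENNReal.ofReal r with hR
  have hR0 : R ≠ 0 := by rw [hR]; exact (ENNReal.ofReal_pos.mpr hr0).ne'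
  have hRt : R ≠ ∞ := ENNReal.ofReal_ne_top
  have hRs : (R⁻¹) ^ s * ENNReal.ofReal ρ = ENNReal.ofReal (ρ ^ (1 / 2 : ℝ)) := by
    rw [hR, ← ENNReal.ofReal_inv_of_pos hr0, ENNReal.ofReal_rpow_of_pos (by positivity),
      ← ENNReal.ofReal_mul (by positivity)]
    congr 1
    rw [hr, ← Real.rpow_neg hρ0.le, ← Real.rpow_mul hρ0.le, ← Real.rpow_add_one hρ0.ne']
    congr 1
    field_simp
    ring
  have hgeo : ∀ x : ℝ, 0 ≤ x → x < 1 → ∑' j : ℕ, ENNReal.ofReal x ^ j ≠ ∞ := by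
    intro x hx0 hx1
    rw [ENNReal.tsum_geometric]
    apply ENNReal.inv_ne_top.mpr
    rw [ne_eq, tsub_eq_zero_iff_le, not_le]
    rw [ENNReal.ofReal_lt_one]
    exact hx1
  have hm : ∀ j, Measurable fun ξ : (Fin k → ℝ) × ℝ => (R⁻¹ ^ j * ENNReal.ofReal (NN k j ξ)) ^ s := by
    intro j
    have := (NN_cont hk j).measurable
    fun_prop
  calc ∫⁻ ξ : (Fin k → ℝ) × ℝ, (∑' j, ENNReal.ofReal (NN k j ξ)) ^ s
      ≤ ∫⁻ ξ : (Fin k → ℝ) × ℝ, (∑' j, R ^ j) ^ s * ∑' j, (R⁻¹ ^ j * ENNReal.ofReal (NN k j ξ)) ^ s :=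
        lintegral_mono fun ξ => tsum_rpow_le _ R hR0 hRt s hs0
    _ = (∑' j, R ^ j) ^ s * ∑' j, ∫⁻ ξ : (Fin k → ℝ) × ℝ,
          (R⁻¹ ^ j * ENNReal.ofReal (NN k j ξ)) ^ s := by
        rw [lintegral_const_mul _ (Measurable.ennreal_tsum hm), lintegral_tsum fun j => (hm j).aemeasurable]
    _ ≤ (∑' j, R ^ j) ^ s * ∑' j, C * ENNReal.ofReal (ρ ^ (1 / 2 : ℝ)) ^ j := by
        gcongr with j
        have e1 : ∀ ξ : (Fin k → ℝ) × ℝ, (R⁻¹ ^ j * ENNReal.ofReal (NN k j ξ)) ^ s =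
            ((R⁻¹) ^ s) ^ j * ENNReal.ofReal (NN k j ξ) ^ s := by
          intro ξ
          rw [ENNReal.mul_rpow_of_nonneg _ _ hs0.le, ← ENNReal.rpow_natCast, ← ENNReal.rpow_mul,
            mul_comm (j : ℝ) s, ENNReal.rpow_mul, ENNReal.rpow_natCast]
        simp only [e1]
        rw [lintegral_const_mul' _ _ (by
          apply ENNReal.pow_ne_top
          apply ENNReal.rpow_ne_top_of_nonneg hs0.le
          exact ENNReal.inv_ne_top.mpr hR0)]
        calc ((R⁻¹) ^ s) ^ j * ∫⁻ ξ : (Fin k → ℝ) × ℝ, ENNReal.ofReal (NN k j ξ) ^ s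
            ≤ ((R⁻¹) ^ s) ^ j * (C * ENNReal.ofReal ρ ^ j) := by
              gcongr
              exact h j
          _ = C * ((R⁻¹) ^ s * ENNReal.ofReal ρ) ^ j := by
              rw [mul_pow]
              ring
          _ = _ := by rw [hRs]
    _ < ∞ := by
        rw [ENNReal.tsum_mul_left]
        apply ENNReal.mul_lt_top
        · apply ENNReal.rpow_lt_top_of_nonneg hs0.le
          exact hgeo r hr0.le hr1
        · apply ENNReal.mul_lt_top hC.lt_top
          refine (hgeo _ (by positivity) ?_).lt_top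
          exact Real.rpow_lt_one hρ0.le hρ1 (by norm_num)

end Pool.Agent.V5helper63.RH
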