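import Mathlib
import Pool.Agent.V5helper63.RH.E2
set_option autoImplicit false

/-! The Fourier transform of a density through its dyadic averages. -/

namespace Pool.Agent.V5helper63.RH

open MeasureTheory Set Complex Filter Topology
open scoped ENNReal NNReal

/-- the root -/
def rt (k : ℕ) : Fin k → Fin (2 ^ 0) := fun _ => 0

/-- the root cube -/
def QQ (k : ℕ) : Set (Fin k → ℝ) := cube k 0 0

lemma cu_rt (k : ℕ) : cu (rt k) = QQ k := by
  unfold cu QQ rt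
  congr 1

lemma rt_unique {k : ℕ} (m : Fin k → Fin (2 ^ 0)) : m = rt k := by
  funext i
  have h1 := (m i).2
  apply Fin.ext
  simp [rt]

/-- the Fourier transform of the image of `f(z) dz` -/
noncomputable def FF {k : ℕ} (f : (Fin k → ℝ) → ℂ) (ξ : (Fin k → ℝ) × ℝ) : ℂ :=
  ∫ z in QQ k, f z * ee ξ z

/-- averages -/
noncomputable def av {k j : ℕ} (f : (Fin k → ℝ) → ℂ) (m : Fin k → Fin (2 ^ j)) : ℂ :=
  ⨍ z in cu m, f z

/-- jumps -/
noncomputable def jp {k j : ℕ} (f : (Fin k → ℝ) → ℂ) (m : Fin k → Fin (2 ^ (j + 1))) : ℂ :=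
  av f m - av f (par m)

lemma sum_gen {k : ℕ} (hk : 1 ≤ k) {f : (Fin k → ℝ) → ℂ} (hf : IntegrableOn f (QQ k)) (J : ℕ) :
    (∀ m : Fin k → Fin (2 ^ J), IntegrableOn f (cu m)) ∧
    ∫ z in QQ k, f z = ∑ m : Fin k → Fin (2 ^ J), ∫ z in cu m, f z := by
  induction J with
  | zero =>
    refine ⟨fun m => ?_, ?_⟩
    · rw [rt_unique m, cu_rt]; exact hf
    · rw [Fintype.sum_eq_single (rt k) (fun m hm => absurd (rt_unique m) hm), cu_rt]
  | succ J ih =>
    have hsub : ∀ m' : Fin k → Fin (2 ^ (J + 1)), cu m' ⊆ cu (par m') := by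
      intro m'
      rw [cu_union hk (par m')]
      refine subset_biUnion_of_mem (u := fun m' => cu m') ?_
      simp [ch]
    refine ⟨fun m => (ih.1 (par m)).mono_set (hsub m), ?_⟩
    rw [ih.2, Finset.sum_congr rfl fun m _ => int_ch hk m (ih.1 m)]
    unfold ch
    exact Finset.sum_fiberwise _ _ _

lemma cu_vol_real {k : ℕ} (hk : 1 ≤ k) {j : ℕ} (m : Fin k → Fin (2 ^ j)) :
    volume.real (cu m) = side k j ^ k := by
  unfold cu Measure.real
  rw [cube_vol hk, ENNReal.toReal_ofReal (pow_nonneg (side_pos hk j).le _)]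

lemma av_mul {k : ℕ} (hk : 1 ≤ k) {j : ℕ} (f : (Fin k → ℝ) → ℂ) (m : Fin k → Fin (2 ^ j)) :
    av f m * (side k j ^ k : ℝ) = ∫ z in cu m, f z := by
  unfold av
  rw [setAverage_eq, cu_vol_real hk, Complex.real_smul]
  have : ((side k j ^ k : ℝ) : ℂ) ≠ 0 := by
    exact_mod_cast (pow_pos (side_pos hk j) k).ne'
  push_cast at this ⊢
  field_simp

/-- approximation by the averages of generation `J` -/
noncomputable def AP {k : ℕ} (f : (Fin k → ℝ) → ℂ) (J : ℕ) (ξ : (Fin k → ℝ) × ℝ) : ℂ :=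
  ∑ m : Fin k → Fin (2 ^ J), av f m * G1 m ξ

lemma AP_succ {k : ℕ} (hk : 1 ≤ k) (f : (Fin k → ℝ) → ℂ) (J : ℕ) (ξ : (Fin k → ℝ) × ℝ) :
    AP f (J + 1) ξ = AP f J ξ + ∑ m : Fin k → Fin (2 ^ (J + 1)), jp f m * G1 m ξ := by
  unfold AP
  have h1 : ∑ m : Fin k → Fin (2 ^ J), av f m * G1 m ξ =
      ∑ m' : Fin k → Fin (2 ^ (J + 1)), av f (par m') * G1 m' ξ := by
    rw [← Finset.sum_fiberwise (Finset.univ : Finset (Fin k → Fin (2 ^ (J + 1))))
      (fun m' => par m')]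
    refine Finset.sum_congr rfl fun m _ => ?_
    rw [G1_ch hk m ξ, Finset.mul_sum]
    unfold ch
    refine Finset.sum_congr rfl fun m' hm' => ?_
    rw [(Finset.mem_filter.mp hm').2]
  rw [h1, ← Finset.sum_add_distrib]
  refine Finset.sum_congr rfl fun m' _ => ?_
  unfold jp
  ring

lemma AP_zero {k : ℕ} (f : (Fin k → ℝ) → ℂ) (ξ : (Fin k → ℝ) × ℝ) :
    AP f 0 ξ = av f (rt k) * G1 (rt k) ξ := by
  unfold AP
  rw [Fintype.sum_eq_single (rt k) (fun m hm => absurd (rt_unique m) hm)]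

lemma AP_eq {k : ℕ} (hk : 1 ≤ k) (f : (Fin k → ℝ) → ℂ) (J : ℕ) (ξ : (Fin k → ℝ) × ℝ) :
    AP f J ξ = av f (rt k) * G1 (rt k) ξ +
      ∑ j ∈ Finset.range J, ∑ m : Fin k → Fin (2 ^ (j + 1)), jp f m * G1 m ξ := by
  induction J with
  | zero => rw [AP_zero, Finset.sum_range_zero, add_zero]
  | succ J ih => rw [AP_succ hk, ih, Finset.sum_range_succ]; ring

lemma cu_diam {k : ℕ} (hk : 1 ≤ k) {j : ℕ} {m : Fin k → Fin (2 ^ j)} {z z' : Fin k → ℝ}
    (hz : z ∈ cu m) (hz' : z' ∈ cu m) : dist z z' ≤ side k j := by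
  have hs := side_pos hk j
  rw [dist_pi_le_iff hs.le]
  intro i
  have h1 := hz i
  have h2 := hz' i
  rw [Real.dist_eq, abs_le]
  constructor <;> linarith [h1.1, h1.2, h2.1, h2.2]

lemma cu_unit {k : ℕ} (hk : 1 ≤ k) {j : ℕ} {m : Fin k → Fin (2 ^ j)} {z : Fin k → ℝ}
    (hz : z ∈ cu m) : z ∈ Icc (0 : Fin k → ℝ) 1 := by
  have hs := side_pos hk j
  rw [mem_Icc]
  constructor
  · intro i
    exact le_trans (by positivity) (hz i).1
  · intro i
    have h1 := (hz i).2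
    have h2 : ((m i : ℕ) : ℝ) + 1 ≤ 2 ^ j := by exact_mod_cast (m i).2
    have h3 := mul_le_mul_of_nonneg_right h2 hs.le
    have h4 := side_two_pow hk j
    simp only [Pi.one_apply]
    linarith

theorem AP_tendsto {k : ℕ} (hk : 1 ≤ k) {f : (Fin k → ℝ) → ℂ} (hf : IntegrableOn f (QQ k))
    (ξ : (Fin k → ℝ) × ℝ) : Tendsto (fun J => AP f J ξ) atTop (𝓝 (FF f ξ)) := by
  rw [Metric.tendsto_atTop]
  intro ε hε
  set A : ℝ := ∫ z in QQ k, ‖f z‖ with hA
  have hA0 : 0 ≤ A := integral_nonneg fun _ => norm_nonneg _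
  have huc : UniformContinuousOn (ee ξ) (Icc (0 : Fin k → ℝ) 1) :=
    isCompact_Icc.uniformContinuousOn_of_continuous (ee_cont' ξ).continuousOn
  rw [Metric.uniformContinuousOn_iff_le] at huc
  obtain ⟨δ, hδ, hδ2⟩ := huc (ε / (2 * (A + 1))) (by positivity)
  obtain ⟨J0, hJ0⟩ : ∃ J0, ∀ J ≥ J0, side k J ≤ δ := by
    obtain ⟨J0, hJ0⟩ := pow_unbounded_of_one_lt (1 / δ) (show (1:ℝ) < 2 by norm_num)
    refine ⟨J0, fun J hJ => ?_⟩
    rw [side_eq, div_le_iff₀ (by positivity)]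
    have h1 : (2:ℝ) ^ J0 ≤ 2 ^ J := pow_le_pow_right₀ (by norm_num) hJ
    rw [div_lt_iff₀ hδ] at hJ0
    calc side k 0 ≤ 1 := side_le_one hk 0
      _ ≤ 2 ^ J0 * δ := hJ0.le
      _ ≤ 2 ^ J * δ := by gcongr
      _ = δ * 2 ^ J := mul_comm _ _
  refine ⟨J0, fun J hJ => ?_⟩
  have hfe : IntegrableOn (fun z => f z * ee ξ z) (QQ k) := by
    refine hf.mul_bdd (c := 1) (ee_cont' ξ).aestronglyMeasurable ?_
    exact Filter.Eventually.of_forall fun z => (ee_norm ξ z).le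
  have hdiff : ∀ m : Fin k → Fin (2 ^ J), ‖(∫ z in cu m, f z * ee ξ z) - av f m * G1 m ξ‖ ≤
      ε / (2 * (A + 1)) * ∫ z in cu m, ‖f z‖ := by
    intro m
    have hfm := (sum_gen hk hf J).1 m
    have hfem := (sum_gen hk hfe J).1 m
    have hv := pow_pos (side_pos hk J) k
    set c : ℂ := ((side k J ^ k : ℝ) : ℂ)⁻¹ * G1 m ξ with hc
    have e1 : av f m * G1 m ξ = ∫ z in cu m, f z * c := by
      rw [integral_mul_const, ← av_mul hk f m, hc]
      have : ((side k J ^ k : ℝ) : ℂ) ≠ 0 := by exact_mod_cast hv.ne'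
      field_simp
    rw [e1, ← integral_sub hfem (hfm.mul_const c)]
    have e2 : ∀ z ∈ cu m, ‖ee ξ z - c‖ ≤ ε / (2 * (A + 1)) := by
      intro z hz
      have e3 : ee ξ z - c = ((side k J ^ k : ℝ) : ℂ)⁻¹ * ∫ z' in cu m, (ee ξ z - ee ξ z') := by
        have hi1 : IntegrableOn (fun _ => ee ξ z) (cu m) :=
          integrableOn_const (cube_fin hk J _).ne
        have hi2 : IntegrableOn (ee ξ) (cu m) := ee_int hk _ _ ξ
        rw [integral_sub hi1 hi2, setIntegral_const, cu_vol_real hk, Complex.real_smul, hc]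
        unfold G1
        have : ((side k J ^ k : ℝ) : ℂ) ≠ 0 := by exact_mod_cast hv.ne'
        field_simp
      rw [e3, norm_mul, norm_inv, Complex.norm_of_nonneg hv.le]
      have e4 : ‖∫ z' in cu m, (ee ξ z - ee ξ z')‖ ≤ ε / (2 * (A + 1)) * volume.real (cu m) := by
        refine norm_setIntegral_le_of_norm_le_const (cube_fin hk J _) fun z' hz' => ?_
        rw [← dist_eq_norm]
        exact hδ2 z (cu_unit hk hz) z' (cu_unit hk hz') ((cu_diam hk hz hz').trans (hJ0 J hJ))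
      rw [cu_vol_real hk] at e4
      rw [inv_mul_le_iff₀ hv]
      linarith
    calc ‖∫ z in cu m, (f z * ee ξ z - f z * c)‖ ≤ ∫ z in cu m, ε / (2 * (A + 1)) * ‖f z‖ := by
          refine norm_integral_le_of_norm_le (hfm.norm.const_mul _) ?_
          filter_upwards [ae_restrict_mem (cu_meas m)] with z hz
          rw [← mul_sub, norm_mul, mul_comm]
          gcongr
          exact e2 z hz
      _ = _ := integral_const_mul _ _
  rw [dist_comm, dist_eq_norm]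
  unfold FF AP
  rw [(sum_gen hk hfe J).2, ← Finset.sum_sub_distrib]
  have hsumn : ∑ m : Fin k → Fin (2 ^ J), ∫ z in cu m, ‖f z‖ = A := by
    have h1 : IntegrableOn (fun z => ((‖f z‖ : ℝ) : ℂ)) (QQ k) := hf.norm.ofReal
    have h2 := (sum_gen hk h1 J).2
    have h3 : ∀ S : Set (Fin k → ℝ), ∫ z in S, ((‖f z‖ : ℝ) : ℂ) = ((∫ z in S, ‖f z‖ : ℝ) : ℂ) :=
      fun S => integral_ofReal
    rw [h3, Finset.sum_congr rfl fun m _ => h3 (cu m), ← Complex.ofReal_sum] at h2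
    exact (Complex.ofReal_injective h2).symm
  calc _ ≤ ∑ m : Fin k → Fin (2 ^ J), ‖(∫ z in cu m, f z * ee ξ z) - av f m * G1 m ξ‖ :=
        norm_sum_le _ _
    _ ≤ ∑ m : Fin k → Fin (2 ^ J), ε / (2 * (A + 1)) * ∫ z in cu m, ‖f z‖ :=
        Finset.sum_le_sum fun m _ => hdiff m
    _ = ε / (2 * (A + 1)) * A := by rw [← Finset.mul_sum, hsumn]
    _ < ε := by
        rw [div_mul_eq_mul_div, div_lt_iff₀ (by positivity)]
        nlinarith

end Pool.Agent.V5helper63.RH
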