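import Mathlib
import Pool.Agent.V5helper63.RH.G
import Pool.Agent.V5helper63.RH.H
set_option autoImplicit false

/-! Blocks of generations. -/

namespace Pool.Agent.V5helper63.RH

open MeasureTheory Set Filter Topology
open scoped ENNReal NNReal

variable {k : ℕ}

/-- index of the ancestor of generation `j` -/
def an {j j' : ℕ} (h : j ≤ j') (m : Fin k → Fin (2 ^ j')) : Fin k → Fin (2 ^ j) :=
  fun i => ⟨(m i : ℕ) / 2 ^ (j' - j), by
    rw [Nat.div_lt_iff_lt_mul (by positivity), ← pow_add, Nat.add_sub_cancel' h]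
    exact (m i).2⟩

/-- descendants -/
def de {j j' : ℕ} (h : j ≤ j') (m : Fin k → Fin (2 ^ j)) : Finset (Fin k → Fin (2 ^ j')) :=
  Finset.univ.filter fun m' => an h m' = m

lemma side_sub (k : ℕ) {j j' : ℕ} (h : j ≤ j') : side k j = 2 ^ (j' - j) * side k j' := by
  rw [side_eq k j, side_eq k j']
  have : (2:ℝ) ^ j' = 2 ^ (j' - j) * 2 ^ j := by rw [← pow_add, Nat.sub_add_cancel h]
  rw [this]
  field_simp

lemma cu_an (hk : 1 ≤ k) {j j' : ℕ} (h : j ≤ j') (m' : Fin k → Fin (2 ^ j')) :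
    cu m' ⊆ cu (an h m') := by
  intro z hz i
  have h1 := hz i
  have hs := side_pos hk j'
  set D : ℕ := 2 ^ (j' - j) with hD
  have hD0 : 0 < D := by positivity
  have h2 : ((an h m' i : ℕ)) * D ≤ (m' i : ℕ) := Nat.div_mul_le_self _ _
  have h3 : (m' i : ℕ) + 1 ≤ ((an h m' i : ℕ) + 1) * D := by
    have h4 : (m' i : ℕ) < ((m' i : ℕ) / D + 1) * D := by
      rw [← Nat.div_lt_iff_lt_mul hD0]
      exact Nat.lt_succ_self _
    exact h4
  have h2' : ((an h m' i : ℕ) : ℝ) * D ≤ ((m' i : ℕ) : ℝ) := by exact_mod_cast h2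
  have h3' : ((m' i : ℕ) : ℝ) + 1 ≤ (((an h m' i : ℕ) : ℝ) + 1) * D := by exact_mod_cast h3
  have hsj : side k j = (D : ℝ) * side k j' := by
    rw [side_sub k h, hD]
    push_cast
    rfl
  have h5 := mul_le_mul_of_nonneg_right h2' hs.le
  have h6 := mul_le_mul_of_nonneg_right h3' hs.le
  rw [hsj]
  constructor
  · calc ((an h m' i : ℕ) : ℝ) * (D * side k j') = ((an h m' i : ℕ) : ℝ) * D * side k j' := by ring
      _ ≤ ((m' i : ℕ) : ℝ) * side k j' := h5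
      _ ≤ z i := h1.1
  · calc z i < (((m' i : ℕ) : ℝ) + 1) * side k j' := h1.2
      _ ≤ (((an h m' i : ℕ) : ℝ) + 1) * D * side k j' := h6
      _ = _ := by ring

lemma cu_nonempty (hk : 1 ≤ k) {j : ℕ} (m : Fin k → Fin (2 ^ j)) : (cu m).Nonempty := by
  refine ⟨fun i => ((m i : ℕ) : ℝ) * side k j, fun i => ⟨le_rfl, ?_⟩⟩
  have hs := side_pos hk j
  linarith

lemma sub_iff (hk : 1 ≤ k) {j j' : ℕ} (h : j ≤ j') (m : Fin k → Fin (2 ^ j))
    (m' : Fin k → Fin (2 ^ j')) : cu m' ⊆ cu m ↔ an h m' = m := by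
  constructor
  · intro hs
    by_contra hne
    obtain ⟨z, hz⟩ := cu_nonempty hk m'
    exact Set.disjoint_left.mp (cu_disj hk hne) (cu_an hk h m' hz) (hs hz)
  · intro he
    rw [← he]
    exact cu_an hk h m'

lemma cu_union' (hk : 1 ≤ k) {j j' : ℕ} (h : j ≤ j') (m : Fin k → Fin (2 ^ j)) :
    cu m = ⋃ m' ∈ de h m, cu m' := by
  have hs := side_pos hk j'
  set D : ℕ := 2 ^ (j' - j) with hD
  have hD0 : 0 < D := by positivity
  have hsj : side k j = (D : ℝ) * side k j' := by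
    rw [side_sub k h, hD]
    push_cast
    rfl
  ext z
  simp only [mem_iUnion, exists_prop]
  constructor
  · intro hz
    have h0 : ∀ i, 0 ≤ z i / side k j' := by
      intro i
      apply div_nonneg _ hs.le
      have := side_pos hk j
      exact le_trans (by positivity) (hz i).1
    have hb : ∀ i, D * (m i : ℕ) ≤ ⌊z i / side k j'⌋₊ ∧
        ⌊z i / side k j'⌋₊ < D * (m i : ℕ) + D := by
      intro i
      have h1 := hz i
      rw [hsj] at h1
      constructor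
      · apply Nat.le_floor
        rw [le_div_iff₀ hs]
        push_cast
        linarith [h1.1]
      · have : z i / side k j' < ((D * (m i : ℕ) + D : ℕ) : ℝ) := by
          rw [div_lt_iff₀ hs]
          push_cast
          linarith [h1.2]
        exact (Nat.floor_lt (h0 i)).mpr this
    have hlt : ∀ i, ⌊z i / side k j'⌋₊ < 2 ^ j' := by
      intro i
      have h1 := (hb i).2
      have h2 := (m i).2
      have h3 : 2 ^ j' = D * 2 ^ j := by rw [hD, ← pow_add, Nat.sub_add_cancel h]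
      rw [h3]
      calc ⌊z i / side k j'⌋₊ < D * (m i : ℕ) + D := h1
        _ = D * ((m i : ℕ) + 1) := by ring
        _ ≤ D * 2 ^ j := Nat.mul_le_mul_left _ h2
    refine ⟨fun i => ⟨⌊z i / side k j'⌋₊, hlt i⟩, ?_, ?_⟩
    · rw [de, Finset.mem_filter]
      refine ⟨Finset.mem_univ _, ?_⟩
      funext i
      apply Fin.ext
      simp only [an]
      have h1 := hb i
      rw [Nat.div_eq_iff hD0]
      constructor
      · nlinarith [h1.1]
      · have h2 : D * (m i : ℕ) + D = ((m i : ℕ)) * D + D := by ring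
        omega
    · intro i
      simp only
      constructor
      · rw [← le_div_iff₀ hs]
        exact Nat.floor_le (h0 i)
      · rw [← div_lt_iff₀ hs]
        exact Nat.lt_floor_add_one _
  · rintro ⟨m', hm', hz⟩
    rw [de, Finset.mem_filter] at hm'
    rw [← hm'.2]
    exact cu_an hk h m' hz

lemma int_de (hk : 1 ≤ k) {j j' : ℕ} (h : j ≤ j') (m : Fin k → Fin (2 ^ j)) {f : (Fin k → ℝ) → ℂ}
    (hf : IntegrableOn f (cu m)) : ∫ z in cu m, f z = ∑ m' ∈ de h m, ∫ z in cu m', f z := by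
  have hsub : ∀ m' ∈ de h m, cu m' ⊆ cu m := by
    intro m' hm'
    rw [cu_union' hk h m]
    exact subset_biUnion_of_mem (u := fun m' => cu m') hm'
  have h1 := integral_biUnion_finset (μ := volume) (f := f) (de h m) (s := fun m' => cu m')
    (fun m' _ => cu_meas m') (fun m' _ m'' _ h => cu_disj hk h)
    (fun m' hm' => hf.mono_set (hsub m' hm'))
  rw [← cu_union' hk h m] at h1
  exact h1

lemma card_de (hk : 1 ≤ k) {j j' : ℕ} (h : j ≤ j') (m : Fin k → Fin (2 ^ j)) :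
    ((de h m).card : ℝ) * side k j' ^ k = side k j ^ k := by
  have h1 := int_de hk h m (f := fun _ => (1:ℂ)) (integrableOn_const (cube_fin hk j _).ne)
  have h4 : ∀ {i : ℕ} (m : Fin k → Fin (2 ^ i)), ∫ _ in cu m, (1:ℂ) = ((side k i ^ k : ℝ) : ℂ) := by
    intro i m
    rw [setIntegral_const, cu_vol_real hk]
    simp
  simp only [h4] at h1
  rw [Finset.sum_const, nsmul_eq_mul] at h1
  exact_mod_cast h1.symm

lemma card_de' (hk : 1 ≤ k) {j j' : ℕ} (h : j ≤ j') (m : Fin k → Fin (2 ^ j)) :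
    ((de h m).card : ℝ) = (2 ^ (j' - j)) ^ k := by
  have h1 := card_de hk h m
  rw [side_sub k h, mul_pow] at h1
  have h2 : side k j' ^ k ≠ 0 := (pow_pos (side_pos hk j') k).ne'
  exact mul_right_cancel₀ h2 h1

lemma G1_de (hk : 1 ≤ k) {j j' : ℕ} (h : j ≤ j') (m : Fin k → Fin (2 ^ j))
    (ξ : (Fin k → ℝ) × ℝ) : G1 m ξ = ∑ m' ∈ de h m, G1 m' ξ := int_de hk h m (ee_int hk _ _ ξ)

/-- block jump -/
noncomputable def bj {j j' : ℕ} (h : j ≤ j') (f : (Fin k → ℝ) → ℂ) (m' : Fin k → Fin (2 ^ j')) : ℂ :=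
  av f m' - av f (an h m')

/-- block increment on one cube -/
noncomputable def BD {j j' : ℕ} (h : j ≤ j') (f : (Fin k → ℝ) → ℂ) (m : Fin k → Fin (2 ^ j))
    (ξ : (Fin k → ℝ) × ℝ) : ℂ := ∑ m' ∈ de h m, bj h f m' * G1 m' ξ

lemma AP_block (hk : 1 ≤ k) {j j' : ℕ} (h : j ≤ j') (f : (Fin k → ℝ) → ℂ)
    (ξ : (Fin k → ℝ) × ℝ) : AP f j' ξ = AP f j ξ + ∑ m : Fin k → Fin (2 ^ j), BD h f m ξ := by
  unfold AP BD
  have h1 : ∑ m : Fin k → Fin (2 ^ j), av f m * G1 m ξ =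
      ∑ m : Fin k → Fin (2 ^ j), ∑ m' ∈ de h m, av f (an h m') * G1 m' ξ := by
    refine Finset.sum_congr rfl fun m _ => ?_
    rw [G1_de hk h m ξ, Finset.mul_sum]
    refine Finset.sum_congr rfl fun m' hm' => ?_
    rw [(Finset.mem_filter.mp hm').2]
  rw [h1, ← Finset.sum_add_distrib]
  have h2 : ∀ m : Fin k → Fin (2 ^ j), ∑ m' ∈ de h m, av f (an h m') * G1 m' ξ +
      ∑ m' ∈ de h m, bj h f m' * G1 m' ξ = ∑ m' ∈ de h m, av f m' * G1 m' ξ := by
    intro m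
    rw [← Finset.sum_add_distrib]
    refine Finset.sum_congr rfl fun m' _ => ?_
    unfold bj
    ring
  rw [Finset.sum_congr rfl fun m _ => h2 m]
  unfold de
  exact (Finset.sum_fiberwise _ _ _).symm

lemma BD_le_sum {j j' : ℕ} (h : j ≤ j') {M : ℝ} {f : (Fin k → ℝ) → ℂ} (m : Fin k → Fin (2 ^ j))
    (hM : ∀ m' ∈ de h m, ‖bj h f m'‖ ≤ M) (ξ : (Fin k → ℝ) × ℝ) :
    ‖BD h f m ξ‖ ≤ M * ∑ m' ∈ de h m, ‖G1 m' ξ‖ := by
  unfold BD
  rw [Finset.mul_sum]
  refine (norm_sum_le _ _).trans (Finset.sum_le_sum fun m' hm' => ?_)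
  rw [norm_mul]
  gcongr
  exact hM m' hm'

/-- square function of a block, small size -/
lemma V_small (hk : 1 ≤ k) {j j' : ℕ} (h : j ≤ j') {M : ℝ} (hM0 : 0 ≤ M) {f : (Fin k → ℝ) → ℂ}
    (hM : ∀ m', ‖bj h f m'‖ ≤ M) (ξ : (Fin k → ℝ) × ℝ) :
    ∑ m : Fin k → Fin (2 ^ j), ‖BD h f m ξ‖ ^ 2 ≤ M ^ 2 * ((1 / 2 : ℝ) ^ j) ^ k := by
  have hs := side_pos hk j
  calc ∑ m : Fin k → Fin (2 ^ j), ‖BD h f m ξ‖ ^ 2
      ≤ ∑ _m : Fin k → Fin (2 ^ j), (M * side k j ^ k) ^ 2 := by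
        refine Finset.sum_le_sum fun m _ => pow_le_pow_left₀ (norm_nonneg _) ?_ 2
        refine (BD_le_sum h m (fun m' _ => hM m') ξ).trans ?_
        gcongr
        calc ∑ m' ∈ de h m, ‖G1 m' ξ‖ ≤ ∑ _m' ∈ de h m, side k j' ^ k :=
              Finset.sum_le_sum fun m' _ => G1_norm_le hk m' ξ
          _ = side k j ^ k := by rw [Finset.sum_const, nsmul_eq_mul, card_de hk h m]
    _ = (2 ^ j) ^ k * (M * side k j ^ k) ^ 2 := by simp
    _ = M ^ 2 * ((2 ^ j * side k j) ^ k * side k j ^ k) := by ring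
    _ ≤ M ^ 2 * (1 ^ k * ((1 / 2 : ℝ) ^ j) ^ k) := by
        gcongr
        · exact side_two_pow hk j
        · rw [side_eq, one_div, inv_pow, ← one_div]
          gcongr
          exact side_le_one hk 0
    _ = _ := by rw [one_pow, one_mul]

/-- square function of a block, comparison with the last generation -/
lemma V_NN (hk : 1 ≤ k) {j j' : ℕ} (h : j ≤ j') {M : ℝ} {f : (Fin k → ℝ) → ℂ}
    (hM : ∀ m', ‖bj h f m'‖ ≤ M) (ξ : (Fin k → ℝ) × ℝ) :
    ∑ m : Fin k → Fin (2 ^ j), ‖BD h f m ξ‖ ^ 2 ≤ M ^ 2 * ((2 ^ (j' - j)) ^ k * NN k j' ξ) := by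
  calc ∑ m : Fin k → Fin (2 ^ j), ‖BD h f m ξ‖ ^ 2
      ≤ ∑ m : Fin k → Fin (2 ^ j), M ^ 2 * ((2 ^ (j' - j)) ^ k * ∑ m' ∈ de h m, ‖G1 m' ξ‖ ^ 2) := by
        refine Finset.sum_le_sum fun m _ => ?_
        calc ‖BD h f m ξ‖ ^ 2 ≤ (M * ∑ m' ∈ de h m, ‖G1 m' ξ‖) ^ 2 :=
              pow_le_pow_left₀ (norm_nonneg _) (BD_le_sum h m (fun m' _ => hM m') ξ) 2
          _ = M ^ 2 * (∑ m' ∈ de h m, ‖G1 m' ξ‖) ^ 2 := mul_pow _ _ _
          _ ≤ M ^ 2 * (((de h m).card : ℝ) * ∑ m' ∈ de h m, ‖G1 m' ξ‖ ^ 2) := by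
              gcongr
              exact sq_sum_le_card_mul_sum_sq
          _ = _ := by rw [card_de' hk h m]
    _ = M ^ 2 * ((2 ^ (j' - j)) ^ k * NN k j' ξ) := by
        rw [← Finset.mul_sum, ← Finset.mul_sum]
        congr 2
        unfold NN de
        exact Finset.sum_fiberwise _ _ _

end Pool.Agent.V5helper63.RH
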