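import Mathlib
import Pool.Agent.V5helper63.RH.R1
set_option autoImplicit false

/-! Plancherel on slices for step functions, and integration of decay. -/

namespace Pool.Agent.V5helper63.RH

open MeasureTheory Set Complex Filter Topology
open scoped ENNReal NNReal FourierTransform RealInnerProductSpace

variable {k : ℕ}

/-- Plancherel for the slices of the Fourier transform of a bounded density -/
lemma slice' {S : Set (Fin k → ℝ)} (hS : MeasurableSet S) (hf : volume S < ∞)
    {u : (Fin k → ℝ) → ℂ} (hu : Measurable u) {M : ℝ} (hM : ∀ z, ‖u z‖ ≤ M) (t : ℝ) :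
    ∫⁻ x : Fin k → ℝ, ‖∫ z in S, u z * ee (x, t) z‖ₑ ^ 2 = ∫⁻ z in S, ‖u z‖ₑ ^ 2 := by
  have hM0 : 0 ≤ M := (norm_nonneg _).trans (hM 0)
  set g : EE k → ℂ := fun z => (WithLp.ofLp ⁻¹' S).indicator
    (fun z => u z.ofLp * cexp (-(2 * Real.pi * I) * ((psi z.ofLp * t : ℝ) : ℂ))) z with hg
  have hSm : MeasurableSet (WithLp.ofLp ⁻¹' S : Set (EE k)) := (emb_ofLp k).measurable hS
  have hvol : volume (WithLp.ofLp ⁻¹' S : Set (EE k)) = volume S :=
    (PiLp.volume_preserving_ofLp (Fin k)).measure_preimage_emb (emb_ofLp k) S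
  have hnorm : ∀ z, ‖g z‖ = (WithLp.ofLp ⁻¹' S : Set (EE k)).indicator (fun z => ‖u z.ofLp‖) z := by
    intro z
    rw [hg]
    by_cases hz : z ∈ (WithLp.ofLp ⁻¹' S : Set (EE k))
    · simp only [indicator_of_mem hz]
      rw [norm_mul]
      rw [show (-(2 * Real.pi * I) * ((psi z.ofLp * t : ℝ) : ℂ)) =
        ((-(2 * Real.pi) * (psi z.ofLp * t) : ℝ) : ℂ) * I by push_cast; ring]
      rw [Complex.norm_exp_ofReal_mul_I, mul_one]
    · simp only [indicator_of_notMem hz, norm_zero]
  have hgm : Measurable g := by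
    refine Measurable.indicator ?_ hSm
    have h0 : Measurable fun z : EE k => u z.ofLp := hu.comp (emb_ofLp k).measurable
    refine h0.mul ?_
    unfold psi
    fun_prop
  have hle : ∀ z, ‖g z‖ ≤ M := by
    intro z
    rw [hnorm]
    by_cases hz : z ∈ (WithLp.ofLp ⁻¹' S : Set (EE k))
    · rw [indicator_of_mem hz]; exact hM _
    · rw [indicator_of_notMem hz]; exact hM0
  have h1 : Integrable g := by
    have : Integrable ((WithLp.ofLp ⁻¹' S : Set (EE k)).indicator fun _ => M) :=
      (integrable_indicator_iff hSm).mpr (integrableOn_const (by rw [hvol]; exact hf.ne))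
    refine this.mono' hgm.aestronglyMeasurable (Filter.Eventually.of_forall fun z => ?_)
    rw [hnorm]
    by_cases hz : z ∈ (WithLp.ofLp ⁻¹' S : Set (EE k))
    · rw [indicator_of_mem hz, indicator_of_mem hz]; exact hM _
    · rw [indicator_of_notMem hz, indicator_of_notMem hz]
  have h2 : MemLp g 2 := by
    refine (memLp_two_iff_integrable_sq_norm hgm.aestronglyMeasurable).mpr ?_
    refine (h1.norm.const_mul M).mono' (by fun_prop) (Filter.Eventually.of_forall fun z => ?_)
    rw [norm_pow, norm_norm, sq]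
    gcongr
    exact hle z
  have hpl := Pool.Agent.H153R4.plancherel g h1 h2
  have e1 : ∀ x : Fin k → ℝ, ∫ z in S, u z * ee (x, t) z = 𝓕 g (WithLp.toLp 2 x) := by
    intro x
    rw [Real.fourier_eq', ← integral_indicator hS,
      ← (PiLp.volume_preserving_ofLp (Fin k)).integral_comp (emb_ofLp k)]
    refine integral_congr_ae (Filter.Eventually.of_forall fun z => ?_)
    by_cases hz : z.ofLp ∈ S
    · have hz' : z ∈ (WithLp.ofLp ⁻¹' S : Set (EE k)) := hz
      simp only [hg, indicator_of_mem hz, indicator_of_mem hz', smul_eq_mul]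
      have e0 : ee (x, t) z.ofLp = cexp (↑(-2 * Real.pi * ⟪z, (WithLp.toLp 2 x : EE k)⟫) * I) *
          cexp (-(2 * Real.pi * I) * ((psi z.ofLp * t : ℝ) : ℂ)) := by
        unfold ee
        rw [← Complex.exp_add]
        congr 1
        have : ⟪z, (WithLp.toLp 2 x : EE k)⟫ = ∑ i, z.ofLp i * x i := by
          rw [PiLp.inner_apply]
          refine Finset.sum_congr rfl fun i _ => ?_
          simp [mul_comm]
        rw [this]
        unfold psi
        push_cast
        ring
      rw [e0]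
      ring
    · have hz' : z ∉ (WithLp.ofLp ⁻¹' S : Set (EE k)) := hz
      simp only [hg, indicator_of_notMem hz, indicator_of_notMem hz', smul_eq_mul, mul_zero]
  simp only [e1]
  rw [(PiLp.volume_preserving_toLp (Fin k)).lintegral_comp_emb (emb_toLp k)
    (fun ξ => ‖𝓕 g ξ‖ₑ ^ 2), hpl]
  have e2 : ∀ z, ‖g z‖ₑ ^ 2 = (S.indicator fun z => ‖u z‖ₑ ^ 2) z.ofLp := by
    intro z
    by_cases hz : z.ofLp ∈ S
    · have hz' : z ∈ (WithLp.ofLp ⁻¹' S : Set (EE k)) := hz
      rw [← ofReal_norm, hnorm, indicator_of_mem hz', indicator_of_mem hz, ofReal_norm]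
    · have hz' : z ∉ (WithLp.ofLp ⁻¹' S : Set (EE k)) := hz
      rw [← ofReal_norm, hnorm, indicator_of_notMem hz', indicator_of_notMem hz]
      simp
  rw [lintegral_congr e2, (PiLp.volume_preserving_ofLp (Fin k)).lintegral_comp_emb (emb_ofLp k)
    (fun z => (S.indicator fun z => ‖u z‖ₑ ^ 2) z), lintegral_indicator hS]

/-- step function -/
noncomputable def st {j : ℕ} (b : (Fin k → Fin (2 ^ j)) → ℂ) (z : Fin k → ℝ) : ℂ :=
  ∑ m, (cu m).indicator (fun _ => b m) z

lemma st_meas {j : ℕ} (b : (Fin k → Fin (2 ^ j)) → ℂ) : Measurable (st b) := by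
  unfold st
  exact Finset.measurable_fun_sum _ fun m _ => measurable_const.indicator (cu_meas m)

lemma st_norm (hk : 1 ≤ k) {j : ℕ} {b : (Fin k → Fin (2 ^ j)) → ℂ} {M : ℝ} (hM0 : 0 ≤ M)
    (hM : ∀ m, ‖b m‖ ≤ M) (z : Fin k → ℝ) : ‖st b z‖ ≤ M := by
  unfold st
  by_cases h : ∃ m : Fin k → Fin (2 ^ j), z ∈ cu m
  · obtain ⟨m, hm⟩ := h
    rw [Finset.sum_eq_single m]
    · rw [indicator_of_mem hm]; exact hM m
    · intro m' _ hne
      exact indicator_of_notMem (fun h' => Set.disjoint_left.mp (cu_disj hk hne) h' hm) _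
    · intro h
      exact absurd (Finset.mem_univ m) h
  · push Not at h
    rw [Finset.sum_eq_zero fun m _ => indicator_of_notMem (h m) _, norm_zero]
    exact hM0

lemma cu_subQ (hk : 1 ≤ k) {j : ℕ} (m : Fin k → Fin (2 ^ j)) : cu m ⊆ QQ k := by
  have h := cu_an hk (Nat.zero_le j) m
  rw [rt_unique (an (Nat.zero_le j) m), cu_rt] at h
  exact h

lemma QQ_meas : MeasurableSet (QQ k) := cube_meas _ _ _

lemma QQ_fin (hk : 1 ≤ k) : volume (QQ k) < ∞ := cube_fin hk _ _

lemma st_int (hk : 1 ≤ k) {j : ℕ} (b : (Fin k → Fin (2 ^ j)) → ℂ) (ξ : (Fin k → ℝ) × ℝ) :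
    ∫ z in QQ k, st b z * ee ξ z = ∑ m, b m * G1 m ξ := by
  unfold st
  simp only [Finset.sum_mul]
  rw [integral_finsetSum]
  · refine Finset.sum_congr rfl fun m _ => ?_
    unfold G1
    rw [← integral_const_mul]
    have e1 : ∀ z, (cu m).indicator (fun _ => b m) z * ee ξ z =
        (cu m).indicator (fun z => b m * ee ξ z) z := by
      intro z
      by_cases hz : z ∈ cu m
      · rw [indicator_of_mem hz, indicator_of_mem hz]
      · rw [indicator_of_notMem hz, indicator_of_notMem hz, zero_mul]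
    simp only [e1]
    rw [setIntegral_indicator (cu_meas m), inter_eq_self_of_subset_right (cu_subQ hk m)]
  · intro m _
    have hfin : IsFiniteMeasure (volume.restrict (QQ k)) :=
      ⟨by rw [Measure.restrict_apply_univ]; exact QQ_fin hk⟩
    refine Integrable.of_bound (C := ‖b m‖) ?_ ?_
    · exact ((measurable_const.indicator (cu_meas m)).mul (ee_cont' ξ).measurable).aestronglyMeasurable
    · refine Eventually.of_forall fun z => ?_
      rw [norm_mul, ee_norm, mul_one]
      by_cases hz : z ∈ cu m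
      · rw [indicator_of_mem hz]
      · rw [indicator_of_notMem hz, norm_zero]
        exact norm_nonneg _

/-- slices of the transforms of step functions -/
lemma slice_st (hk : 1 ≤ k) {j : ℕ} {b : (Fin k → Fin (2 ^ j)) → ℂ} {M : ℝ} (hM0 : 0 ≤ M)
    (hM : ∀ m, ‖b m‖ ≤ M) (t : ℝ) :
    ∫⁻ x : Fin k → ℝ, ‖∑ m, b m * G1 m (x, t)‖ₑ ^ 2 ≤ ENNReal.ofReal (M ^ 2) := by
  have h1 := slice' (QQ_meas (k := k)) (QQ_fin hk) (st_meas b) (st_norm hk hM0 hM) t
  simp only [st_int hk] at h1
  rw [h1]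
  calc ∫⁻ z in QQ k, ‖st b z‖ₑ ^ 2 ≤ ∫⁻ _ in QQ k, ENNReal.ofReal (M ^ 2) := by
        refine lintegral_mono fun z => ?_
        rw [← ofReal_norm, ← ENNReal.ofReal_pow (norm_nonneg _)]
        exact ENNReal.ofReal_le_ofReal (pow_le_pow_left₀ (norm_nonneg _) (st_norm hk hM0 hM z) 2)
    _ = ENNReal.ofReal (M ^ 2) * volume (QQ k) := by
        rw [lintegral_const, Measure.restrict_apply_univ]
    _ ≤ ENNReal.ofReal (M ^ 2) * 1 := by
        gcongr
        have := cube_vol hk 0 (0 : Fin k → ℕ)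
        unfold QQ
        rw [this, ENNReal.ofReal_le_one]
        exact pow_le_one₀ (side_pos hk 0).le (side_le_one hk 0)
    _ = _ := mul_one _

end Pool.Agent.V5helper63.RH
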