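import Mathlib
import Pool.Agent.V5helper63.RH.R2
import Pool.Agent.V5helper63.RH.R4
set_option autoImplicit false

/-! The estimate for one block of generations. -/

namespace Pool.Agent.V5helper63.RH

open MeasureTheory Set ProbabilityTheory Filter Topology
open scoped ENNReal NNReal

variable {k : ℕ}

/-- the increments of one block are fair in some order of the cubes -/
structure Blk {Ω : Type} [mΩ : MeasurableSpace Ω] (P : Measure Ω) (M : ℝ) {j j' : ℕ} (h : j ≤ j')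
    (g : Ω → (Fin k → ℝ) → ℂ) : Prop where
  bound : ∀ ω m', ‖bj h (g ω) m'‖ ≤ M
  fair : ∃ (F : Filtration ℕ mΩ) (rank : (Fin k → Fin (2 ^ j)) → ℕ), Function.Injective rank ∧
    ∀ m, ∀ m' ∈ de h m, Measurable[F (rank m + 1)] (fun ω => bj h (g ω) m') ∧
      P[fun ω => bj h (g ω) m' | F (rank m)] =ᵐ[P] 0

/-- increment of a block -/
noncomputable def BB' {j j' : ℕ} (h : j ≤ j') (f : (Fin k → ℝ) → ℂ) (ξ : (Fin k → ℝ) × ℝ) : ℂ :=
  ∑ m : Fin k → Fin (2 ^ j), BD h f m ξ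

lemma BB_eq {j j' : ℕ} (h : j ≤ j') (f : (Fin k → ℝ) → ℂ) (ξ : (Fin k → ℝ) × ℝ) :
    BB' h f ξ = ∑ m' : Fin k → Fin (2 ^ j'), bj h f m' * G1 m' ξ := by
  unfold BB' BD de
  exact Finset.sum_fiberwise _ _ _

lemma Blk.meas {Ω : Type} [mΩ : MeasurableSpace Ω] {P : Measure Ω} {M : ℝ} {j j' : ℕ} {h : j ≤ j'}
    {g : Ω → (Fin k → ℝ) → ℂ} (hb : Blk P M h g) (m' : Fin k → Fin (2 ^ j')) :
    Measurable fun ω => bj h (g ω) m' := by
  obtain ⟨F, rank, _, hf⟩ := hb.fair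
  exact ((hf (an h m') m' (by simp [de])).1).mono (F.le _) le_rfl

lemma Blk.joint {Ω : Type} [mΩ : MeasurableSpace Ω] {P : Measure Ω} (hk : 1 ≤ k) {M : ℝ} {j j' : ℕ}
    {h : j ≤ j'} {g : Ω → (Fin k → ℝ) → ℂ} (hb : Blk P M h g) :
    Measurable fun p : Ω × ((Fin k → ℝ) × ℝ) => BB' h (g p.1) p.2 := by
  simp only [BB_eq]
  refine Finset.measurable_fun_sum _ fun m' _ => ?_
  exact ((hb.meas m').comp measurable_fst).mul ((G1_cont hk m').measurable.comp measurable_snd)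

lemma sq_single {β : Type} (s : Finset β) (hs : s.card ≤ 1) (φ : β → ℂ) :
    ‖∑ m ∈ s, φ m‖ ^ 2 = ∑ m ∈ s, ‖φ m‖ ^ 2 := by
  by_cases he : s = ∅
  · subst he; simp
  · obtain ⟨a, ha⟩ := Finset.card_eq_one.mp (le_antisymm hs (Finset.card_pos.mpr
      (Finset.nonempty_iff_ne_empty.mpr he)))
    subst ha
    simp

/-- moments for one block at one frequency -/
theorem block_moment (q : ℝ) (hq : 2 ≤ q) : ∃ C : ℝ≥0∞, C ≠ ∞ ∧ ∀ {k : ℕ} (_ : 1 ≤ k) {Ω : Type}
    {_mΩ : MeasurableSpace Ω} (P : Measure Ω) [IsProbabilityMeasure P] {M : ℝ} {j j' : ℕ}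
    (h : j ≤ j') (g : Ω → (Fin k → ℝ) → ℂ) (_ : Blk P M h g) (ξ : (Fin k → ℝ) × ℝ) (A : ℝ)
    (_ : 0 < A) (_ : ∀ ω, ∑ m : Fin k → Fin (2 ^ j), ‖BD h (g ω) m ξ‖ ^ 2 ≤ A),
    ∫⁻ ω, ‖BB' h (g ω) ξ‖ₑ ^ q ∂P ≤
      C * ENNReal.ofReal (A ^ ((q - 2) / 2)) * ∫⁻ ω, ‖BB' h (g ω) ξ‖ₑ ^ 2 ∂P := by
  classical
  obtain ⟨C, hC, hmom⟩ := moment_c.{0} q hq
  refine ⟨C, hC, fun {k} hk {Ω} {mΩ} P _ {M} {j} {j'} h g hb ξ A hA0 hA => ?_⟩
  obtain ⟨F, rank, hinj, hf⟩ := hb.fair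
  obtain ⟨N, hN⟩ : ∃ N, ∀ m, rank m < N := by
    refine ⟨(Finset.univ.sup rank) + 1, fun m => ?_⟩
    exact Nat.lt_succ_of_le (Finset.le_sup (f := rank) (Finset.mem_univ m))
  set fil : ℕ → Finset (Fin k → Fin (2 ^ j)) := fun n => Finset.univ.filter fun m => rank m = n with hfil
  have hcard : ∀ n, (fil n).card ≤ 1 := by
    intro n
    rw [Finset.card_le_one]
    intro a ha b hb
    rw [hfil, Finset.mem_filter] at ha hb
    exact hinj (ha.2.trans hb.2.symm)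
  set D : ℕ → Ω → ℂ := fun n ω => ∑ m ∈ fil n, BD h (g ω) m ξ with hD
  have hmaps : ∀ m ∈ (Finset.univ : Finset (Fin k → Fin (2 ^ j))), rank m ∈ Finset.range N :=
    fun m _ => Finset.mem_range.mpr (hN m)
  have hsum : ∀ ω, ∑ n ∈ Finset.range N, D n ω = BB' h (g ω) ξ := by
    intro ω
    unfold BB'
    exact Finset.sum_fiberwise_of_maps_to hmaps fun m => BD h (g ω) m ξ
  have hDm : ∀ n, Measurable[F (n + 1)] (D n) := by
    intro n
    refine Finset.measurable_fun_sum _ fun m hm => ?_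
    rw [hfil, Finset.mem_filter] at hm
    unfold BD
    refine Finset.measurable_fun_sum _ fun m' hm' => ?_
    have := (hf m m' hm').1
    rw [hm.2] at this
    exact this.mul_const _
  have hbj : ∀ m', BM mΩ (fun ω => ‖bj h (g ω) m'‖) := fun m' =>
    ⟨(hb.meas m').norm, ⟨M, fun ω => by rw [abs_norm]; exact hb.bound ω m'⟩⟩
  have hDb : ∀ n, ∃ c : ℝ, ∀ ω, ‖D n ω‖ ≤ c := by
    intro n
    refine ⟨∑ m ∈ fil n, M * ∑ m' ∈ de h m, ‖G1 m' ξ‖, fun ω => ?_⟩
    refine (norm_sum_le _ _).trans (Finset.sum_le_sum fun m _ => ?_)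
    exact BD_le_sum h m (fun m' _ => hb.bound ω m') ξ
  have hint : ∀ m', Integrable (fun ω => bj h (g ω) m') P := fun m' =>
    Integrable.of_bound (hb.meas m').aestronglyMeasurable M (Eventually.of_forall fun ω => hb.bound ω m')
  have hDc : ∀ n, P[D n | F n] =ᵐ[P] 0 := by
    intro n
    have e1 : D n = ∑ m ∈ fil n, ∑ m' ∈ de h m, G1 m' ξ • fun ω => bj h (g ω) m' := by
      funext ω
      rw [Finset.sum_apply]
      simp only [hD]
      refine Finset.sum_congr rfl fun m _ => ?_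
      rw [Finset.sum_apply]
      unfold BD
      refine Finset.sum_congr rfl fun m' _ => ?_
      rw [Pi.smul_apply, smul_eq_mul, mul_comm]
    rw [e1]
    have h1 := condExp_finsetSum (m := F n) (μ := P) (s := fil n)
      (f := fun m => ∑ m' ∈ de h m, G1 m' ξ • fun ω => bj h (g ω) m')
      (fun m _ => integrable_finsetSum' _ fun m' _ => (hint m').smul _)
    refine h1.trans ?_
    have h2 : ∀ m ∈ fil n, P[∑ m' ∈ de h m, G1 m' ξ • fun ω => bj h (g ω) m' | F n] =ᵐ[P] 0 := by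
      intro m hm
      rw [hfil, Finset.mem_filter] at hm
      have h3 := condExp_finsetSum (m := F n) (μ := P) (s := de h m)
        (f := fun m' => G1 m' ξ • fun ω => bj h (g ω) m') (fun m' _ => (hint m').smul _)
      refine h3.trans ?_
      have h4 : ∀ᵐ ω ∂P, ∀ m' ∈ de h m, P[G1 m' ξ • fun ω => bj h (g ω) m' | F n] ω = 0 := by
        rw [Finset.eventually_all]
        intro m' hm'
        have h5 := condExp_smul (m := F n) (μ := P) (G1 m' ξ) (fun ω => bj h (g ω) m')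
        have h6 := (hf m m' hm').2
        rw [hm.2] at h6
        filter_upwards [h5, h6] with ω h7 h8
        rw [h7, Pi.smul_apply, h8]
        simp
      filter_upwards [h4] with ω h5
      rw [Finset.sum_apply]
      exact Finset.sum_eq_zero h5
    have h4 : ∀ᵐ ω ∂P, ∀ m ∈ fil n, P[∑ m' ∈ de h m, G1 m' ξ • fun ω => bj h (g ω) m' | F n] ω = 0 := by
      rw [Finset.eventually_all]
      exact h2
    filter_upwards [h4] with ω h5
    rw [Finset.sum_apply]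
    exact Finset.sum_eq_zero h5
  have hV : ∀ ω, ∑ n ∈ Finset.range N, ‖D n ω‖ ^ 2 ≤ A := by
    intro ω
    refine le_trans (le_of_eq ?_) (hA ω)
    have e1 : ∀ n, ‖D n ω‖ ^ 2 = ∑ m ∈ fil n, ‖BD h (g ω) m ξ‖ ^ 2 := fun n =>
      sq_single (fil n) (hcard n) _
    rw [Finset.sum_congr rfl fun n _ => e1 n]
    exact Finset.sum_fiberwise_of_maps_to hmaps fun m => ‖BD h (g ω) m ξ‖ ^ 2
  have hres := hmom P F D hDm hDb hDc N A hA0 hV
  simp only [hsum] at hres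
  exact hres

end Pool.Agent.V5helper63.RH
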