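import Mathlib
import Pool.Agent.V5helper63.RH.R5
set_option autoImplicit false

/-! The integral of one block. -/

namespace Pool.Agent.V5helper63.RH

open MeasureTheory Set ProbabilityTheory Filter Topology
open scoped ENNReal NNReal

lemma Blk.joint_x {k : ℕ} {Ω : Type} [mΩ : MeasurableSpace Ω] {P : Measure Ω} (hk : 1 ≤ k) {M : ℝ}
    {j j' : ℕ} {h : j ≤ j'} {g : Ω → (Fin k → ℝ) → ℂ} (hb : Blk P M h g) (t : ℝ) :
    Measurable fun p : (Fin k → ℝ) × Ω => BB' h (g p.2) (p.1, t) := by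
  simp only [BB_eq]
  refine Finset.measurable_fun_sum _ fun m' _ => ?_
  have h1 : Measurable fun x : Fin k → ℝ => G1 m' (x, t) :=
    ((G1_cont hk m').comp (by fun_prop : Continuous fun x : Fin k → ℝ => (x, t))).measurable
  exact ((hb.meas m').comp measurable_snd).mul (h1.comp measurable_fst)

lemma Blk.swap_x {k : ℕ} {Ω : Type} [mΩ : MeasurableSpace Ω] {P : Measure Ω} [SFinite P]
    (hk : 1 ≤ k) {M : ℝ}
    {j j' : ℕ} {h : j ≤ j'} {g : Ω → (Fin k → ℝ) → ℂ} (hb : Blk P M h g) (t : ℝ) :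
    ∫⁻ x : Fin k → ℝ, (∫⁻ ω, ‖BB' h (g ω) (x, t)‖ₑ ^ 2 ∂P) =
      ∫⁻ ω, (∫⁻ x : Fin k → ℝ, ‖BB' h (g ω) (x, t)‖ₑ ^ 2) ∂P := by
  have hm2 : Measurable fun p : (Fin k → ℝ) × Ω => ‖BB' h (g p.2) (p.1, t)‖ₑ ^ 2 :=
    (hb.joint_x hk t).enorm.pow_const 2
  exact lintegral_lintegral_swap (f := fun x ω => ‖BB' h (g ω) (x, t)‖ₑ ^ 2) hm2.aemeasurable

lemma Blk.swap_q {k : ℕ} {Ω : Type} [mΩ : MeasurableSpace Ω] {P : Measure Ω} [SFinite P]
    (hk : 1 ≤ k) {M : ℝ}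
    {j j' : ℕ} {h : j ≤ j'} {g : Ω → (Fin k → ℝ) → ℂ} (hb : Blk P M h g) (q : ℝ) :
    ∫⁻ ω, (∫⁻ ξ, ‖BB' h (g ω) ξ‖ₑ ^ q) ∂P =
      ∫⁻ t : ℝ, ∫⁻ x : Fin k → ℝ, (∫⁻ ω, ‖BB' h (g ω) (x, t)‖ₑ ^ q ∂P) := by
  have hm3 : Measurable fun p : Ω × ((Fin k → ℝ) × ℝ) => ‖BB' h (g p.1) p.2‖ₑ ^ q :=
    (hb.joint hk).enorm.pow_const q
  rw [lintegral_lintegral_swap (f := fun ω ξ => ‖BB' h (g ω) ξ‖ₑ ^ q) hm3.aemeasurable]
  have hm4 : Measurable fun ξ : (Fin k → ℝ) × ℝ => ∫⁻ ω, ‖BB' h (g ω) ξ‖ₑ ^ q ∂P :=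
    Measurable.lintegral_prod_left' (f := fun p : Ω × ((Fin k → ℝ) × ℝ) => ‖BB' h (g p.1) p.2‖ₑ ^ q) hm3
  exact lintegral_prod_symm _ hm4.aemeasurable

/-- the exponents -/
lemma exponents (k : ℕ) (hk : 1 ≤ k) (δ q : ℝ) (hδ : 0 ≤ δ) (hq : 2 + 2 * (1 + δ) / k < q) :
    ∃ E p : ℝ, 0 < E ∧ E * (1 + δ) < 1 ∧ 1 < p ∧ 1 < (k / p) * (E * ((q - 2) / 2)) := by
  have hk0 : (0:ℝ) < k := by exact_mod_cast hk
  set a : ℝ := (q - 2) / 2 with ha
  have h1 : 1 + δ < k * a := by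
    have : 2 * (1 + δ) / k < q - 2 := by linarith
    rw [div_lt_iff₀ hk0] at this
    rw [ha]
    linarith
  have ha0 : 0 < a := by
    by_contra hc
    push Not at hc
    have : k * a ≤ 0 := mul_nonpos_of_nonneg_of_nonpos hk0.le hc
    linarith
  -- E between 1/(k a) and 1/(1+δ)
  obtain ⟨E, hE1, hE2⟩ := exists_between (show 1 / (k * a) < 1 / (1 + δ) from
    one_div_lt_one_div_of_lt (by linarith) h1)
  have hE0 : 0 < E := lt_trans (by positivity) hE1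
  have h2 : 1 < k * (E * a) := by
    rw [div_lt_iff₀ (by positivity)] at hE1
    calc 1 < E * (k * a) := hE1
      _ = _ := by ring
  refine ⟨E, (1 + k * (E * a)) / 2, hE0, ?_, by linarith, ?_⟩
  · rw [lt_div_iff₀ (by linarith)] at hE2
    exact hE2
  · have hp0 : 0 < (1 + k * (E * a)) / 2 := by linarith
    rw [div_mul_eq_mul_div, lt_div_iff₀ hp0]
    linarith

theorem block_int (k : ℕ) (hk : 1 ≤ k) (δ q : ℝ) (hδ : 0 ≤ δ) (hq : 2 + 2 * (1 + δ) / k < q) (K : ℝ) :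
    ∃ (C : ℝ≥0∞) (ρ : ℝ), C ≠ ∞ ∧ 0 < ρ ∧ ρ < 1 ∧ ∀ {Ω : Type} {_mΩ : MeasurableSpace Ω}
      (P : Measure Ω) [IsProbabilityMeasure P] {M : ℝ} (_ : 0 < M) {j j' : ℕ} (h : j ≤ j')
      (_ : (j' : ℝ) ≤ (1 + δ) * j + K) (g : Ω → (Fin k → ℝ) → ℂ) (_ : Blk P M h g),
      ∫⁻ ω, (∫⁻ ξ, ‖BB' h (g ω) ξ‖ₑ ^ q) ∂P ≤ C * ENNReal.ofReal M ^ q * ENNReal.ofReal ρ ^ j := by
  have hk0 : (0:ℝ) < k := by exact_mod_cast hk
  obtain ⟨E, p, hE0, hE1, hp1, hκ⟩ := exponents k hk δ q hδ hq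
  have hq2 : 2 ≤ q := by
    have : 0 ≤ 2 * (1 + δ) / (k:ℝ) := by positivity
    linarith
  set a : ℝ := (q - 2) / 2 with ha
  have ha0 : 0 ≤ a := by rw [ha]; linarith
  have hE1' : E < 1 := by nlinarith
  obtain ⟨C0, hC0, hmom⟩ := block_moment q hq2
  obtain ⟨Cp, hCp, hdec⟩ := NN_decay' k hk p hp1
  set κ : ℝ := (k / p) * (E * a) with hκdef
  set I : ℝ≥0∞ := ∫⁻ t : ℝ, ENNReal.ofReal ((1 + |t|) ^ (-κ)) with hI
  have hIfin : I ≠ ∞ := by
    have h1 : Integrable (fun t : ℝ => (1 + ‖t‖) ^ (-κ)) := integrable_one_add_norm (by simpa using hκ)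
    have h2 := h1.hasFiniteIntegral
    rw [hasFiniteIntegral_iff_ofReal (Filter.Eventually.of_forall fun t => by positivity)] at h2
    simp only [Real.norm_eq_abs] at h2
    exact h2.ne
  set ρ : ℝ := (1 / 2 : ℝ) ^ (k * a * (1 - E * (1 + δ))) with hρ
  have ha1 : 0 < a := by
    have : 0 < 2 * (1 + δ) / (k:ℝ) := by positivity
    rw [ha]; linarith
  have hρ0 : 0 < ρ := by positivity
  have hρ1 : ρ < 1 := by
    apply Real.rpow_lt_one (by norm_num) (by norm_num)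
    have : 0 < 1 - E * (1 + δ) := by linarith
    positivity
  set C1 : ℝ := (2 ^ (k * K) * Cp) ^ (E * a) with hC1
  have hC10 : 0 < C1 := by positivity
  refine ⟨C0 * ENNReal.ofReal C1 * I, ρ, ENNReal.mul_ne_top (ENNReal.mul_ne_top hC0
    ENNReal.ofReal_ne_top) hIfin, hρ0, hρ1, ?_⟩
  intro Ω mΩ P _ M hM0 j j' h hjj g hb
  -- the bound for the square function
  set sm : ℝ := ((1 / 2 : ℝ) ^ j) ^ k with hsm
  have hsm0 : 0 < sm := by positivity
  set big : ℝ → ℝ := fun t => (2 ^ (j' - j)) ^ k * (Cp * (1 + |t|) ^ (-(k / p : ℝ))) with hbig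
  have hbig0 : ∀ t, 0 < big t := fun t => by positivity
  set A : ℝ → ℝ := fun t => M ^ 2 * (sm ^ (1 - E) * big t ^ E) with hA
  have hA0 : ∀ t, 0 < A t := fun t => by have := hbig0 t; positivity
  have hV : ∀ (x : Fin k → ℝ) (t : ℝ) (ω : Ω), ∑ m : Fin k → Fin (2 ^ j), ‖BD h (g ω) m (x, t)‖ ^ 2 ≤ A t := by
    intro x t ω
    set V : ℝ := ∑ m : Fin k → Fin (2 ^ j), ‖BD h (g ω) m (x, t)‖ ^ 2 with hVdef
    have hV0 : 0 ≤ V := Finset.sum_nonneg fun _ _ => by positivity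
    have h1 : V ≤ M ^ 2 * sm := V_small hk h hM0.le (hb.bound ω) (x, t)
    have h2 : V ≤ M ^ 2 * big t := by
      refine (V_NN hk h (hb.bound ω) (x, t)).trans ?_
      rw [hbig]
      simp only
      gcongr
      exact hdec j' x t
    have h3 : V / M ^ 2 ≤ sm := by rw [div_le_iff₀ (by positivity)]; linarith
    have h4 : V / M ^ 2 ≤ big t := by rw [div_le_iff₀ (by positivity)]; linarith
    have h5 : 0 ≤ V / M ^ 2 := by positivity
    have h6 : V / M ^ 2 ≤ sm ^ (1 - E) * big t ^ E := by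
      rcases h5.eq_or_lt with h0 | h0
      · rw [← h0]
        have := hbig0 t
        positivity
      · calc V / M ^ 2 = (V / M ^ 2) ^ (1 - E) * (V / M ^ 2) ^ E := by
              rw [← Real.rpow_add h0, sub_add_cancel, Real.rpow_one]
          _ ≤ sm ^ (1 - E) * big t ^ E := by
              gcongr
    rw [hA]
    simp only
    rw [div_le_iff₀ (by positivity)] at h6
    linarith
  have hmp : ∀ (x : Fin k → ℝ) (t : ℝ), ∫⁻ ω, ‖BB' h (g ω) (x, t)‖ₑ ^ q ∂P ≤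
      C0 * ENNReal.ofReal (A t ^ a) * ∫⁻ ω, ‖BB' h (g ω) (x, t)‖ₑ ^ 2 ∂P := fun x t =>
    hmom hk P h g hb (x, t) (A t) (hA0 t) (hV x t)
  have hsl : ∀ t, ∫⁻ x : Fin k → ℝ, (∫⁻ ω, ‖BB' h (g ω) (x, t)‖ₑ ^ 2 ∂P) ≤ ENNReal.ofReal (M ^ 2) := by
    intro t
    rw [hb.swap_x hk t]
    calc ∫⁻ ω, (∫⁻ x : Fin k → ℝ, ‖BB' h (g ω) (x, t)‖ₑ ^ 2) ∂P ≤ ∫⁻ _, ENNReal.ofReal (M ^ 2) ∂P := by
          refine lintegral_mono fun ω => ?_
          have h1 := slice_st hk hM0.le (fun m' => hb.bound ω m') t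
          simp only [← BB_eq] at h1
          exact h1
      _ = _ := by simp
  -- the power of A
  have hApow : ∀ t, A t ^ a ≤ M ^ (q - 2) * (C1 * ρ ^ j * (1 + |t|) ^ (-κ)) := by
    intro t
    have h1t : 0 < 1 + |t| := by positivity
    have e1 : A t ^ a = M ^ (q - 2) * (sm ^ ((1 - E) * a) * big t ^ (E * a)) := by
      rw [hA]
      simp only
      have := hbig0 t
      rw [Real.mul_rpow (by positivity) (by positivity), Real.mul_rpow (by positivity) (by positivity),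
        ← Real.rpow_mul hsm0.le, ← Real.rpow_mul this.le, ← Real.rpow_natCast M 2,
        ← Real.rpow_mul hM0.le]
      congr 2
      rw [ha]
      push_cast
      ring
    rw [e1]
    refine mul_le_mul_of_nonneg_left ?_ (by positivity)
    have e2 : sm ^ ((1 - E) * a) = (2:ℝ) ^ (-(k * j * ((1 - E) * a))) := by
      rw [hsm, ← Real.rpow_natCast _ k, ← Real.rpow_natCast _ j, ← Real.rpow_mul (by positivity),
        ← Real.rpow_mul (by positivity), one_div, Real.inv_rpow (by norm_num),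
        ← Real.rpow_neg (by norm_num)]
      congr 1
      ring
    have e3 : big t ^ (E * a) = ((2:ℝ) ^ (k * ((j' - j : ℕ) : ℝ)) * Cp) ^ (E * a) *
        (1 + |t|) ^ (-κ) := by
      rw [hbig]
      simp only
      rw [← mul_assoc, Real.mul_rpow (by positivity) (by positivity), ← Real.rpow_mul h1t.le]
      congr 2
      · rw [← Real.rpow_natCast _ k, ← Real.rpow_natCast _ (j' - j), ← Real.rpow_mul (by norm_num)]
        rw [mul_comm (k : ℝ)]
      · rw [hκdef]; ring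
    rw [e2, e3, ← mul_assoc]
    refine mul_le_mul_of_nonneg_right ?_ (by positivity)
    -- exponents of two
    have hd : ((j' - j : ℕ) : ℝ) ≤ δ * j + K := by
      rw [Nat.cast_sub h]
      linarith
    have e4 : ρ ^ j = (2:ℝ) ^ (-(k * a * (1 - E * (1 + δ)) * j)) := by
      rw [hρ, ← Real.rpow_natCast _ j, ← Real.rpow_mul (by norm_num), one_div,
        Real.inv_rpow (by norm_num), ← Real.rpow_neg (by norm_num)]
    calc (2:ℝ) ^ (-(k * j * ((1 - E) * a))) * ((2:ℝ) ^ (k * ((j' - j : ℕ) : ℝ)) * Cp) ^ (E * a)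
        ≤ (2:ℝ) ^ (-(k * j * ((1 - E) * a))) * ((2:ℝ) ^ (k * (δ * j + K)) * Cp) ^ (E * a) := by
          gcongr
          norm_num
      _ = C1 * ρ ^ j := by
          rw [hC1, e4]
          have e5 : (2:ℝ) ^ (k * (δ * j + K)) * Cp = (2:ℝ) ^ (k * (δ * j)) * ((2:ℝ) ^ (k * K) * Cp) := by
            rw [← mul_assoc, ← Real.rpow_add (by norm_num)]
            congr 2
            ring
          rw [e5, Real.mul_rpow (by positivity) (by positivity), ← Real.rpow_mul (by norm_num),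
            ← mul_assoc, ← Real.rpow_add (by norm_num), mul_comm]
          congr 2
          ring
  rw [hb.swap_q hk q]
  calc ∫⁻ t : ℝ, ∫⁻ x : Fin k → ℝ, (∫⁻ ω, ‖BB' h (g ω) (x, t)‖ₑ ^ q ∂P)
      ≤ ∫⁻ t : ℝ, (C0 * (ENNReal.ofReal (M ^ q * (C1 * ρ ^ j)) * ENNReal.ofReal ((1 + |t|) ^ (-κ)))) := by
        refine lintegral_mono fun t => ?_
        calc ∫⁻ x : Fin k → ℝ, (∫⁻ ω, ‖BB' h (g ω) (x, t)‖ₑ ^ q ∂P)
            ≤ ∫⁻ x : Fin k → ℝ, C0 * ENNReal.ofReal (A t ^ a) *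
                ∫⁻ ω, ‖BB' h (g ω) (x, t)‖ₑ ^ 2 ∂P := lintegral_mono fun x => hmp x t
          _ = C0 * ENNReal.ofReal (A t ^ a) *
                ∫⁻ x : Fin k → ℝ, (∫⁻ ω, ‖BB' h (g ω) (x, t)‖ₑ ^ 2 ∂P) :=
              lintegral_const_mul' _ _ (ENNReal.mul_ne_top hC0 ENNReal.ofReal_ne_top)
          _ ≤ C0 * ENNReal.ofReal (M ^ (q - 2) * (C1 * ρ ^ j * (1 + |t|) ^ (-κ))) *
                ENNReal.ofReal (M ^ 2) := by
              gcongr
              · exact hApow t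
              · exact hsl t
          _ = _ := by
              rw [mul_assoc, ← ENNReal.ofReal_mul (by positivity), ← ENNReal.ofReal_mul (by positivity)]
              congr 2
              have e6 : M ^ q = M ^ (q - 2) * M ^ 2 := by
                rw [← Real.rpow_natCast M 2, ← Real.rpow_add hM0]
                congr 1
                push_cast
                ring
              rw [e6]
              ring
    _ = C0 * (ENNReal.ofReal (M ^ q * (C1 * ρ ^ j)) * I) := by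
        rw [lintegral_const_mul' _ _ hC0, lintegral_const_mul' _ _ ENNReal.ofReal_ne_top]
    _ = _ := by
        rw [ENNReal.ofReal_mul (by positivity), ENNReal.ofReal_mul (by positivity),
          ENNReal.ofReal_pow hρ0.le, ENNReal.ofReal_rpow_of_pos hM0]
        ring

end Pool.Agent.V5helper63.RH
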