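import Mathlib
import Pool.Agent.V5helper63.RH.R6
set_option autoImplicit false

/-! Summation over the blocks. -/

namespace Pool.Agent.V5helper63.RH

open MeasureTheory Set ProbabilityTheory Filter Topology
open scoped ENNReal NNReal

variable {k : ℕ}

lemma G1_rt_int (hk : 1 ≤ k) {q : ℝ} (hq : 2 * ((k : ℝ) + 1) / k < q) :
    ∫⁻ ξ, ‖G1 (rt k) ξ‖ₑ ^ q < ∞ := by
  have hk0 : (0:ℝ) < k := by exact_mod_cast hk
  have hs : ((k : ℝ) + 1) / k < q / 2 := by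
    have : (2:ℝ) * (((k : ℝ) + 1) / k) < q := by rw [← mul_div_assoc]; exact hq
    linarith
  obtain ⟨C, ρ, hC, _, _, h⟩ := NN_pow k hk (q / 2) hs
  have h0 := h 0
  refine lt_of_le_of_lt (lintegral_mono fun ξ => ?_) (h0.trans_lt (by simpa using hC.lt_top))
  have h1 : ‖G1 (rt k) ξ‖ₑ ^ (2:ℝ) ≤ ENNReal.ofReal (NN k 0 ξ) := by
    rw [← ofReal_norm, ENNReal.ofReal_rpow_of_nonneg (norm_nonneg _) (by norm_num)]
    apply ENNReal.ofReal_le_ofReal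
    rw [Real.rpow_two]
    unfold NN
    exact Finset.single_le_sum (f := fun m : Fin k → Fin (2 ^ 0) => ‖G1 m ξ‖ ^ 2)
      (fun _ _ => by positivity) (Finset.mem_univ (rt k))
  have hq0 : 0 ≤ q / 2 := by
    have : 0 ≤ ((k : ℝ) + 1) / k := by positivity
    linarith
  calc ‖G1 (rt k) ξ‖ₑ ^ q = (‖G1 (rt k) ξ‖ₑ ^ (2:ℝ)) ^ (q / 2) := by
        rw [← ENNReal.rpow_mul]
        congr 1
        ring
    _ ≤ _ := ENNReal.rpow_le_rpow h1 hq0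

lemma gen_ge {gen : ℕ → ℕ} (hmono : ∀ i, gen i < gen (i + 1)) (i : ℕ) : i ≤ gen i := by
  induction i with
  | zero => exact Nat.zero_le _
  | succ i ih => exact Nat.succ_le_of_lt (lt_of_le_of_lt ih (hmono i))

lemma AP_blocks (hk : 1 ≤ k) {gen : ℕ → ℕ} (hle : ∀ i, gen i ≤ gen (i + 1))
    (f : (Fin k → ℝ) → ℂ) (ξ : (Fin k → ℝ) × ℝ) (I : ℕ) :
    AP f (gen I) ξ = AP f (gen 0) ξ + ∑ i ∈ Finset.range I, BB' (hle i) f ξ := by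
  induction I with
  | zero => simp
  | succ I ih =>
    rw [AP_block hk (hle I), ih, Finset.sum_range_succ, add_assoc]
    rfl

lemma FF_le_blocks (hk : 1 ≤ k) {gen : ℕ → ℕ} (hle : ∀ i, gen i ≤ gen (i + 1))
    (hmono : ∀ i, gen i < gen (i + 1)) {f : (Fin k → ℝ) → ℂ} (hf : IntegrableOn f (QQ k))
    (ξ : (Fin k → ℝ) × ℝ) :
    ‖FF f ξ - AP f (gen 0) ξ‖ₑ ≤ ∑' i, ‖BB' (hle i) f ξ‖ₑ := by
  have hgen : Tendsto gen atTop atTop := tendsto_atTop_mono (gen_ge hmono) tendsto_id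
  have h1 : Tendsto (fun I => ‖AP f (gen I) ξ - AP f (gen 0) ξ‖ₑ) atTop
      (𝓝 ‖FF f ξ - AP f (gen 0) ξ‖ₑ) :=
    (((AP_tendsto hk hf ξ).comp hgen).sub_const _).enorm
  refine le_of_tendsto' h1 fun I => ?_
  rw [AP_blocks hk hle, add_sub_cancel_left]
  calc ‖∑ i ∈ Finset.range I, BB' (hle i) f ξ‖ₑ ≤ ∑ i ∈ Finset.range I, ‖BB' (hle i) f ξ‖ₑ :=
        enorm_sum_le _ _
    _ ≤ _ := ENNReal.sum_le_tsum _

variable {Ω : Type} {mΩ : MeasurableSpace Ω} {P : Measure Ω}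

/-- the sum of the blocks -/
noncomputable def ZZ {gen : ℕ → ℕ} (hle : ∀ i, gen i ≤ gen (i + 1)) (q : ℝ)
    (g : Ω → (Fin k → ℝ) → ℂ) (p : Ω × ((Fin k → ℝ) × ℝ)) : ℝ≥0∞ :=
  (∑' i, ‖BB' (hle i) (g p.1) p.2‖ₑ) ^ q

lemma ZZ_meas (hk : 1 ≤ k) {gen : ℕ → ℕ} (hle : ∀ i, gen i ≤ gen (i + 1)) (q : ℝ) {M : ℝ}
    {g : Ω → (Fin k → ℝ) → ℂ} (hb : ∀ i, Blk P M (hle i) g) : Measurable (ZZ hle q g) := by
  unfold ZZ
  exact (Measurable.tsum fun i => ((hb i).joint hk).enorm).pow_const q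

lemma ZZ_slice (hk : 1 ≤ k) {gen : ℕ → ℕ} (hle : ∀ i, gen i ≤ gen (i + 1)) (q : ℝ) {M : ℝ}
    {g : Ω → (Fin k → ℝ) → ℂ} (hb : ∀ i, Blk P M (hle i) g) (ω : Ω) :
    Measurable fun ξ => ZZ hle q g (ω, ξ) :=
  (ZZ_meas hk hle q hb).comp measurable_prodMk_left

lemma ZZ_int_meas (hk : 1 ≤ k) {gen : ℕ → ℕ} (hle : ∀ i, gen i ≤ gen (i + 1)) (q : ℝ) {M : ℝ}
    {g : Ω → (Fin k → ℝ) → ℂ} (hb : ∀ i, Blk P M (hle i) g) :
    Measurable fun ω => ∫⁻ ξ, ZZ hle q g (ω, ξ) :=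
  (ZZ_meas hk hle q hb).lintegral_prod_right'

lemma BB_slice (hk : 1 ≤ k) {j j' : ℕ} (h : j ≤ j') (f : (Fin k → ℝ) → ℂ) :
    Measurable fun ξ => BB' h f ξ := by
  simp only [BB_eq]
  exact Finset.measurable_fun_sum _ fun m' _ => (G1_cont hk m').measurable.const_mul _

lemma BB_int_meas (hk : 1 ≤ k) {j j' : ℕ} (h : j ≤ j') {M : ℝ} {g : Ω → (Fin k → ℝ) → ℂ}
    (hb : Blk P M h g) (q : ℝ) (c : ℝ≥0∞) :
    Measurable fun ω => ∫⁻ ξ, (c * ‖BB' h (g ω) ξ‖ₑ) ^ q := by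
  have h1 : Measurable fun p : Ω × ((Fin k → ℝ) × ℝ) => (c * ‖BB' h (g p.1) p.2‖ₑ) ^ q :=
    ((hb.joint hk).enorm.const_mul c).pow_const q
  exact h1.lintegral_prod_right'

/-- the double integral of the sum of the blocks -/
theorem ZZ_bound (hk : 1 ≤ k) (δ q : ℝ) (hδ : 0 ≤ δ) (hq : 2 + 2 * (1 + δ) / k < q) (K : ℝ) :
    ∃ C : ℝ≥0∞, C ≠ ∞ ∧ ∀ {Ω : Type} {_mΩ : MeasurableSpace Ω} (P : Measure Ω)
      [IsProbabilityMeasure P] {M : ℝ} (_ : 0 < M) {gen : ℕ → ℕ} (hle : ∀ i, gen i ≤ gen (i + 1))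
      (_ : ∀ i, gen i < gen (i + 1)) (_ : ∀ i, (gen (i + 1) : ℝ) ≤ (1 + δ) * gen i + K)
      (g : Ω → (Fin k → ℝ) → ℂ) (_ : ∀ i, Blk P M (hle i) g),
      ∫⁻ ω, (∫⁻ ξ, ZZ hle q g (ω, ξ)) ∂P ≤ C * ENNReal.ofReal M ^ q := by
  have hk0 : (0:ℝ) < k := by exact_mod_cast hk
  have hq0 : 0 < q := by
    have : 0 ≤ 2 * (1 + δ) / (k:ℝ) := by positivity
    linarith
  obtain ⟨C, ρ, hC, hρ0, hρ1, hblk⟩ := block_int k hk δ q hδ hq K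
  set r : ℝ := ρ ^ (1 / (2 * q)) with hr
  have hr0 : 0 < r := by positivity
  have hr1 : r < 1 := Real.rpow_lt_one hρ0.le hρ1 (by positivity)
  set R : ℝ≥0∞ := ENNReal.ofReal r with hR
  have hR0 : R ≠ 0 := by rw [hR]; exact (ENNReal.ofReal_pos.mpr hr0).ne'
  have hRt : R ≠ ∞ := ENNReal.ofReal_ne_top
  have hRs : (R⁻¹) ^ q * ENNReal.ofReal ρ = ENNReal.ofReal (ρ ^ (1 / 2 : ℝ)) := by
    rw [hR, ← ENNReal.ofReal_inv_of_pos hr0, ENNReal.ofReal_rpow_of_pos (by positivity),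
      ← ENNReal.ofReal_mul (by positivity)]
    congr 1
    rw [hr, ← Real.rpow_neg hρ0.le, ← Real.rpow_mul hρ0.le, ← Real.rpow_add_one hρ0.ne']
    congr 1
    field_simp
    ring
  have hgeo : ∀ x : ℝ, 0 ≤ x → x < 1 → ∑' j : ℕ, ENNReal.ofReal x ^ j ≠ ∞ := by
    intro x hx0 hx1
    rw [ENNReal.tsum_geometric]
    apply ENNReal.inv_ne_top.mpr
    rw [ne_eq, tsub_eq_zero_iff_le, not_le]
    rw [ENNReal.ofReal_lt_one]
    exact hx1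
  set T : ℝ≥0∞ := (∑' j : ℕ, R ^ j) ^ q with hT
  have hTt : T ≠ ∞ := ENNReal.rpow_ne_top_of_nonneg hq0.le (hgeo r hr0.le hr1)
  refine ⟨T * (C * ∑' j : ℕ, ENNReal.ofReal (ρ ^ (1 / 2 : ℝ)) ^ j), ?_, ?_⟩
  · refine ENNReal.mul_ne_top hTt (ENNReal.mul_ne_top hC (hgeo _ (by positivity) ?_))
    exact Real.rpow_lt_one hρ0.le hρ1 (by norm_num)
  intro Ω mΩ P _ M hM gen hle hmono hgr g hb
  have hone : ∀ i, ∫⁻ ω, (∫⁻ ξ, (R⁻¹ ^ i * ‖BB' (hle i) (g ω) ξ‖ₑ) ^ q) ∂P ≤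
      C * ENNReal.ofReal M ^ q * ENNReal.ofReal (ρ ^ (1 / 2 : ℝ)) ^ i := by
    intro i
    have e1 : ∀ (ω : Ω) (ξ : (Fin k → ℝ) × ℝ), (R⁻¹ ^ i * ‖BB' (hle i) (g ω) ξ‖ₑ) ^ q =
        ((R⁻¹) ^ q) ^ i * ‖BB' (hle i) (g ω) ξ‖ₑ ^ q := by
      intro ω ξ
      rw [ENNReal.mul_rpow_of_nonneg _ _ hq0.le, ← ENNReal.rpow_natCast, ← ENNReal.rpow_mul,
        mul_comm (i : ℝ) q, ENNReal.rpow_mul, ENNReal.rpow_natCast]
    have hct : ((R⁻¹) ^ q) ^ i ≠ ∞ := by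
      apply ENNReal.pow_ne_top
      apply ENNReal.rpow_ne_top_of_nonneg hq0.le
      exact ENNReal.inv_ne_top.mpr hR0
    calc ∫⁻ ω, (∫⁻ ξ, (R⁻¹ ^ i * ‖BB' (hle i) (g ω) ξ‖ₑ) ^ q) ∂P
        = ∫⁻ ω, (((R⁻¹) ^ q) ^ i * ∫⁻ ξ, ‖BB' (hle i) (g ω) ξ‖ₑ ^ q) ∂P := by
          refine lintegral_congr fun ω => ?_
          rw [lintegral_congr (e1 ω), lintegral_const_mul' _ _ hct]
      _ = ((R⁻¹) ^ q) ^ i * ∫⁻ ω, (∫⁻ ξ, ‖BB' (hle i) (g ω) ξ‖ₑ ^ q) ∂P :=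
          lintegral_const_mul' _ _ hct
      _ ≤ ((R⁻¹) ^ q) ^ i * (C * ENNReal.ofReal M ^ q * ENNReal.ofReal ρ ^ (gen i)) := by
          gcongr
          exact hblk P hM (hle i) (hgr i) g (hb i)
      _ ≤ ((R⁻¹) ^ q) ^ i * (C * ENNReal.ofReal M ^ q * ENNReal.ofReal ρ ^ i) := by
          gcongr _ * (_ * ?_)
          refine pow_le_pow_of_le_one zero_le ?_ (gen_ge hmono i)
          rw [ENNReal.ofReal_le_one]
          exact hρ1.le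
      _ = C * ENNReal.ofReal M ^ q * ((R⁻¹) ^ q * ENNReal.ofReal ρ) ^ i := by
          rw [mul_pow]
          ring
      _ = _ := by rw [hRs]
  calc ∫⁻ ω, (∫⁻ ξ, ZZ hle q g (ω, ξ)) ∂P
      ≤ ∫⁻ ω, (∫⁻ ξ, T * ∑' i, (R⁻¹ ^ i * ‖BB' (hle i) (g ω) ξ‖ₑ) ^ q) ∂P := by
        refine lintegral_mono fun ω => lintegral_mono fun ξ => ?_
        exact tsum_rpow_le (fun i => ‖BB' (hle i) (g ω) ξ‖ₑ) R hR0 hRt q hq0
    _ = ∫⁻ ω, (T * ∑' i, ∫⁻ ξ, (R⁻¹ ^ i * ‖BB' (hle i) (g ω) ξ‖ₑ) ^ q) ∂P := by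
        refine lintegral_congr fun ω => ?_
        rw [lintegral_const_mul' _ _ hTt, lintegral_tsum fun i => ?_]
        exact (((BB_slice hk (hle i) (g ω)).enorm.const_mul _).pow_const q).aemeasurable
    _ = T * ∑' i, ∫⁻ ω, (∫⁻ ξ, (R⁻¹ ^ i * ‖BB' (hle i) (g ω) ξ‖ₑ) ^ q) ∂P := by
        rw [lintegral_const_mul' _ _ hTt, lintegral_tsum fun i => ?_]
        exact (BB_int_meas hk (hle i) (hb i) q _).aemeasurable
    _ ≤ T * ∑' i, C * ENNReal.ofReal M ^ q * ENNReal.ofReal (ρ ^ (1 / 2 : ℝ)) ^ i := by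
        gcongr with i
        exact hone i
    _ = _ := by
        rw [ENNReal.tsum_mul_left]
        ring

/-- **The main theorem, internal form** -/
theorem main (hk : 1 ≤ k) (δ q : ℝ) (hδ : 0 ≤ δ) (hq : 2 + 2 * (1 + δ) / k < q) (K : ℝ) :
    ∃ C : ℝ≥0∞, C ≠ ∞ ∧ ∀ {Ω : Type} {_mΩ : MeasurableSpace Ω} (P : Measure Ω)
      [IsProbabilityMeasure P] {M : ℝ} (_ : 0 < M) {gen : ℕ → ℕ} (_ : gen 0 = 0)
      (hle : ∀ i, gen i ≤ gen (i + 1))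
      (_ : ∀ i, gen i < gen (i + 1)) (_ : ∀ i, (gen (i + 1) : ℝ) ≤ (1 + δ) * gen i + K)
      (g : Ω → (Fin k → ℝ) → ℂ) (_ : ∀ ω, IntegrableOn (g ω) (QQ k))
      (_ : ∀ ω, ‖av (g ω) (rt k)‖ ≤ M) (_ : ∀ i, Blk P M (hle i) g),
      ∫⁻ ω, (∫⁻ ξ, ‖FF (g ω) ξ‖ₑ ^ q) ∂P ≤ C * ENNReal.ofReal M ^ q ∧
      ∀ᵐ ω ∂P, ∫⁻ ξ, ‖FF (g ω) ξ‖ₑ ^ q < ∞ := by
  have hk0 : (0:ℝ) < k := by exact_mod_cast hk
  have hq1 : 1 ≤ q := by
    have : 0 ≤ 2 * (1 + δ) / (k:ℝ) := by positivity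
    linarith
  have hq0 : 0 < q := by linarith
  have hqc : 2 * ((k : ℝ) + 1) / k < q := by
    refine lt_of_le_of_lt ?_ hq
    rw [div_le_iff₀ hk0, add_mul, div_mul_cancel₀ _ hk0.ne']
    nlinarith
  obtain ⟨C, hC, hZ⟩ := ZZ_bound hk δ q hδ hq K
  set G : ℝ≥0∞ := ∫⁻ ξ, ‖G1 (rt k) ξ‖ₑ ^ q with hG
  have hGt : G < ∞ := G1_rt_int hk hqc
  refine ⟨2 ^ (q - 1) * (G + C), ?_, ?_⟩
  · refine ENNReal.mul_ne_top (ENNReal.rpow_ne_top_of_nonneg (by linarith) (by norm_num)) ?_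
    exact ENNReal.add_ne_top.mpr ⟨hGt.ne, hC⟩
  intro Ω mΩ P _ M hM gen h0 hle hmono hgr g hg hroot hb
  have hZb := hZ P hM hle hmono hgr g hb
  have hMq : ENNReal.ofReal M ^ q ≠ ∞ := ENNReal.rpow_ne_top_of_nonneg hq0.le ENNReal.ofReal_ne_top
  have hsplit : ∀ ω, ∫⁻ ξ, ‖FF (g ω) ξ‖ₑ ^ q ≤ 2 ^ (q - 1) * (ENNReal.ofReal M ^ q * G +
      ∫⁻ ξ, ZZ hle q g (ω, ξ)) := by
    intro ω
    calc ∫⁻ ξ, ‖FF (g ω) ξ‖ₑ ^ q ≤ ∫⁻ ξ, 2 ^ (q - 1) * (ENNReal.ofReal M ^ q * ‖G1 (rt k) ξ‖ₑ ^ q +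
          ZZ hle q g (ω, ξ)) := by
          refine lintegral_mono fun ξ => ?_
          have e0 : AP (g ω) (gen 0) ξ = av (g ω) (rt k) * G1 (rt k) ξ := by
            rw [h0, AP_zero]
          have e1 : ‖FF (g ω) ξ‖ₑ ≤ ‖av (g ω) (rt k) * G1 (rt k) ξ‖ₑ +
              ‖FF (g ω) ξ - AP (g ω) (gen 0) ξ‖ₑ := by
            have := enorm_add_le (av (g ω) (rt k) * G1 (rt k) ξ)
              (FF (g ω) ξ - av (g ω) (rt k) * G1 (rt k) ξ)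
            rw [add_sub_cancel] at this
            rw [e0]
            exact this
          calc ‖FF (g ω) ξ‖ₑ ^ q ≤ (‖av (g ω) (rt k) * G1 (rt k) ξ‖ₑ +
              ∑' i, ‖BB' (hle i) (g ω) ξ‖ₑ) ^ q := by
                refine ENNReal.rpow_le_rpow (e1.trans ?_) hq0.le
                gcongr
                exact FF_le_blocks hk hle hmono (hg ω) ξ
            _ ≤ 2 ^ (q - 1) * (‖av (g ω) (rt k) * G1 (rt k) ξ‖ₑ ^ q +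
              (∑' i, ‖BB' (hle i) (g ω) ξ‖ₑ) ^ q) := ENNReal.rpow_add_le_mul_rpow_add_rpow _ _ hq1
            _ ≤ _ := by
                gcongr
                · rw [enorm_mul, ENNReal.mul_rpow_of_nonneg _ _ hq0.le]
                  gcongr
                  rw [← ofReal_norm]
                  exact ENNReal.ofReal_le_ofReal (hroot ω)
                · exact le_rfl
      _ = _ := by
          have m1 : Measurable fun ξ => ENNReal.ofReal M ^ q * ‖G1 (rt k) ξ‖ₑ ^ q :=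
            ((G1_cont hk (rt k)).measurable.enorm.pow_const q).const_mul _
          have m2 : Measurable fun ξ => ENNReal.ofReal M ^ q * ‖G1 (rt k) ξ‖ₑ ^ q +
              ZZ hle q g (ω, ξ) := m1.add (ZZ_slice hk hle q hb ω)
          rw [lintegral_const_mul _ m2, lintegral_add_left m1, lintegral_const_mul' _ _ hMq]
  have hZm := ZZ_int_meas hk hle q hb
  refine ⟨?_, ?_⟩
  · calc ∫⁻ ω, (∫⁻ ξ, ‖FF (g ω) ξ‖ₑ ^ q) ∂P ≤ ∫⁻ ω, 2 ^ (q - 1) * (ENNReal.ofReal M ^ q * G +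
        ∫⁻ ξ, ZZ hle q g (ω, ξ)) ∂P := lintegral_mono hsplit
      _ = 2 ^ (q - 1) * (ENNReal.ofReal M ^ q * G + ∫⁻ ω, (∫⁻ ξ, ZZ hle q g (ω, ξ)) ∂P) := by
          have m2 : Measurable fun ω => ENNReal.ofReal M ^ q * G + ∫⁻ ξ, ZZ hle q g (ω, ξ) :=
            measurable_const.add hZm
          rw [lintegral_const_mul _ m2, lintegral_add_left measurable_const]
          simp
      _ ≤ 2 ^ (q - 1) * (ENNReal.ofReal M ^ q * G + C * ENNReal.ofReal M ^ q) := by gcongr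
      _ = _ := by ring
  · have hlt : ∀ᵐ ω ∂P, ∫⁻ ξ, ZZ hle q g (ω, ξ) < ∞ := by
      refine ae_lt_top hZm ?_
      exact (hZb.trans_lt (ENNReal.mul_lt_top hC.lt_top hMq.lt_top)).ne
    filter_upwards [hlt] with ω hω
    refine (hsplit ω).trans_lt ?_
    refine ENNReal.mul_lt_top ?_ (ENNReal.add_lt_top.mpr ⟨ENNReal.mul_lt_top hMq.lt_top hGt, hω⟩)
    exact ENNReal.rpow_lt_top_of_nonneg (by linarith) (by norm_num)

end Pool.Agent.V5helper63.RH
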