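import Mathlib
import Pool.Agent.V5helper63.RH.R7
set_option autoImplicit false

/-! Continuity and boundedness of the transform, all exponents at once. -/

namespace Pool.Agent.V5helper63.RH

open MeasureTheory Set ProbabilityTheory Filter Topology
open scoped ENNReal NNReal

variable {k : ℕ}

lemma FF_cont {f : (Fin k → ℝ) → ℂ} (hf : IntegrableOn f (QQ k)) : Continuous (FF f) := by
  unfold FF
  refine continuous_of_dominated (bound := fun z => ‖f z‖) (fun ξ => ?_) (fun ξ => ?_)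
    hf.norm ?_
  · exact hf.aestronglyMeasurable.mul (ee_cont' ξ).aestronglyMeasurable
  · exact Eventually.of_forall fun z => by rw [norm_mul, ee_norm, mul_one]
  · refine Eventually.of_forall fun z => ?_
    have h1 : Continuous fun ξ : (Fin k → ℝ) × ℝ => ee ξ z :=
      (ee_cont (k := k)).comp (by fun_prop : Continuous fun ξ : (Fin k → ℝ) × ℝ => (ξ, z))
    exact continuous_const.mul h1

lemma FF_bdd {f : (Fin k → ℝ) → ℂ} (ξ : (Fin k → ℝ) × ℝ) :
    ‖FF f ξ‖ ≤ ∫ z in QQ k, ‖f z‖ := by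
  unfold FF
  refine (norm_integral_le_integral_norm _).trans (le_of_eq ?_)
  refine integral_congr_ae (Eventually.of_forall fun z => ?_)
  simp only [norm_mul, ee_norm, mul_one]

/-- higher exponents for a bounded function -/
lemma up_exp {f : (Fin k → ℝ) → ℂ} (hf : IntegrableOn f (QQ k)) {q q' : ℝ}
    (hq : 0 < q) (hqq : q ≤ q') (h : ∫⁻ ξ, ‖FF f ξ‖ₑ ^ q < ∞) :
    MemLp (FF f) (ENNReal.ofReal q') := by
  refine ⟨(FF_cont hf).aestronglyMeasurable, ?_⟩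
  have hq' : 0 < q' := hq.trans_le hqq
  rw [eLpNorm_lt_top_iff_lintegral_rpow_enorm_lt_top (by simpa using hq') ENNReal.ofReal_ne_top,
    ENNReal.toReal_ofReal hq'.le]
  set B : ℝ≥0∞ := ENNReal.ofReal (∫ z in QQ k, ‖f z‖) with hB
  calc ∫⁻ ξ, ‖FF f ξ‖ₑ ^ q' ≤ ∫⁻ ξ, B ^ (q' - q) * ‖FF f ξ‖ₑ ^ q := by
        refine lintegral_mono fun ξ => ?_
        have h1 : ‖FF f ξ‖ₑ ≤ B := by
          rw [← ofReal_norm]
          exact ENNReal.ofReal_le_ofReal (FF_bdd ξ)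
        calc ‖FF f ξ‖ₑ ^ q' = ‖FF f ξ‖ₑ ^ (q' - q) * ‖FF f ξ‖ₑ ^ q := by
              rw [← ENNReal.rpow_add_of_nonneg _ _ (by linarith) hq.le, sub_add_cancel]
          _ ≤ _ := by
              gcongr
    _ = B ^ (q' - q) * ∫⁻ ξ, ‖FF f ξ‖ₑ ^ q := by
        refine lintegral_const_mul' _ _ ?_
        exact ENNReal.rpow_ne_top_of_nonneg (by linarith) ENNReal.ofReal_ne_top
    _ < ∞ := by
        refine ENNReal.mul_lt_top ?_ h
        exact ENNReal.rpow_lt_top_of_nonneg (by linarith) ENNReal.ofReal_ne_top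

/-- all exponents at once -/
lemma all_exp {Ω : Type} [MeasurableSpace Ω] {P : Measure Ω}
    {h : Ω → (Fin k → ℝ) → ℂ} (hi : ∀ ω, IntegrableOn (h ω) (QQ k)) {q0 : ℝ} (hq0 : 0 < q0)
    (hh : ∀ q, q0 < q → ∀ᵐ ω ∂P, ∫⁻ ξ, ‖FF (h ω) ξ‖ₑ ^ q < ∞) :
    ∀ᵐ ω ∂P, ∀ q, q0 < q → MemLp (FF (h ω)) (ENNReal.ofReal q) := by
  have h1 : ∀ᵐ ω ∂P, ∀ n : ℕ, ∫⁻ ξ, ‖FF (h ω) ξ‖ₑ ^ (q0 + 1 / ((n : ℝ) + 1)) < ∞ := by
    rw [ae_all_iff]
    intro n
    exact hh _ (by
      have : (0:ℝ) < 1 / ((n : ℝ) + 1) := by positivity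
      linarith)
  filter_upwards [h1] with ω hω q hq
  obtain ⟨n, hn⟩ := exists_nat_one_div_lt (show 0 < q - q0 by linarith)
  have hn0 : (0:ℝ) < 1 / ((n : ℝ) + 1) := by positivity
  exact up_exp (hi ω) (by linarith) (by linarith) (hω n)

end Pool.Agent.V5helper63.RH
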